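import Pool.Agent.Q93.MC.Series
import Pool.Agent.Q93.CPP.Cert

/-!
Certificates of complete Pick pairs of kernels on a subset of a set.
-/

set_option autoImplicit false
set_option linter.unusedSectionVars false

open Finset Filter Topology Metric Matrix

open scoped ComplexConjugate ComplexOrder

noncomputable section

namespace Pool.Agent.Q93.MC

open Pool.Agent.Results.MP_e3a8c8_an.ShimorinCertificates
open Pool.Agent.H770R3.Shim

/-- The block matrix `[ℓ(x,y) I_J - k(x,y) W(x) W(y)^*]`, `x, y ∈ F`, is positive semidefinite (it is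
written as a scalar matrix indexed by pairs of a point of `F` and a coordinate). -/
def BlockPSD {V : Type} (k ℓ : V → V → ℂ) {J : ℕ} (F : Finset V)
    (W : V → Matrix (Fin J) (Fin J) ℂ) : Prop :=
  (Matrix.of fun a b : F × Fin J =>
    (ℓ a.1 b.1 • (1 : Matrix (Fin J) (Fin J) ℂ) - k a.1 b.1 • (W a.1 * (W b.1)ᴴ)) a.2 b.2).PosSemidef

/-- `(k, ℓ, X)` is a complete Pick pair. -/
def IsCP {V : Type} (k ℓ : V → V → ℂ) (X : Set V) : Prop :=
  ∀ J : ℕ, 1 ≤ J → ∀ F : Finset V, (F : Set V) ⊆ X → ∀ W : V → Matrix (Fin J) (Fin J) ℂ,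
    BlockPSD k ℓ F W → ∃ Φ : V → Matrix (Fin J) (Fin J) ℂ, (∀ x ∈ F, Φ x = W x) ∧
      ∀ G : Finset V, (G : Set V) ⊆ X → BlockPSD k ℓ G Φ

variable {V : Type}

/-- the restriction of a kernel to a subset, as a kernel on a type -/
def IsKer.toKernel {X : Set V} {k : V → V → ℂ} (hk : IsKer X k) : Kernel X :=
  ⟨Matrix.of fun x y : X => k x y, hk.matrix⟩

lemma IsKer.mono {X Y : Set V} {k : V → V → ℂ} (hk : IsKer X k) (h : Y ⊆ X) : IsKer Y k :=
  fun n z hz => hk n z fun i => h (hz i)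

lemma isKer_of_matrix {X : Set V} {k : V → V → ℂ}
    (h : (Matrix.of fun x y : X => k x y).PosSemidef) : IsKer X k := by
  intro n z hz
  exact h.submatrix fun i => (⟨z i, hz i⟩ : X)

lemma onePoint_of_isCP {X : Set V} {k ℓ : V → V → ℂ} (hk : IsKer X k) (hℓ : IsKer X ℓ)
    (hcp : IsCP k ℓ X) (N : ℕ) : OnePoint N hk.toKernel.fn hℓ.toKernel.fn := by
  classical
  intro F z hz T hT h
  rcases Nat.eq_zero_or_pos N with hN | hN
  · subst hN
    have : ∀ (g : Matrix X X ℂ) (h' : X → E 0), Q g F h' = 0 := by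
      intro g h'
      unfold Q
      have : ∀ i ∈ F, (∑ j ∈ F, g i j * inner ℂ (h' i) (h' j)) = 0 := fun i _ =>
        Finset.sum_eq_zero fun j _ => by
          rw [Subsingleton.elim (h' i) 0, inner_zero_left, mul_zero]
      rw [Finset.sum_eq_zero this]; simp
    rw [this, this]
  let W : X → Matrix (Fin N) (Fin N) ℂ := fun x => (Matrix.toEuclideanLin.symm (T x))ᴴ
  have hW : ∀ x, adjMap W x = T x := by
    intro x
    simp only [adjMap, W, Matrix.conjTranspose_conjTranspose, LinearEquiv.apply_symm_apply]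
  have hp : (pickMatrix hk.toKernel hℓ.toKernel F W).PosSemidef := (pick_iff F W).mpr (by
    intro h'
    simp only [hW]
    exact hT h')
  let W' : V → Matrix (Fin N) (Fin N) ℂ := fun v => if hv : v ∈ X then W ⟨v, hv⟩ else 0
  have hW' : ∀ x : X, W' x = W x := fun x => dif_pos x.2
  let F' : Finset V := F.map (Function.Embedding.subtype _)
  have hF' : (F' : Set V) ⊆ X := by
    intro v hv
    simp only [F', Finset.coe_map, Function.Embedding.subtype_apply, Set.mem_image] at hv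
    obtain ⟨x, -, rfl⟩ := hv
    exact x.2
  have hmem : ∀ v ∈ F', ∃ hv : v ∈ X, (⟨v, hv⟩ : X) ∈ F := by
    intro v hv
    simp only [F', Finset.mem_map, Function.Embedding.subtype_apply] at hv
    obtain ⟨x, hx, rfl⟩ := hv
    exact ⟨x.2, hx⟩
  obtain ⟨Φ, hΦ1, hΦ2⟩ := hcp N hN F' hF' W' (by
    have h1 := hp.submatrix fun b : F' × Fin N =>
      ((⟨⟨b.1, (hmem b.1 b.1.2).1⟩, (hmem b.1 b.1.2).2⟩ : F), b.2)
    unfold BlockPSD
    convert h1 using 1
    ext a b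
    simp only [pickMatrix, Matrix.of_apply, Matrix.submatrix_apply]
    have e1 : W' a.1 = W ⟨a.1, (hmem a.1 a.1.2).1⟩ := dif_pos _
    have e2 : W' b.1 = W ⟨b.1, (hmem b.1 b.1.2).1⟩ := dif_pos _
    rw [e1, e2]
    rfl)
  let G : Finset X := insert z F
  have hGV := hΦ2 (G.map (Function.Embedding.subtype _)) (by
    intro v hv
    simp only [Finset.coe_map, Function.Embedding.subtype_apply, Set.mem_image] at hv
    obtain ⟨x, -, rfl⟩ := hv
    exact x.2)
  have hpG : (pickMatrix hk.toKernel hℓ.toKernel G (fun x : X => Φ x)).PosSemidef := by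
    have h1 := hGV.submatrix fun b : G × Fin N =>
      ((⟨(b.1 : X), Finset.mem_map.2 ⟨b.1, b.1.2, rfl⟩⟩ :
        (G.map (Function.Embedding.subtype _) : Finset V)), b.2)
    exact h1
  let h' : X → E N := Function.update h z
    (-∑ j ∈ F, (hℓ.toKernel.fn z j / hℓ.toKernel.fn z z) • h j)
  have hne : ∀ i ∈ F, i ≠ z := fun i hi e => hz (e ▸ hi)
  have h1 := (pick_iff G (fun x : X => Φ x)).mp hpG h'
  rw [Q_insert hk.toKernel.psd hz, Q_insert hℓ.toKernel.psd hz] at h1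
  have e1 : Q (red hk.toKernel.fn z) F (fun i => adjMap (fun x : X => Φ x) i (h' i)) =
      Q (red hk.toKernel.fn z) F (fun i => T i (h i)) :=
    Q_congr _ fun i hi => by
      have h3 : Φ i = W i := by
        rw [hΦ1 i (Finset.mem_map.2 ⟨i, hi, rfl⟩), hW']
      have : adjMap (fun x : X => Φ x) i = T i := by
        rw [← hW i]; simp only [adjMap, h3]
      rw [this]
      simp only [h', Function.update_of_ne (hne i hi)]
  have e2 : Q (red hℓ.toKernel.fn z) F h' = Q (red hℓ.toKernel.fn z) F h :=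
    Q_congr _ fun i hi => by simp only [h', Function.update_of_ne (hne i hi)]
  have e3 : h' z + ∑ j ∈ F, (hℓ.toKernel.fn z j / hℓ.toKernel.fn z z) • h' j = 0 := by
    have : ∑ j ∈ F, (hℓ.toKernel.fn z j / hℓ.toKernel.fn z z) • h' j =
        ∑ j ∈ F, (hℓ.toKernel.fn z j / hℓ.toKernel.fn z z) • h j :=
      Finset.sum_congr rfl fun j hj => by simp only [h', Function.update_of_ne (hne j hj)]
    rw [this]
    simp [h']
  rw [e1, e2, e3, norm_zero] at h1
  have h2 := mul_nonneg (psd_diag_re hk.toKernel.psd z)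
    (sq_nonneg ‖(fun i => adjMap (fun x : X => Φ x) i (h' i)) z +
      ∑ j ∈ F, (hk.toKernel.fn z j / hk.toKernel.fn z z) •
        (fun i => adjMap (fun x : X => Φ x) i (h' i)) j‖)
  nlinarith

lemma IsCP.mono {X Y : Set V} {k ℓ : V → V → ℂ} (h : IsCP k ℓ X) (hYX : Y ⊆ X) : IsCP k ℓ Y := by
  intro J hJ F hF W hW
  obtain ⟨Φ, h1, h2⟩ := h J hJ F (hF.trans hYX) W hW
  exact ⟨Φ, h1, fun G hG => h2 G (hG.trans hYX)⟩

variable {g : ℕ}

/-- The data at a point of a complete Pick pair. -/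
theorem exists_data {Ω : Set (Fin g → ℂ)} (hΩ : IsOpen Ω) (hconn : IsPreconnected Ω)
    {k ℓ : (Fin g → ℂ) → (Fin g → ℂ) → ℂ} (hk : IsKer Ω k) (hℓ : IsKer Ω ℓ)
    (hcont : ContinuousOn (fun q : (Fin g → ℂ) × (Fin g → ℂ) => ℓ q.1 q.2) (Ω ×ˢ Ω))
    (hhol : ∀ w ∈ Ω, DifferentiableOn ℂ (fun z => ℓ z w) Ω) (hcp : IsCP k ℓ Ω)
    {c : Fin g → ℂ} (hc : c ∈ Ω) (hℓc : ℓ c c ≠ 0) :
    ∃ p : (Fin g → ℂ) → (Fin g → ℂ) → ℂ, Data Ω ℓ c p ∧
      IsKer {z | z ∈ Ω ∧ ℓ z z ≠ 0} fun z w => p z w * k z w - (k z w - k z c * k c w / k c c) := by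
  classical
  set N : Set (Fin g → ℂ) := {z | z ∈ Ω ∧ ℓ z z ≠ 0} with hN
  have hNΩ : N ⊆ Ω := fun z hz => hz.1
  have hkN := hk.mono hNΩ
  have hℓN := hℓ.mono hNΩ
  obtain ⟨P, hP, h1, h2⟩ := cert hkN.toKernel.psd hℓN.toKernel.psd
    (fun x h0 => absurd h0 x.2.2) (onePoint_of_isCP hkN hℓN (hcp.mono hNΩ)) ⟨c, hc, hℓc⟩
  let p : (Fin g → ℂ) → (Fin g → ℂ) → ℂ := fun z w =>
    if h : z ∈ N ∧ w ∈ N then P ⟨z, h.1⟩ ⟨w, h.2⟩ else 0
  have hp : ∀ x y : N, p x y = P x y := fun x y => dif_pos ⟨x.2, y.2⟩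
  have hpm : (Matrix.of fun x y : N => p x y) = P := by
    ext x y
    exact hp x y
  have hpk : IsKer N p := isKer_of_matrix (by rw [hpm]; exact hP)
  have hcN : c ∈ N := ⟨hc, hℓc⟩
  have hred : ∀ x y : N, red hℓN.toKernel.fn ⟨c, hcN⟩ x y = ℓ x y - ℓ x c * ℓ c y / ℓ c c :=
    fun x y => rfl
  have hker1 : IsKer N fun z w => ℓ z w - ℓ z c * ℓ c w / ℓ c c - p z w * ℓ z w := by
    refine isKer_of_matrix ?_
    convert h1 using 1
    ext x y
    rw [Matrix.of_apply, Matrix.sub_apply, hred, Matrix.hadamard_apply, hp]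
    rfl
  have hcc := hℓ.diag hc
  have hccpos : 0 < (ℓ c c).re := by
    refine lt_of_le_of_ne hcc.1 fun h0 => hℓc ?_
    rw [hcc.2, ← h0]; rfl
  have hpone : ∀ z ∈ N, (p z z).re ≤ 1 := by
    intro z hz
    have h3 := (hker1.diag hz).1
    have h4 := hℓ.diag hz.1
    have h5 := hpk.diag hz
    have hzpos : 0 < (ℓ z z).re := by
      refine lt_of_le_of_ne h4.1 fun h0 => hz.2 ?_
      rw [h4.2, ← h0]; rfl
    have h6 : ℓ z c * ℓ c z / ℓ c c = ((‖ℓ z c‖ ^ 2 / (ℓ c c).re : ℝ) : ℂ) := by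
      rw [hℓ.herm hz.1 hc, Complex.mul_conj, Complex.normSq_eq_norm_sq, Complex.ofReal_div,
        ← hcc.2]
    rw [h6] at h3
    have h7 : (p z z * ℓ z z).re = (p z z).re * (ℓ z z).re := by
      rw [h5.2, h4.2, ← Complex.ofReal_mul, Complex.ofReal_re, Complex.ofReal_re,
        Complex.ofReal_re]
    rw [Complex.sub_re, Complex.sub_re, Complex.ofReal_re, h7] at h3
    have h8 : 0 ≤ ‖ℓ z c‖ ^ 2 / (ℓ c c).re := by positivity
    by_contra hcon
    push Not at hcon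
    nlinarith
  have hpc : p c c = 0 := by
    have h3 := (hker1.diag hcN).1
    have h5 := hpk.diag hcN
    have h6 : ℓ c c - ℓ c c * ℓ c c / ℓ c c = 0 := by
      rw [mul_div_assoc, div_self hℓc, mul_one, sub_self]
    rw [h6, zero_sub, Complex.neg_re, h5.2, hcc.2, ← Complex.ofReal_mul, Complex.ofReal_re] at h3
    have h7 : (p c c).re = 0 := by nlinarith [h5.1]
    rw [h5.2, h7]; rfl
  refine ⟨p, ⟨hΩ, hconn, hℓ, hcont, hhol, hc, hℓc, hpk, fun z hz h0 => hpone z ⟨hz, h0⟩, hpc,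
    ⟨(ℓ c c).re, hccpos.le, ?_⟩⟩, ?_⟩
  · -- domination
    have h3 : (P ⊙ red hℓN.toKernel.fn ⟨c, hcN⟩).PosSemidef :=
      hP.hadamard (Q93.CPP.red_psd hℓN.toKernel.psd _)
    have h4 := (h1.add h3).add (Q93.CPP.rankOne_psd hℓN.toKernel.psd ⟨c, hcN⟩)
    have h5 := h4.smul (show (0 : ℝ) ≤ (ℓ c c).re from hccpos.le)
    refine isKer_of_matrix ?_
    convert h5 using 1
    ext x y
    rw [Matrix.smul_apply, Matrix.add_apply, Matrix.add_apply, Matrix.sub_apply,
      Matrix.hadamard_apply, Matrix.hadamard_apply, Matrix.of_apply, Matrix.of_apply, hred, hp]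
    have e1 : hℓN.toKernel.fn x y = ℓ x y := rfl
    have e2 : hℓN.toKernel.fn x ⟨c, hcN⟩ = ℓ x c := rfl
    have e3 : hℓN.toKernel.fn ⟨c, hcN⟩ y = ℓ c y := rfl
    have e4 : hℓN.toKernel.fn ⟨c, hcN⟩ ⟨c, hcN⟩ = ℓ c c := rfl
    rw [e1, e2, e3, e4, Complex.real_smul, ← hcc.2, ← hℓ.herm y.2.1 hc]
    field_simp
    ring
  · refine isKer_of_matrix ?_
    convert h2 using 1
    ext x y
    rw [Matrix.of_apply, Matrix.sub_apply, Matrix.hadamard_apply, hp]
    rfl

end Pool.Agent.Q93.MC
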