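import Pool.Agent.Q93.MC.Scalar

/-!
Extraction of diagonal coefficients of positive semidefinite double power series.
-/

set_option autoImplicit false
set_option linter.unusedSectionVars false

open Finset Filter Topology Metric

open scoped ComplexConjugate ComplexOrder

noncomputable section

namespace Pool.Agent.Q93.MC

variable {g : ℕ}

/-- discrete torus averages (not normalized) -/
def avg (N : ℕ) (b : Fin g →₀ ℕ) (s : ℝ) (F : (Fin g → ℂ) → (Fin g → ℂ) → ℂ) : ℂ :=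
  ∑ τ : Fin g → Fin N, ∑ τ' : Fin g → Fin N, conj (mon (tp N τ) b) *
    F (fun i => (s : ℂ) * tp N τ i) (fun i => (s : ℂ) * tp N τ' i) * mon (tp N τ') b

lemma avg_add (N : ℕ) (b : Fin g →₀ ℕ) (s : ℝ) (F F' : (Fin g → ℂ) → (Fin g → ℂ) → ℂ) :
    avg N b s (fun z w => F z w + F' z w) = avg N b s F + avg N b s F' := by
  simp only [avg, mul_add, add_mul, Finset.sum_add_distrib]

lemma avg_sub (N : ℕ) (b : Fin g →₀ ℕ) (s : ℝ) (F F' : (Fin g → ℂ) → (Fin g → ℂ) → ℂ) :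
    avg N b s (fun z w => F z w - F' z w) = avg N b s F - avg N b s F' := by
  simp only [avg, mul_sub, sub_mul, Finset.sum_sub_distrib]

lemma tpt_norm {N : ℕ} {s : ℝ} (hs : 0 ≤ s) (τ : Fin g → Fin N) (i : Fin g) :
    ‖(s : ℂ) * tp N τ i‖ = s := by
  rw [norm_mul, tp, rt_norm, mul_one, Complex.norm_real, Real.norm_of_nonneg hs]

lemma avg_nonneg {N : ℕ} {b : Fin g →₀ ℕ} {s : ℝ} (hs : 0 ≤ s)
    {F : (Fin g → ℂ) → (Fin g → ℂ) → ℂ} (hF : IsKer {z | ∀ j, ‖z j‖ ≤ s} F) :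
    0 ≤ avg N b s F := by
  have h1 : (Matrix.of fun τ τ' : Fin g → Fin N =>
      F (fun i => (s : ℂ) * tp N τ i) (fun i => (s : ℂ) * tp N τ' i)).PosSemidef := by
    have := hF.matrix.submatrix fun τ : Fin g → Fin N =>
      (⟨fun i => (s : ℂ) * tp N τ i, fun j => (tpt_norm hs τ j).le⟩ :
        {z : Fin g → ℂ | ∀ j, ‖z j‖ ≤ s})
    exact this
  exact psd_sum h1 univ fun τ => mon (tp N τ) b

variable {ι : Type*}

/-- the terms of the averaged series -/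
def term (T : ι → ℂ) (α β : ι → (Fin g →₀ ℕ)) (s : ℝ) (i : ι) : ℂ :=
  T i * (s : ℂ) ^ (∑ j, α i j + ∑ j, β i j)

lemma avg_tsum {T : ι → ℂ} {α β : ι → (Fin g →₀ ℕ)} {s : ℝ} (hs : 0 ≤ s)
    {F : (Fin g → ℂ) → (Fin g → ℂ) → ℂ}
    (hF : ∀ z w : Fin g → ℂ, (∀ j, ‖z j‖ ≤ s) → (∀ j, ‖w j‖ ≤ s) →
      HasSum (fun i => T i * mon z (α i) * conj (mon w (β i))) (F z w))
    {N : ℕ} (hN : N ≠ 0) (b : Fin g →₀ ℕ) :
    HasSum (fun i => (Fintype.card (Fin g → Fin N) : ℂ) ^ 2 *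
      (if (∀ j, b j ≡ α i j [MOD N]) ∧ (∀ j, β i j ≡ b j [MOD N]) then term T α β s i else 0))
      (avg N b s F) := by
  have h1 : HasSum (fun i => ∑ τ : Fin g → Fin N, ∑ τ' : Fin g → Fin N,
      conj (mon (tp N τ) b) * (T i * mon (fun j => (s : ℂ) * tp N τ j) (α i) *
        conj (mon (fun j => (s : ℂ) * tp N τ' j) (β i))) * mon (tp N τ') b) (avg N b s F) := by
    refine hasSum_sum fun τ _ => hasSum_sum fun τ' _ => ?_
    exact ((hF _ _ (fun j => (tpt_norm hs τ j).le) fun j => (tpt_norm hs τ' j).le).mul_left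
      _).mul_right _
  convert h1 using 1
  funext i
  have h2 : ∀ τ τ' : Fin g → Fin N,
      conj (mon (tp N τ) b) * (T i * mon (fun j => (s : ℂ) * tp N τ j) (α i) *
        conj (mon (fun j => (s : ℂ) * tp N τ' j) (β i))) * mon (tp N τ') b =
      term T α β s i * ((conj (mon (tp N τ) b) * mon (tp N τ) (α i)) *
        (conj (mon (tp N τ') (β i)) * mon (tp N τ') b)) := by
    intro τ τ'
    rw [mon_smul, mon_smul, term, map_mul, map_pow, Complex.conj_ofReal, pow_add]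
    ring
  simp only [h2]
  simp only [← Finset.mul_sum]
  rw [← Finset.sum_mul, orth hN, orth hN]
  by_cases hA : ∀ j, b j ≡ α i j [MOD N]
  · by_cases hB : ∀ j, β i j ≡ b j [MOD N]
    · rw [if_pos ⟨hA, hB⟩, if_pos hA, if_pos hB]
      ring
    · rw [if_neg fun h => hB h.2, if_neg hB]
      ring
  · rw [if_neg fun h => hA h.1, if_neg hA]
    ring

/-- The normalized averages converge to the diagonal coefficient. -/
lemma avg_tendsto {T : ι → ℂ} {α β : ι → (Fin g →₀ ℕ)} {s : ℝ} (hs : 0 ≤ s)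
    {F : (Fin g → ℂ) → (Fin g → ℂ) → ℂ}
    (hF : ∀ z w : Fin g → ℂ, (∀ j, ‖z j‖ ≤ s) → (∀ j, ‖w j‖ ≤ s) →
      HasSum (fun i => T i * mon z (α i) * conj (mon w (β i))) (F z w))
    (hsum : Summable fun i => ‖term T α β s i‖) (b : Fin g →₀ ℕ) :
    Tendsto (fun N : ℕ => ((Fintype.card (Fin g → Fin N) : ℂ) ^ 2)⁻¹ * avg N b s F) atTop
      (𝓝 (∑' i, if b = α i ∧ β i = b then term T α β s i else 0)) := by
  have h1 : ∀ᶠ N : ℕ in atTop,
      ∑' i, (if (∀ j, b j ≡ α i j [MOD N]) ∧ (∀ j, β i j ≡ b j [MOD N]) then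
        term T α β s i else 0) = ((Fintype.card (Fin g → Fin N) : ℂ) ^ 2)⁻¹ * avg N b s F := by
    filter_upwards [eventually_ne_atTop 0] with N hN
    have hcard : (Fintype.card (Fin g → Fin N) : ℂ) ≠ 0 := by
      have : Nonempty (Fin g → Fin N) := ⟨fun _ => ⟨0, Nat.pos_of_ne_zero hN⟩⟩
      exact_mod_cast Fintype.card_ne_zero
    have h2 := (avg_tsum hs hF hN b).mul_left (((Fintype.card (Fin g → Fin N) : ℂ) ^ 2)⁻¹)
    rw [← h2.tsum_eq]
    congr 1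
    funext i
    rw [← mul_assoc, inv_mul_cancel₀ (pow_ne_zero 2 hcard), one_mul]
  refine Tendsto.congr' h1 ?_
  refine tendsto_tsum_of_dominated_convergence (bound := fun i => ‖term T α β s i‖) hsum ?_ ?_
  · intro i
    refine tendsto_const_nhds.congr' ?_
    have h3 : ∀ᶠ N : ℕ in atTop, ∀ j, (b j ≡ α i j [MOD N] ↔ b j = α i j) ∧
        (β i j ≡ b j [MOD N] ↔ β i j = b j) :=
      Filter.eventually_all.2 fun j => (modEq_eventually _ _).and (modEq_eventually _ _)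
    filter_upwards [h3] with N hN
    have h4 : (b = α i ∧ β i = b) ↔
        ((∀ j, b j ≡ α i j [MOD N]) ∧ (∀ j, β i j ≡ b j [MOD N])) := by
      constructor
      · rintro ⟨h5, h6⟩
        exact ⟨fun j => (hN j).1.2 (by rw [← h5]), fun j => (hN j).2.2 (by rw [h6])⟩
      · rintro ⟨h5, h6⟩
        exact ⟨Finsupp.ext fun j => (hN j).1.1 (h5 j), Finsupp.ext fun j => (hN j).2.1 (h6 j)⟩
    by_cases h : b = α i ∧ β i = b
    · rw [if_pos h, if_pos (h4.1 h)]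
    · rw [if_neg h, if_neg fun h' => h (h4.2 h')]
  · filter_upwards with N i
    split_ifs
    · exact le_rfl
    · rw [norm_zero]; exact norm_nonneg _

lemma deg_add (a b : Fin g →₀ ℕ) : ∑ j, (a + b) j = ∑ j, a j + ∑ j, b j := by
  rw [← Finset.sum_add_distrib]
  rfl

lemma summable_pair {G : (Fin g →₀ ℕ) → (Fin g →₀ ℕ) → ℂ} {s ρ : ℝ} (hs : 0 ≤ s) (hsρ : s < ρ)
    (hG : ∀ a b : Fin g →₀ ℕ, ρ ^ (∑ j, a j + ∑ j, b j) * ‖G a b‖ ≤ 1) :
    (∀ a b : Fin g →₀ ℕ, ‖G a b‖ * s ^ (∑ j, a j + ∑ j, b j) ≤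
      mon (fun _ => s / ρ) a * mon (fun _ => s / ρ) b) ∧
    Summable fun q : (Fin g →₀ ℕ) × (Fin g →₀ ℕ) =>
      mon (fun _ : Fin g => s / ρ) q.1 * mon (fun _ : Fin g => s / ρ) q.2 := by
  have hρ : 0 < ρ := lt_of_le_of_lt hs hsρ
  constructor
  · intro a b
    rw [mon_const, mon_const, ← pow_add, div_pow, le_div_iff₀ (pow_pos hρ _)]
    have h1 := hG a b
    have h2 : 0 ≤ s ^ (∑ j, a j + ∑ j, b j) := pow_nonneg hs _
    nlinarith
  · have h1 := summable_mon (g := g) (t := fun _ => s / ρ) (fun _ => by positivity)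
      fun _ => (div_lt_one hρ).2 hsρ
    exact h1.mul_of_nonneg h1 (fun a => mon_nonneg (fun _ => by positivity) a)
      fun a => mon_nonneg (fun _ => by positivity) a

lemma norm_mon_le {z : Fin g → ℂ} {s : ℝ} (hz : ∀ j, ‖z j‖ ≤ s) (a : Fin g →₀ ℕ) :
    ‖mon z a‖ ≤ s ^ ∑ j, a j := by
  rw [mon_norm, ← mon_const]
  exact mon_mono (fun j => norm_nonneg _) hz a

lemma PG_norm {G : (Fin g →₀ ℕ) → (Fin g →₀ ℕ) → ℂ} {s ρ : ℝ} (hs : 0 ≤ s) (hsρ : s < ρ)
    (hG : ∀ a b : Fin g →₀ ℕ, ρ ^ (∑ j, a j + ∑ j, b j) * ‖G a b‖ ≤ 1) {z w : Fin g → ℂ}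
    (hz : ∀ j, ‖z j‖ ≤ s) (hw : ∀ j, ‖w j‖ ≤ s) (q : (Fin g →₀ ℕ) × (Fin g →₀ ℕ)) :
    ‖G q.1 q.2 * mon z q.1 * conj (mon w q.2)‖ ≤
      mon (fun _ : Fin g => s / ρ) q.1 * mon (fun _ : Fin g => s / ρ) q.2 := by
  refine le_trans ?_ ((summable_pair hs hsρ hG).1 q.1 q.2)
  rw [norm_mul, norm_mul, RCLike.norm_conj, pow_add, mul_assoc]
  refine mul_le_mul_of_nonneg_left ?_ (norm_nonneg _)
  exact mul_le_mul (norm_mon_le hz _) (norm_mon_le hw _) (norm_nonneg _) (pow_nonneg hs _)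

/-- The coefficient inequality of a diagonal kernel. -/
theorem coeff_ineq {G : (Fin g →₀ ℕ) → (Fin g →₀ ℕ) → ℂ} {ka : (Fin g →₀ ℕ) → ℝ}
    {k : (Fin g → ℂ) → (Fin g → ℂ) → ℂ} {s ρ : ℝ} (hs : 0 < s) (hsρ : s < ρ)
    (hG : ∀ a b : Fin g →₀ ℕ, ρ ^ (∑ j, a j + ∑ j, b j) * ‖G a b‖ ≤ 1)
    (hka0 : ∀ a, 0 ≤ ka a)
    (hka : ∀ z w : Fin g → ℂ, (∀ j, ‖z j‖ ≤ s) → (∀ j, ‖w j‖ ≤ s) →
      HasSum (fun a => (ka a : ℂ) * mon z a * conj (mon w a)) (k z w))
    (hpsd : IsKer {z | ∀ j, ‖z j‖ ≤ s} fun z w => PG G z w * k z w - k z w + 1)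
    {b : Fin g →₀ ℕ} (hb : b ≠ 0) :
    ka b ≤ ∑ p ∈ HasAntidiagonal.antidiagonal b, (G p.1 p.1).re * ka p.2 := by
  classical
  -- summability of the coefficients of `k`
  have hkas : Summable fun a : Fin g →₀ ℕ => ka a * (s ^ (∑ j, a j) * s ^ (∑ j, a j)) := by
    have h1 := (hka (fun _ => (s : ℂ)) (fun _ => (s : ℂ))
      (fun j => by rw [Complex.norm_real, Real.norm_of_nonneg hs.le])
      (fun j => by rw [Complex.norm_real, Real.norm_of_nonneg hs.le])).summable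
    rw [← Complex.summable_ofReal]
    convert h1 using 1
    funext a
    rw [mon_const, map_pow, Complex.conj_ofReal]
    push_cast
    ring
  have hpair := summable_pair hs.le hsρ hG
  -- first series
  have hF1 : ∀ z w : Fin g → ℂ, (∀ j, ‖z j‖ ≤ s) → (∀ j, ‖w j‖ ≤ s) →
      HasSum (fun i : ((Fin g →₀ ℕ) × (Fin g →₀ ℕ)) × (Fin g →₀ ℕ) =>
        (G i.1.1 i.1.2 * ka i.2) * mon z (i.1.1 + i.2) * conj (mon w (i.1.2 + i.2)))
        (PG G z w * k z w) := by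
    intro z w hz hw
    have h1 : Summable fun q : (Fin g →₀ ℕ) × (Fin g →₀ ℕ) =>
        ‖G q.1 q.2 * mon z q.1 * conj (mon w q.2)‖ :=
      Summable.of_nonneg_of_le (fun _ => norm_nonneg _) (PG_norm hs.le hsρ hG hz hw) hpair.2
    have h2 : Summable fun a : Fin g →₀ ℕ => ‖(ka a : ℂ) * mon z a * conj (mon w a)‖ := by
      refine Summable.of_nonneg_of_le (fun _ => norm_nonneg _) (fun a => ?_) hkas
      rw [norm_mul, norm_mul, RCLike.norm_conj, Complex.norm_real, Real.norm_of_nonneg (hka0 a),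
        mul_assoc]
      refine mul_le_mul_of_nonneg_left ?_ (hka0 a)
      exact mul_le_mul (norm_mon_le hz _) (norm_mon_le hw _) (norm_nonneg _) (pow_nonneg hs.le _)
    have h3 := summable_mul_of_summable_norm h1 h2
    have h4 := tsum_mul_tsum_of_summable_norm h1 h2
    rw [(hka z w hz hw).tsum_eq] at h4
    have h5 := h3.hasSum
    rw [← h4] at h5
    have h6 : (fun i : ((Fin g →₀ ℕ) × (Fin g →₀ ℕ)) × (Fin g →₀ ℕ) =>
        (G i.1.1 i.1.2 * ka i.2) * mon z (i.1.1 + i.2) * conj (mon w (i.1.2 + i.2))) =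
        fun x : ((Fin g →₀ ℕ) × (Fin g →₀ ℕ)) × (Fin g →₀ ℕ) =>
          G x.1.1 x.1.2 * mon z x.1.1 * conj (mon w x.1.2) *
            ((ka x.2 : ℂ) * mon z x.2 * conj (mon w x.2)) := by
      funext i
      rw [mon_add, mon_add, map_mul]
      ring
    rw [h6]
    exact h5
  have hs1 : Summable fun i : ((Fin g →₀ ℕ) × (Fin g →₀ ℕ)) × (Fin g →₀ ℕ) =>
      ‖term (fun i => (G i.1.1 i.1.2 * ka i.2)) (fun i => i.1.1 + i.2) (fun i => i.1.2 + i.2) s i‖ := by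
    have h1 := hpair.2.mul_of_nonneg hkas (fun q => mul_nonneg
      (mon_nonneg (fun _ => div_nonneg hs.le (hs.le.trans hsρ.le)) _)
      (mon_nonneg (fun _ => div_nonneg hs.le (hs.le.trans hsρ.le)) _))
      fun a => mul_nonneg (hka0 a) (by positivity)
    refine Summable.of_nonneg_of_le (fun _ => norm_nonneg _) (fun i => ?_) h1
    rw [term, norm_mul, norm_mul, norm_pow, Complex.norm_real, Complex.norm_real,
      Real.norm_of_nonneg hs.le, Real.norm_of_nonneg (hka0 _), deg_add, deg_add]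
    have h2 := hpair.1 i.1.1 i.1.2
    calc ‖G i.1.1 i.1.2‖ * ka i.2 * s ^ (∑ j, i.1.1 j + ∑ j, i.2 j + (∑ j, i.1.2 j + ∑ j, i.2 j))
        = (‖G i.1.1 i.1.2‖ * s ^ (∑ j, i.1.1 j + ∑ j, i.1.2 j)) *
          (ka i.2 * (s ^ (∑ j, i.2 j) * s ^ (∑ j, i.2 j))) := by
          rw [← pow_add s (∑ j, i.2 j)]
          rw [show ∑ j, i.1.1 j + ∑ j, i.2 j + (∑ j, i.1.2 j + ∑ j, i.2 j) =
            (∑ j, i.1.1 j + ∑ j, i.1.2 j) + (∑ j, i.2 j + ∑ j, i.2 j) by ring, pow_add]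
          ring
      _ ≤ _ := mul_le_mul_of_nonneg_right h2 (mul_nonneg (hka0 _) (by positivity))
  have hs2 : Summable fun a : Fin g →₀ ℕ => ‖term (fun a => (ka a : ℂ)) (fun a => a) (fun a => a) s a‖ := by
    refine hkas.congr fun a => ?_
    rw [term, norm_mul, norm_pow, Complex.norm_real, Complex.norm_real,
      Real.norm_of_nonneg hs.le, Real.norm_of_nonneg (hka0 _), pow_add]
  have hs3 : Summable fun i : Unit => ‖term (fun _ => (1 : ℂ)) (fun _ => (0 : Fin g →₀ ℕ))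
      (fun _ => 0) s i‖ := Summable.of_finite
  have hF3 : ∀ z w : Fin g → ℂ, (∀ j, ‖z j‖ ≤ s) → (∀ j, ‖w j‖ ≤ s) →
      HasSum (fun _ : Unit => (1 : ℂ) * mon z (0 : Fin g →₀ ℕ) * conj (mon w (0 : Fin g →₀ ℕ)))
        ((fun _ _ => (1 : ℂ)) z w) := by
    intro z w _ _
    have h1 := hasSum_fintype (fun _ : Unit => (1 : ℂ) * mon z (0 : Fin g →₀ ℕ) *
      conj (mon w (0 : Fin g →₀ ℕ)))
    convert h1 using 1
    simp
  have t1 := avg_tendsto hs.le hF1 hs1 b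
  have t2 := avg_tendsto hs.le hka hs2 b
  have t3 := avg_tendsto (F := fun _ _ => (1 : ℂ)) hs.le hF3 hs3 b
  have t4 := (t1.sub t2).add t3
  have h0 : ∀ N : ℕ, 0 ≤ ((Fintype.card (Fin g → Fin N) : ℂ) ^ 2)⁻¹ *
      avg N b s (fun z w => PG G z w * k z w) - ((Fintype.card (Fin g → Fin N) : ℂ) ^ 2)⁻¹ *
      avg N b s k + ((Fintype.card (Fin g → Fin N) : ℂ) ^ 2)⁻¹ * avg N b s (fun _ _ => (1 : ℂ)) := by
    intro N
    have h1 := avg_nonneg (N := N) (b := b) hs.le hpsd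
    rw [avg_add N b s (fun z w => PG G z w * k z w - k z w), avg_sub] at h1
    rw [← mul_sub, ← mul_add]
    refine mul_nonneg ?_ h1
    have h2 : ((Fintype.card (Fin g → Fin N) : ℂ) ^ 2)⁻¹ =
        ((((Fintype.card (Fin g → Fin N) : ℝ) ^ 2)⁻¹ : ℝ) : ℂ) := by push_cast; rfl
    rw [h2]
    exact Complex.zero_le_real.2 (by positivity)
  have h1 := ge_of_tendsto' t4 h0
  -- evaluation of the limits
  have e1 : (∑' i : ((Fin g →₀ ℕ) × (Fin g →₀ ℕ)) × (Fin g →₀ ℕ),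
      if b = i.1.1 + i.2 ∧ i.1.2 + i.2 = b then
        term (fun i => (G i.1.1 i.1.2 * ka i.2)) (fun i => i.1.1 + i.2) (fun i => i.1.2 + i.2) s i
      else 0) = ∑ p ∈ HasAntidiagonal.antidiagonal b, G p.1 p.1 * ka p.2 *
        (s : ℂ) ^ (∑ j, b j + ∑ j, b j) := by
    let e : (Fin g →₀ ℕ) × (Fin g →₀ ℕ) → ((Fin g →₀ ℕ) × (Fin g →₀ ℕ)) × (Fin g →₀ ℕ) :=
      fun p => ((p.1, p.1), p.2)
    have he : Function.Injective e := by
      intro p q hpq
      simp only [e, Prod.mk.injEq] at hpq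
      exact Prod.ext hpq.1.1 hpq.2
    rw [tsum_eq_sum (s := (HasAntidiagonal.antidiagonal b).image e)]
    · rw [Finset.sum_image fun p _ q _ h => he h]
      refine Finset.sum_congr rfl fun p hp => ?_
      rw [HasAntidiagonal.mem_antidiagonal] at hp
      rw [if_pos ⟨hp.symm, hp⟩, term]
      simp only [e, hp]
    · rintro ⟨⟨a, a'⟩, d⟩ hi
      rw [if_neg]
      rintro ⟨h2, h3⟩
      apply hi
      simp only at h2 h3
      rw [Finset.mem_image]
      refine ⟨(a, d), ?_, ?_⟩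
      · rw [HasAntidiagonal.mem_antidiagonal]
        exact h2.symm
      · have : a' = a := by
          have h4 : a + d = a' + d := by rw [← h2, h3]
          exact (add_right_cancel h4).symm
        simp only [e, this]
  have e2 : (∑' a : Fin g →₀ ℕ, if b = a ∧ a = b then
      term (fun a => (ka a : ℂ)) (fun a => a) (fun a => a) s a else 0) =
      ka b * (s : ℂ) ^ (∑ j, b j + ∑ j, b j) := by
    rw [tsum_eq_single b]
    · rw [if_pos ⟨rfl, rfl⟩, term]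
    · intro a ha
      rw [if_neg fun h => ha h.2]
  have e3 : (∑' i : Unit, if b = (0 : Fin g →₀ ℕ) ∧ (0 : Fin g →₀ ℕ) = b then
      term (fun _ => (1 : ℂ)) (fun _ => (0 : Fin g →₀ ℕ)) (fun _ => 0) s i else 0) = 0 := by
    simp [hb]
  rw [e1, e2, e3, add_zero, ← Finset.sum_mul, ← sub_mul] at h1
  have h2 : (s : ℂ) ^ (∑ j, b j + ∑ j, b j) = ((s ^ (∑ j, b j + ∑ j, b j) : ℝ) : ℂ) := by
    push_cast; rfl
  rw [h2] at h1
  have h3 := (Complex.nonneg_iff.1 h1).1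
  rw [Complex.re_mul_ofReal] at h3
  have h4 := nonneg_of_mul_nonneg_left h3 (pow_pos hs _)
  rw [Complex.sub_re, Complex.ofReal_re, Complex.re_sum] at h4
  have h5 : ∀ p : (Fin g →₀ ℕ) × (Fin g →₀ ℕ), (G p.1 p.1 * ka p.2).re = (G p.1 p.1).re * ka p.2 :=
    fun p => Complex.re_mul_ofReal _ _
  simp only [h5] at h4
  linarith

end Pool.Agent.Q93.MC
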