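import Mathlib

/-!
One-variable complex analysis with values in Banach spaces: weakly holomorphic functions,
removable singularities.
-/

set_option autoImplicit false

open Filter Topology Set Complex Metric

noncomputable section

namespace Pool.Agent.Q93.MC

variable {H B : Type*} [NormedAddCommGroup H] [NormedSpace ℂ H] [NormedAddCommGroup B]
  [NormedSpace ℂ B] [CompleteSpace B]

/-- A norm continuous function with values in continuous linear maps which is holomorphic on a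
dense set of vectors is holomorphic. -/
theorem strong_of_weak {E : ℂ → H →L[ℂ] B} {R : ℝ} (hE : ContinuousOn E (ball 0 R)) {S : Set H}
    (hS : DenseRange (Submodule.span ℂ S).subtype)
    (hw : ∀ y ∈ S, DifferentiableOn ℂ (fun ζ => E ζ y) (ball 0 R)) :
    DifferentiableOn ℂ E (ball 0 R) := by
  intro ζ₀ hζ₀
  rw [mem_ball_zero_iff] at hζ₀
  obtain ⟨r, hr1, hr2⟩ := exists_between hζ₀
  have hr : 0 < r := lt_of_le_of_lt (norm_nonneg _) hr1
  lift r to NNReal using hr.le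
  have hsub : closedBall (0 : ℂ) r ⊆ ball 0 R := closedBall_subset_ball hr2
  have hci : CircleIntegrable E 0 r := by
    refine ContinuousOn.circleIntegrable r.2 (hE.mono ?_)
    exact sphere_subset_closedBall.trans hsub
  have hps := hasFPowerSeriesOn_cauchy_integral hci (by exact_mod_cast hr)
  have hd : DifferentiableOn ℂ
      (fun w => (2 * Real.pi * I : ℂ)⁻¹ • ∮ z in C(0, r), (z - w)⁻¹ • E z) (ball 0 r) := by
    have := hps.differentiableOn
    rwa [eball_coe] at this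
  have heq : ∀ w ∈ ball (0 : ℂ) r, (2 * Real.pi * I : ℂ)⁻¹ • (∮ z in C(0, r), (z - w)⁻¹ • E z)
      = E w := by
    intro w hw'
    have hball : w ∈ ball (0 : ℂ) (r : ℝ) := hw'
    -- it suffices to check on `S`
    have hci2 : CircleIntegrable (fun z => (z - w)⁻¹ • E z) 0 r := by
      have hinv : ContinuousOn (fun z : ℂ => (z - w)⁻¹) (sphere 0 r) := by
        refine ContinuousOn.inv₀ (by fun_prop) ?_
        intro z hz h0
        rw [sub_eq_zero] at h0
        rw [mem_sphere_zero_iff_norm] at hz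
        rw [mem_ball_zero_iff, ← h0, hz] at hball
        exact lt_irrefl _ hball
      have hcE : ContinuousOn E (sphere 0 r) := hE.mono (sphere_subset_closedBall.trans hsub)
      exact ContinuousOn.circleIntegrable r.2 (hinv.smul hcE)
    have hpt : ∀ y ∈ S, ((2 * Real.pi * I : ℂ)⁻¹ • (∮ z in C(0, r), (z - w)⁻¹ • E z)) y
        = E w y := by
      intro y hy
      have h1 : (∮ z in C(0, r), (z - w)⁻¹ • E z) y = ∮ z in C(0, r), (z - w)⁻¹ • (E z y) := by
        unfold circleIntegral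
        have := (ContinuousLinearMap.apply ℂ B y).intervalIntegral_comp_comm hci2.out
        simp only [ContinuousLinearMap.apply_apply] at this
        rw [← this]
        rfl
      rw [_root_.smul_apply, h1]
      have h2 := ((hw y hy).diffContOnCl_ball hsub).two_pi_i_inv_smul_circleIntegral_sub_inv_smul
        hball
      exact h2
    have hspan : ∀ y ∈ Submodule.span ℂ S,
        ((2 * Real.pi * I : ℂ)⁻¹ • (∮ z in C(0, r), (z - w)⁻¹ • E z)) y = E w y := by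
      intro y hy
      induction hy using Submodule.span_induction with
      | mem x hx => exact hpt x hx
      | zero => rw [map_zero, map_zero]
      | add x y _ _ hx hy => rw [map_add, map_add, hx, hy]
      | smul a x _ hx => rw [map_smul, map_smul, hx]
    ext y
    refine hS.induction_on (p := fun y =>
      ((2 * Real.pi * I : ℂ)⁻¹ • (∮ z in C(0, r), (z - w)⁻¹ • E z)) y = E w y) y ?_ ?_
    · exact isClosed_eq (ContinuousLinearMap.continuous _) (ContinuousLinearMap.continuous _)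
    · intro x
      exact hspan x.1 x.2
  have hζ : ζ₀ ∈ ball (0 : ℂ) (r : ℝ) := mem_ball_zero_iff.2 hr1
  have h3 : DifferentiableOn ℂ E (ball 0 (r : ℝ)) := hd.congr fun w hw' => (heq w hw').symm
  exact ((h3 ζ₀ hζ).differentiableAt (isOpen_ball.mem_nhds hζ)).differentiableWithinAt

omit [CompleteSpace B] in
/-- zeros are isolated -/
lemma isolated {φ : ℂ → ℂ} {R : ℝ} (hφ : DifferentiableOn ℂ φ (ball 0 R)) (hR : 0 < R)
    (h0 : φ 0 ≠ 0) {ζ : ℂ} (hζ : ζ ∈ ball (0 : ℂ) R) : ∀ᶠ z in 𝓝[≠] ζ, φ z ≠ 0 := by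
  have ha : AnalyticOnNhd ℂ φ (ball 0 R) := hφ.analyticOnNhd isOpen_ball
  rcases (ha ζ hζ).eventually_eq_zero_or_eventually_ne_zero with h | h
  · exfalso
    have := ha.eqOn_zero_of_preconnected_of_eventuallyEq_zero
      (convex_ball (0 : ℂ) R).isPreconnected hζ h
    exact h0 (this (mem_ball_self hR))
  · exact h

/-- Removal of the singularities on the zero set of `φ`. -/
theorem extend {φ : ℂ → ℂ} {R : ℝ} (hR : 0 < R) (hφ : DifferentiableOn ℂ φ (ball 0 R))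
    (h0 : φ 0 ≠ 0) {Φ : ℂ → B} (hΦ : DifferentiableOn ℂ Φ {ζ | ζ ∈ ball (0 : ℂ) R ∧ φ ζ ≠ 0})
    {M : ℝ} (hb : ∀ ζ ∈ ball (0 : ℂ) R, φ ζ ≠ 0 → ‖Φ ζ‖ ≤ M) :
    ∃ Ψ : ℂ → B, DifferentiableOn ℂ Ψ (ball 0 R) ∧ (∀ ζ ∈ ball (0 : ℂ) R, ‖Ψ ζ‖ ≤ M) ∧
      ∀ ζ ∈ ball (0 : ℂ) R, φ ζ ≠ 0 → Ψ ζ = Φ ζ := by
  have hopen : IsOpen {ζ | ζ ∈ ball (0 : ℂ) R ∧ φ ζ ≠ 0} :=
    hφ.continuousOn.isOpen_inter_preimage isOpen_ball isOpen_compl_singleton
  have hreg : ∀ ζ ∈ ball (0 : ℂ) R, φ ζ ≠ 0 → limUnder (𝓝[≠] ζ) Φ = Φ ζ := by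
    intro ζ h1 h2
    have : ContinuousAt Φ ζ :=
      ((hΦ ζ ⟨h1, h2⟩).differentiableAt (hopen.mem_nhds ⟨h1, h2⟩)).continuousAt
    exact (this.tendsto.mono_left nhdsWithin_le_nhds).limUnder_eq
  have hdiff : ∀ ζ ∈ ball (0 : ℂ) R, ∃ s ∈ 𝓝 ζ, s ⊆ ball (0 : ℂ) R ∧
      (∀ z ∈ s \ {ζ}, φ z ≠ 0) ∧
      DifferentiableOn ℂ (Function.update Φ ζ (limUnder (𝓝[≠] ζ) Φ)) s := by
    intro ζ hζ
    have h1 := isolated hφ hR h0 hζ
    rw [eventually_nhdsWithin_iff] at h1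
    have h2 : {z | z ∈ ball (0 : ℂ) R ∧ (z ∈ ({ζ} : Set ℂ)ᶜ → φ z ≠ 0)} ∈ 𝓝 ζ :=
      inter_mem (isOpen_ball.mem_nhds hζ) h1
    refine ⟨_, h2, fun z hz => hz.1, fun z hz => hz.1.2 hz.2, ?_⟩
    refine Complex.differentiableOn_update_limUnder_of_bddAbove h2 ?_ ?_
    · exact hΦ.mono fun z hz => ⟨hz.1.1, hz.1.2 hz.2⟩
    · refine ⟨M, ?_⟩
      rintro _ ⟨z, hz, rfl⟩
      exact hb z hz.1.1 (hz.1.2 hz.2)
  have hkey : DifferentiableOn ℂ (fun ζ => limUnder (𝓝[≠] ζ) Φ) (ball 0 R) := by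
    intro ζ hζ
    obtain ⟨s, hs, hsR, hs0, hsd⟩ := hdiff ζ hζ
    have h1 : (fun z => limUnder (𝓝[≠] z) Φ) =ᶠ[𝓝 ζ]
        Function.update Φ ζ (limUnder (𝓝[≠] ζ) Φ) := by
      filter_upwards [hs] with z hz
      by_cases hzζ : z = ζ
      · subst hzζ; simp
      · rw [Function.update_of_ne hzζ]
        exact hreg z (hsR hz) (hs0 z ⟨hz, hzζ⟩)
    have h2 : DifferentiableAt ℂ (Function.update Φ ζ (limUnder (𝓝[≠] ζ) Φ)) ζ :=
      (hsd ζ (mem_of_mem_nhds hs)).differentiableAt hs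
    exact (h2.congr_of_eventuallyEq h1).differentiableWithinAt
  refine ⟨fun ζ => limUnder (𝓝[≠] ζ) Φ, hkey, fun ζ hζ => ?_, hreg⟩
  have hc : ContinuousAt (fun ζ => limUnder (𝓝[≠] ζ) Φ) ζ :=
    ((hkey ζ hζ).differentiableAt (isOpen_ball.mem_nhds hζ)).continuousAt
  have h1 : Tendsto (fun z => ‖limUnder (𝓝[≠] z) Φ‖) (𝓝[≠] ζ) (𝓝 ‖limUnder (𝓝[≠] ζ) Φ‖) :=
    hc.norm.tendsto.mono_left nhdsWithin_le_nhds
  refine le_of_tendsto h1 ?_
  filter_upwards [isolated hφ hR h0 hζ,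
    nhdsWithin_le_nhds (isOpen_ball.mem_nhds hζ)] with z hz hzR
  rw [hreg z hzR hz]
  exact hb z hzR hz

end Pool.Agent.Q93.MC
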