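import Pool.Agent.Q93.MC.Pars
import Pool.Agent.Q93.MC.OneDim
import Pool.Agent.Q93.MC.Osg

/-!
Homogeneous polynomials with values in a normed space; the derivatives of holomorphic functions
along lines.
-/

set_option autoImplicit false
set_option linter.unusedSectionVars false

open Finset Filter Topology Metric

open scoped ComplexConjugate

noncomputable section

namespace Pool.Agent.Q93.MC

variable {σ : Type} [Fintype σ] [DecidableEq σ] {B : Type*} [NormedAddCommGroup B]
  [NormedSpace ℂ B]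

/-- homogeneous polynomial maps of degree `n` -/
def HP (n : ℕ) (Q : (σ → ℂ) → B) : Prop :=
  ∃ b : (σ →₀ ℕ) → B, ∀ z, Q z = ∑ a ∈ S σ n, mon z a • b a

lemma HP.add {n : ℕ} {P Q : (σ → ℂ) → B} (hP : HP n P) (hQ : HP n Q) :
    HP n fun z => P z + Q z := by
  obtain ⟨p, hp⟩ := hP
  obtain ⟨q, hq⟩ := hQ
  refine ⟨fun a => p a + q a, fun z => ?_⟩
  beta_reduce
  rw [hp, hq, ← Finset.sum_add_distrib]
  exact Finset.sum_congr rfl fun a _ => (smul_add _ _ _).symm

lemma HP.const_smul {n : ℕ} {P : (σ → ℂ) → B} (hP : HP n P) (c : ℂ) :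
    HP n fun z => c • P z := by
  obtain ⟨p, hp⟩ := hP
  refine ⟨fun a => c • p a, fun z => ?_⟩
  beta_reduce
  rw [hp, Finset.smul_sum]
  exact Finset.sum_congr rfl fun a _ => smul_comm _ _ _

lemma HP.zero (n : ℕ) : HP n fun _ : σ → ℂ => (0 : B) := ⟨fun _ => 0, by simp⟩

lemma HP.sum {ι : Type*} {n : ℕ} (s : Finset ι) {P : ι → (σ → ℂ) → B}
    (hP : ∀ i ∈ s, HP n (P i)) : HP n fun z => ∑ i ∈ s, P i z := by
  classical
  induction s using Finset.induction_on with
  | empty => simpa using HP.zero (B := B) n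
  | insert i s hi ih =>
    have h1 := (hP i (mem_insert_self i s)).add (ih fun j hj => hP j (mem_insert_of_mem hj))
    simpa only [Finset.sum_insert hi] using h1

lemma HP.comp {n : ℕ} {P : (σ → ℂ) → B} (hP : HP n P) {B' : Type*} [NormedAddCommGroup B']
    [NormedSpace ℂ B'] (L : B →L[ℂ] B') : HP n fun z => L (P z) := by
  obtain ⟨p, hp⟩ := hP
  refine ⟨fun a => L (p a), fun z => ?_⟩
  beta_reduce
  rw [hp, map_sum]
  exact Finset.sum_congr rfl fun a _ => map_smul _ _ _

lemma HP.smul {m n : ℕ} {P : (σ → ℂ) → ℂ} {Q : (σ → ℂ) → B} (hP : HP m P) (hQ : HP n Q) :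
    HP (m + n) fun z => P z • Q z := by
  obtain ⟨p, hp⟩ := hP
  obtain ⟨q, hq⟩ := hQ
  have h1 : ∀ z, P z • Q z = ∑ a ∈ S σ m, ∑ b ∈ S σ n, mon z (a + b) • (p a • q b) := by
    intro z
    rw [hp, hq, Finset.sum_smul_sum]
    refine Finset.sum_congr rfl fun a _ => Finset.sum_congr rfl fun b _ => ?_
    rw [mon_add, smul_eq_mul, smul_smul, smul_smul]
    congr 1
    ring
  simp only [h1]
  refine HP.sum _ fun a ha => HP.sum _ fun b hb => ?_
  refine ⟨fun c => if c = a + b then p a • q b else 0, fun z => ?_⟩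
  have hmem : a + b ∈ S σ (m + n) := by
    rw [mem_S] at ha hb ⊢
    rw [← ha, ← hb, ← Finset.sum_add_distrib]
    rfl
  rw [Finset.sum_eq_single_of_mem (a + b) hmem]
  · beta_reduce
    rw [if_pos rfl]
  · intro c _ hc
    beta_reduce
    rw [if_neg hc, smul_zero]

/-- the counting multi-index of a tuple -/
def cnt {n : ℕ} (r : Fin n → σ) : σ →₀ ℕ := ∑ i, Finsupp.single (r i) 1

lemma cnt_mem {n : ℕ} (r : Fin n → σ) : cnt r ∈ S σ n := by
  rw [mem_S]
  have h1 : ∀ j, cnt r j = ∑ i, (Finsupp.single (r i) 1 : σ →₀ ℕ) j := fun j => by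
    simp [cnt, Finsupp.finsetSum_apply]
  simp only [h1]
  rw [Finset.sum_comm]
  have h2 : ∀ i : Fin n, ∑ j, (Finsupp.single (r i) 1 : σ →₀ ℕ) j = 1 := by
    intro i
    rw [Finset.sum_eq_single (r i)]
    · simp
    · intro j _ hj
      exact Finsupp.single_eq_of_ne hj
    · simp
  simp [h2]

lemma mon_sum {R : Type*} [CommMonoid R] {ι : Type*} (s : Finset ι) (z : σ → R)
    (f : ι → σ →₀ ℕ) : mon z (∑ i ∈ s, f i) = ∏ i ∈ s, mon z (f i) := by
  classical
  induction s using Finset.induction_on with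
  | empty => simp
  | insert i s hi ih => rw [Finset.sum_insert hi, Finset.prod_insert hi, mon_add, ih]

lemma mon_single {R : Type*} [CommMonoid R] (z : σ → R) (j : σ) (n : ℕ) :
    mon z (Finsupp.single j n) = z j ^ n := by
  rw [mon, Finset.prod_eq_single j]
  · simp
  · intro i _ hi
    rw [Finsupp.single_eq_of_ne hi, pow_zero]
  · simp

lemma mon_cnt {n : ℕ} (r : Fin n → σ) (z : σ → ℂ) : mon z (cnt r) = ∏ i, z (r i) := by
  rw [cnt, mon_sum]
  exact Finset.prod_congr rfl fun i _ => by rw [mon_single, pow_one]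

lemma HP_of_multilinear {n : ℕ} (M : ContinuousMultilinearMap ℂ (fun _ : Fin n => (σ → ℂ)) B) :
    HP n fun z => M fun _ => z := by
  have h1 : ∀ z : σ → ℂ, M (fun _ => z) =
      ∑ r : Fin n → σ, mon z (cnt r) • M (fun i => Pi.single (r i) (1 : ℂ)) := by
    intro z
    have h2 : (fun _ : Fin n => z) = fun _ : Fin n => ∑ j, z j • (Pi.single j (1 : ℂ) : σ → ℂ) := by
      funext _
      ext i
      simp [Finset.sum_apply, Pi.single_apply]
    rw [h2, ContinuousMultilinearMap.map_sum]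
    refine Finset.sum_congr rfl fun r _ => ?_
    rw [ContinuousMultilinearMap.map_smul_univ, mon_cnt]
  simp only [h1]
  refine HP.sum _ fun r _ => ⟨fun c => if c = cnt r then M (fun i => Pi.single (r i) (1 : ℂ)) else 0,
    fun z => ?_⟩
  rw [Finset.sum_eq_single_of_mem (cnt r) (cnt_mem r)]
  · beta_reduce
    rw [if_pos rfl]
  · intro c _ hc
    beta_reduce
    rw [if_neg hc, smul_zero]

/-- the coefficients can be recovered from the values on a finite torus -/
lemma coeff_eq {n N : ℕ} (hN : n < N) {Q : (σ → ℂ) → B} {b : (σ →₀ ℕ) → B}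
    (hQ : ∀ z, Q z = ∑ a ∈ S σ n, mon z a • b a) {a : σ →₀ ℕ} (ha : a ∈ S σ n) :
    b a = (Fintype.card (σ → Fin N) : ℂ)⁻¹ • ∑ τ : σ → Fin N,
      (conj (mon (tp N τ) a) : ℂ) • Q (tp N τ) := by
  have hN0 : N ≠ 0 := by omega
  have hcard : (Fintype.card (σ → Fin N) : ℂ) ≠ 0 := by
    have : Nonempty (σ → Fin N) := ⟨fun _ => ⟨0, by omega⟩⟩
    exact_mod_cast Fintype.card_ne_zero
  rw [eq_inv_smul_iff₀ hcard]
  simp only [hQ, Finset.smul_sum]
  rw [Finset.sum_comm]
  have h1 : ∀ c ∈ S σ n, ∑ τ : σ → Fin N, ((conj (mon (tp N τ) a) : ℂ) • mon (tp N τ) c • b c) =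
      if a = c then (Fintype.card (σ → Fin N) : ℂ) • b c else 0 := by
    intro c hc
    simp only [smul_smul]
    rw [← Finset.sum_smul, orth hN0]
    by_cases hac : a = c
    · subst hac
      rw [if_pos fun i => Nat.ModEq.refl _, if_pos rfl]
    · rw [if_neg hac, if_neg, zero_smul]
      intro h
      exact hac (eq_of_modEq (fun i => lt_of_le_of_lt (le_of_mem_S ha i) hN)
        (fun i => lt_of_le_of_lt (le_of_mem_S hc i) hN) h)
  rw [Finset.sum_congr rfl h1, Finset.sum_ite_eq, if_pos ha]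

/-- polynomials with values in continuous linear maps: a dense set of vectors suffices -/
lemma HP_of_dense {H : Type*} [NormedAddCommGroup H] [NormedSpace ℂ H] {n : ℕ}
    {Q : (σ → ℂ) → H →L[ℂ] B} {s : Set H} (hs : DenseRange (Submodule.span ℂ s).subtype)
    (h : ∀ y ∈ s, HP n fun z => Q z y) : HP n Q := by
  set N := n + 1 with hN
  refine ⟨fun a => (Fintype.card (σ → Fin N) : ℂ)⁻¹ • ∑ τ : σ → Fin N,
      (conj (mon (tp N τ) a) : ℂ) • Q (tp N τ), fun z => ?_⟩
  have hpt : ∀ y ∈ s, Q z y = (∑ a ∈ S σ n, mon z a • ((Fintype.card (σ → Fin N) : ℂ)⁻¹ •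
      ∑ τ : σ → Fin N, (conj (mon (tp N τ) a) : ℂ) • Q (tp N τ))) y := by
    intro y hy
    obtain ⟨b, hb⟩ := h y hy
    beta_reduce at hb
    rw [hb, _root_.sum_apply]
    refine Finset.sum_congr rfl fun a ha => ?_
    rw [_root_.smul_apply, _root_.smul_apply, _root_.sum_apply, coeff_eq (N := N) (by omega) hb ha]
    rfl
  set R : H →L[ℂ] B := ∑ a ∈ S σ n, mon z a • ((Fintype.card (σ → Fin N) : ℂ)⁻¹ •
      ∑ τ : σ → Fin N, (conj (mon (tp N τ) a) : ℂ) • Q (tp N τ)) with hR
  have hspan : ∀ y ∈ Submodule.span ℂ s, Q z y = R y := by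
    intro y hy
    induction hy using Submodule.span_induction with
    | mem x hx => exact hpt x hx
    | zero => rw [map_zero, map_zero]
    | add x y _ _ hx hy => rw [map_add, map_add, hx, hy]
    | smul a x _ hx => rw [map_smul, map_smul, hx]
  ext y
  refine hs.induction_on (p := fun y => Q z y = R y) y ?_ ?_
  · exact isClosed_eq (ContinuousLinearMap.continuous _) (ContinuousLinearMap.continuous _)
  · intro x
    exact hspan x.1 x.2

/-- The derivatives of an analytic function along the lines through a point are homogeneous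
polynomials. -/
lemma HP_line {f : (σ → ℂ) → B} {U : Set (σ → ℂ)} (hU : IsOpen U) (hf : ContDiffOn ℂ ⊤ f U)
    {c : σ → ℂ} (hc : c ∈ U) (n : ℕ) :
    HP n fun z => iteratedDeriv n (fun ζ : ℂ => f (c + ζ • z)) 0 := by
  let f' : (σ → ℂ) → B := fun y => f (c + y)
  let U' : Set (σ → ℂ) := (fun y => c + y) ⁻¹' U
  have hU' : IsOpen U' := hU.preimage (by fun_prop)
  have hf' : ContDiffOn ℂ n f' U' := by
    have h1 : ContDiffOn ℂ n f U := hf.of_le (by exact_mod_cast le_top)
    exact h1.comp (by fun_prop) fun y hy => hy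
  have h0 : (0 : σ → ℂ) ∈ U' := by simpa [U'] using hc
  have key : ∀ z : σ → ℂ, iteratedDeriv n (fun ζ : ℂ => f (c + ζ • z)) 0 =
      iteratedFDeriv ℂ n f' 0 fun _ => z := by
    intro z
    let g : ℂ →L[ℂ] (σ → ℂ) := (1 : ℂ →L[ℂ] ℂ).smulRight z
    have hg : ∀ ζ, g ζ = ζ • z := fun ζ => by simp [g]
    have h1 : (fun ζ : ℂ => f (c + ζ • z)) = f' ∘ g := by
      funext ζ
      simp [f', hg]
    have hopen : IsOpen (g ⁻¹' U') := hU'.preimage g.continuous
    have hg0 : g 0 ∈ U' := by simpa using h0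
    have h2 := ContinuousLinearMap.iteratedFDerivWithin_comp_right g hf' hU'.uniqueDiffOn
      hopen.uniqueDiffOn hg0 (i := n) le_rfl
    rw [iteratedFDerivWithin_of_isOpen n hopen hg0, iteratedFDerivWithin_of_isOpen n hU' hg0] at h2
    rw [h1, iteratedDeriv_eq_iteratedFDeriv, h2, map_zero,
      ContinuousMultilinearMap.compContinuousLinearMap_apply]
    congr 1
    funext i
    simp [hg]
  simp only [key]
  exact HP_of_multilinear _

/-- holomorphic functions of several variables are smooth -/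
lemma contDiffOn_of_diff {g : ℕ} {f : (Fin g → ℂ) → ℂ} {U : Set (Fin g → ℂ)} (hU : IsOpen U)
    (hf : DifferentiableOn ℂ f U) : ContDiffOn ℂ ⊤ f U := by
  have ha : AnalyticOnNhd ℂ f U := by
    intro c hc
    obtain ⟨ε, hε, hsub⟩ := Metric.isOpen_iff.1 hU c hc
    refine analyticAt_of_differentiable g c (ε / 2) (by positivity) f fun z hz => ?_
    have hzU : z ∈ U := by
      apply hsub
      rw [mem_ball, dist_pi_lt_iff hε]
      intro i
      have := hz i
      rw [mem_closedBall] at this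
      linarith
    exact (hf z hzU).differentiableAt (hU.mem_nhds hzU)
  exact ha.contDiffOn hU.uniqueDiffOn

end Pool.Agent.Q93.MC
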