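import Pool.Agent.Results.MP_e3a8c8_an.ShimorinCertificates
import Pool.Agent.Q93.MC.HPoly

/-!
Feature maps of positive semidefinite kernels; domination.
-/

set_option autoImplicit false
set_option linter.unusedSectionVars false

open Finset Filter Topology Metric

open scoped ComplexConjugate ComplexOrder

noncomputable section

namespace Pool.Agent.Q93.MC

open Pool.Agent.Results.MP_e3a8c8_an.ShimorinCertificates

/-- Every positive semidefinite kernel has a feature map with dense span. -/
theorem feature {X : Type} (K : Matrix X X ℂ) (hK : K.PosSemidef) :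
    ∃ (H : Type) (_ : NormedAddCommGroup H) (_ : InnerProductSpace ℂ H) (_ : CompleteSpace H)
      (ψ : X → H), (∀ x y, inner ℂ (ψ x) (ψ y) = K x y) ∧
      (Submodule.span ℂ (Set.range ψ)).topologicalClosure = ⊤ := by
  let k : Kernel X := ⟨K, hK⟩
  let e : EuclideanSpace ℂ (Fin 1) := EuclideanSpace.single 0 1
  refine ⟨Space k 1, inferInstance, inferInstance, inferInstance,
    fun x => RKHS.kerFun (Space k 1) x e, fun x y => ?_, ?_⟩
  · rw [inner_kf]
    have : inner ℂ e e = 1 := by simp [e]
    rw [this, mul_one]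
  · rw [eq_top_iff, ← RKHS.kerFun_dense (H := Space k 1)]
    refine Submodule.topologicalClosure_mono (Submodule.span_le.2 ?_)
    rintro _ ⟨x, v, rfl⟩
    have hv : v = (v 0) • e := by
      ext i
      fin_cases i
      simp [e]
    rw [hv, map_smul]
    exact Submodule.smul_mem _ _ (Submodule.subset_span ⟨x, rfl⟩)

lemma denseRange_of_closure {H : Type*} [NormedAddCommGroup H] [NormedSpace ℂ H]
    {s : Submodule ℂ H} (h : s.topologicalClosure = ⊤) : DenseRange s.subtype := by
  have : Dense (s : Set H) := Submodule.dense_iff_topologicalClosure_eq_top.2 h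
  simpa [DenseRange] using this

/-- the norm of a finite combination of feature vectors -/
lemma norm_sq_comb {X H : Type*} [NormedAddCommGroup H] [InnerProductSpace ℂ H] (ψ : X → H)
    (F : Finset X) (c : X → ℂ) :
    ((‖∑ i ∈ F, c i • ψ i‖ ^ 2 : ℝ) : ℂ) =
      ∑ i ∈ F, ∑ j ∈ F, conj (c i) * inner ℂ (ψ i) (ψ j) * c j := by
  have h2 := inner_self_eq_norm_sq_to_K (𝕜 := ℂ) (∑ i ∈ F, c i • ψ i)
  push_cast
  rw [← Complex.coe_algebraMap, ← h2, sum_inner]
  refine Finset.sum_congr rfl fun i _ => ?_
  rw [inner_sum]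
  refine Finset.sum_congr rfl fun j _ => ?_
  rw [inner_smul_left, inner_smul_right]
  ring

/-- Domination of kernels gives a bounded operator between the feature spaces. -/
theorem exists_op {X H K : Type*} [NormedAddCommGroup H] [InnerProductSpace ℂ H]
    [NormedAddCommGroup K] [InnerProductSpace ℂ K] [CompleteSpace K] (ψ : X → H) (φ : X → K)
    (hd : (Submodule.span ℂ (Set.range ψ)).topologicalClosure = ⊤) {C : ℝ}
    (hdom : ∀ (F : Finset X) (c : X → ℂ), ‖∑ i ∈ F, c i • φ i‖ ≤ C * ‖∑ i ∈ F, c i • ψ i‖) :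
    ∃ A : H →L[ℂ] K, ∀ x, A (ψ x) = φ x := by
  let J : (X →₀ ℂ) →ₗ[ℂ] H := Finsupp.linearCombination ℂ ψ
  let J' : (X →₀ ℂ) →ₗ[ℂ] K := Finsupp.linearCombination ℂ φ
  have hdense : DenseRange J := by
    have h1 : (LinearMap.range J) = Submodule.span ℂ (Set.range ψ) :=
      Finsupp.range_linearCombination ℂ
    have h2 : Dense ((LinearMap.range J : Submodule ℂ H) : Set H) := by
      rw [h1]
      exact Submodule.dense_iff_topologicalClosure_eq_top.2 hd
    rw [DenseRange, ← LinearMap.coe_range]
    exact h2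
  have hbd : ∃ C : ℝ, ∀ x, ‖J' x‖ ≤ C * ‖J x‖ := ⟨C, fun x => hdom x.support x⟩
  refine ⟨J'.extendOfNorm J, fun x => ?_⟩
  have h3 := LinearMap.extendOfNorm_eq hdense hbd (Finsupp.single x 1)
  simpa [J, J'] using h3

end Pool.Agent.Q93.MC
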