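import Pool.Agent.Q93.MC.Limit

/-!
The main theorem on the domains of complete Pick pairs with a diagonal first kernel.
-/

set_option autoImplicit false
set_option linter.unusedSectionVars false

open Finset Filter Topology Metric

open scoped ComplexConjugate ComplexOrder ENNReal

noncomputable section

namespace Pool.Agent.Q93.MC

variable {g : ℕ}

/-- squares of the moduli -/
def sq (x : Fin g → ℂ) : Fin g → ℝ := fun j => ‖x j‖ ^ 2

lemma sq_nonneg' (x : Fin g → ℂ) (j : Fin g) : 0 ≤ sq x j := by unfold sq; positivity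

lemma mon_sq (x : Fin g → ℂ) (a : Fin g →₀ ℕ) : mon (sq x) a = (mon (fun i => ‖x i‖) a) ^ 2 := by
  simp only [mon, sq, ← Finset.prod_pow]
  exact Finset.prod_congr rfl fun j _ => by rw [← pow_mul, ← pow_mul, mul_comm]

/-- The bounded set of `ϑ`. -/
def Bd (ϑ : (Fin g →₀ ℕ) → ℝ) : Set (Fin g → ℂ) :=
  {x | BddAbove (Set.range fun a : Fin g →₀ ℕ => ϑ a * mon (sq x) a)}

/-- The sum of `ϑ` at `x`. -/
def tsm (ϑ : (Fin g →₀ ℕ) → ℝ) (x : Fin g → ℂ) : ℝ≥0∞ :=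
  ∑' a : {a : Fin g →₀ ℕ // a ≠ 0}, ENNReal.ofReal (ϑ a * mon (sq x) a)

/-- The set `Ω¹`. -/
def Om1 (ϑ : (Fin g →₀ ℕ) → ℝ) : Set (Fin g → ℂ) := {x | x ∈ interior (Bd ϑ) ∧ tsm ϑ x < 1}

section reinhardt

variable {ϑ : (Fin g →₀ ℕ) → ℝ} (hϑ : ∀ a, 0 ≤ ϑ a)

lemma sq_mono {x y : Fin g → ℂ} (h : ∀ j, ‖y j‖ ≤ ‖x j‖) (j : Fin g) : sq y j ≤ sq x j :=
  pow_le_pow_left₀ (norm_nonneg _) (h j) 2

include hϑ

lemma Bd_mono {x y : Fin g → ℂ} (hx : x ∈ Bd ϑ) (h : ∀ j, ‖y j‖ ≤ ‖x j‖) : y ∈ Bd ϑ := by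
  obtain ⟨C, hC⟩ := hx
  refine ⟨C, ?_⟩
  rintro _ ⟨a, rfl⟩
  exact (mul_le_mul_of_nonneg_left (mon_mono (sq_nonneg' y) (sq_mono h) a) (hϑ a)).trans
    (hC ⟨a, rfl⟩)

lemma intBd_mono {x y : Fin g → ℂ} (hx : x ∈ interior (Bd ϑ)) (h : ∀ j, ‖y j‖ ≤ ‖x j‖) :
    y ∈ interior (Bd ϑ) := by
  obtain ⟨ε, hε, hsub⟩ := Metric.mem_nhds_iff.1 (mem_interior_iff_mem_nhds.1 hx)
  rw [mem_interior_iff_mem_nhds, Metric.mem_nhds_iff]
  refine ⟨ε / 2, by positivity, fun y' hy' => ?_⟩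
  -- the enlarged point
  have hu : ∀ j, ∃ u : ℂ, ‖u‖ = 1 ∧ ‖x j + (ε / 2 : ℝ) * u‖ = ‖x j‖ + ε / 2 := by
    intro j
    rcases eq_or_ne (x j) 0 with h0 | h0
    · refine ⟨1, norm_one, ?_⟩
      rw [h0, norm_zero, zero_add, zero_add, mul_one, Complex.norm_real,
        Real.norm_of_nonneg (by positivity)]
    · have hn : ‖x j‖ ≠ 0 := norm_ne_zero_iff.2 h0
      refine ⟨x j / ‖x j‖, by rw [norm_div, Complex.norm_real, norm_norm, div_self hn], ?_⟩
      have h1 : x j + (ε / 2 : ℝ) * (x j / ‖x j‖) = ((1 + ε / 2 / ‖x j‖ : ℝ) : ℂ) * x j := by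
        push_cast
        ring
      rw [h1, norm_mul, Complex.norm_real, Real.norm_of_nonneg (by positivity)]
      field_simp
  choose u hu1 hu2 using hu
  have hx' : (fun j => x j + (ε / 2 : ℝ) * u j) ∈ Bd ϑ := by
    apply hsub
    rw [mem_ball, dist_eq_norm]
    refine lt_of_le_of_lt ((pi_norm_le_iff_of_nonneg (by positivity)).2 fun j => ?_)
      (show ε / 2 < ε by linarith)
    rw [Pi.sub_apply, add_sub_cancel_left, norm_mul, hu1, mul_one, Complex.norm_real,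
      Real.norm_of_nonneg (by positivity)]
  refine Bd_mono hϑ hx' fun j => ?_
  rw [hu2]
  rw [mem_ball, dist_eq_norm] at hy'
  have h1 : ‖y' j - y j‖ ≤ ‖y' - y‖ := norm_le_pi_norm (y' - y) j
  have h2 : ‖y' j‖ ≤ ‖y' j - y j‖ + ‖y j‖ := by
    have := norm_add_le (y' j - y j) (y j)
    rwa [sub_add_cancel] at this
  linarith [h j]

lemma Om1_mono {x y : Fin g → ℂ} (hx : x ∈ Om1 ϑ) (h : ∀ j, ‖y j‖ ≤ ‖x j‖) : y ∈ Om1 ϑ := by
  refine ⟨intBd_mono hϑ hx.1 h, lt_of_le_of_lt (ENNReal.tsum_le_tsum fun a => ?_) hx.2⟩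
  exact ENNReal.ofReal_le_ofReal
    (mul_le_mul_of_nonneg_left (mon_mono (sq_nonneg' y) (sq_mono h) a) (hϑ a))

/-- Points inside a polydisc on which the partial sums are at most one. -/
lemma mem_Om1 {x y : Fin g → ℂ} (hx : ∀ m, ∑ a ∈ Iic m, ϑ a * mon (sq x) a ≤ 1)
    (h : ∀ j, ‖y j‖ < ‖x j‖) : y ∈ Om1 ϑ := by
  have hB : x ∈ Bd ϑ := by
    refine ⟨1, ?_⟩
    rintro _ ⟨a, rfl⟩
    refine le_trans ?_ (hx a)
    exact Finset.single_le_sum (f := fun a => ϑ a * mon (sq x) a)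
      (fun a _ => mul_nonneg (hϑ a) (mon_nonneg (sq_nonneg' x) a)) (mem_Iic.2 le_rfl)
  refine ⟨?_, ?_⟩
  · rw [mem_interior_iff_mem_nhds]
    have h1 : ∀ᶠ y' in 𝓝 y, ∀ j, ‖y' j‖ < ‖x j‖ :=
      Filter.eventually_all.2 fun j =>
        (((continuous_apply j).norm).tendsto y).eventually_lt_const (h j)
    filter_upwards [h1] with y' hy'
    exact Bd_mono hϑ hB fun j => (hy' j).le
  · -- the factor
    obtain ⟨r, hr0, hr1, hr⟩ : ∃ r : ℝ, 0 < r ∧ r < 1 ∧ ∀ j, ‖y j‖ ≤ r * ‖x j‖ := by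
      have h1 : ∀ᶠ r in 𝓝[<] (1 : ℝ), ∀ j, ‖y j‖ < r * ‖x j‖ :=
        Filter.eventually_all.2 fun j => by
          have h2 : Tendsto (fun r : ℝ => r * ‖x j‖) (𝓝[<] 1) (𝓝 (1 * ‖x j‖)) :=
            ((continuous_id.mul continuous_const).tendsto (1 : ℝ)).mono_left nhdsWithin_le_nhds
          rw [one_mul] at h2
          exact h2.eventually_const_lt (h j)
      have h2 : ∀ᶠ r in 𝓝[<] (1 : ℝ), 0 < r :=
        nhdsWithin_le_nhds (lt_mem_nhds one_pos)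
      obtain ⟨r, hr⟩ := (h1.and (h2.and (eventually_mem_nhdsWithin))).exists
      exact ⟨r, hr.2.1, hr.2.2, fun j => (hr.1 j).le⟩
    have hterm : ∀ a : {a : Fin g →₀ ℕ // a ≠ 0}, ENNReal.ofReal (ϑ a * mon (sq y) a) ≤
        ENNReal.ofReal (r ^ 2) * ENNReal.ofReal (ϑ a * mon (sq x) a) := by
      intro a
      rw [← ENNReal.ofReal_mul (by positivity)]
      refine ENNReal.ofReal_le_ofReal ?_
      have h1 : mon (sq y) a.1 ≤ mon (fun j => r ^ 2 * sq x j) a.1 := by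
        refine mon_mono (sq_nonneg' y) (fun j => ?_) a.1
        have := pow_le_pow_left₀ (norm_nonneg _) (hr j) 2
        rwa [mul_pow] at this
      rw [mon_smul] at h1
      have h2 : (r ^ 2) ^ (∑ j, a.1 j) ≤ r ^ 2 := by
        have h3 := sum_deg_pos a.2
        calc (r ^ 2) ^ (∑ j, a.1 j) ≤ (r ^ 2) ^ 1 :=
              pow_le_pow_of_le_one (by positivity) (by nlinarith) h3
          _ = r ^ 2 := pow_one _
      have h4 : mon (sq y) a.1 ≤ r ^ 2 * mon (sq x) a.1 :=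
        h1.trans (mul_le_mul_of_nonneg_right h2 (mon_nonneg (sq_nonneg' x) _))
      calc ϑ a * mon (sq y) a ≤ ϑ a * (r ^ 2 * mon (sq x) a) :=
            mul_le_mul_of_nonneg_left h4 (hϑ a)
        _ = r ^ 2 * (ϑ a * mon (sq x) a) := by ring
    have hsum : tsm ϑ x ≤ 1 := by
      rw [tsm, ENNReal.tsum_eq_iSup_sum]
      refine iSup_le fun F => ?_
      rw [← ENNReal.ofReal_sum_of_nonneg (f := fun a : {a : Fin g →₀ ℕ // a ≠ 0} =>
        ϑ a * mon (sq x) a) fun a _ =>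
        mul_nonneg (hϑ a) (mon_nonneg (sq_nonneg' x) a.1), ← ENNReal.ofReal_one]
      refine ENNReal.ofReal_le_ofReal ?_
      let F' : Finset (Fin g →₀ ℕ) := F.map (Function.Embedding.subtype _)
      refine le_trans ?_ (hx (F'.sup id))
      have h1 : ∑ a ∈ F, ϑ a * mon (sq x) a = ∑ a ∈ F', ϑ a * mon (sq x) a := by
        rw [Finset.sum_map]
        rfl
      rw [h1]
      refine Finset.sum_le_sum_of_subset_of_nonneg (fun a ha => ?_)
        fun a _ _ => mul_nonneg (hϑ a) (mon_nonneg (sq_nonneg' x) a)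
      rw [mem_Iic]
      exact Finset.le_sup (f := id) ha
    calc tsm ϑ y ≤ ∑' a : {a : Fin g →₀ ℕ // a ≠ 0},
          ENNReal.ofReal (r ^ 2) * ENNReal.ofReal (ϑ a * mon (sq x) a) :=
          ENNReal.tsum_le_tsum hterm
      _ = ENNReal.ofReal (r ^ 2) * tsm ϑ x := ENNReal.tsum_mul_left
      _ ≤ ENNReal.ofReal (r ^ 2) * 1 := by gcongr
      _ < 1 := by
          rw [mul_one, ← ENNReal.ofReal_one]
          exact (ENNReal.ofReal_lt_ofReal_iff one_pos).2 (by nlinarith)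

end reinhardt

/-- The geometric part of the argument. -/
theorem not_subset {ϑ : (Fin g →₀ ℕ) → ℝ} (hϑ : ∀ a, 0 ≤ ϑ a) (j₀ : Fin g)
    (hϑ1 : 0 < ϑ (Finsupp.single j₀ 1)) {Ω : Set (Fin g → ℂ)} (hΩ : IsOpen Ω)
    (h0 : (0 : Fin g → ℂ) ∈ Ω)
    (hKT : ∀ x : Fin g → ℂ, Pd x ⊆ Ω → ∀ m, ∑ a ∈ Iic m, ϑ a * mon (sq x) a ≤ 1) :
    ¬ closure (Om1 ϑ) ⊆ Ω := by
  intro hsub
  -- the origin
  have h0mem : (0 : Fin g → ℂ) ∈ Om1 ϑ := by
    obtain ⟨δ, hδ, hball⟩ := Metric.isOpen_iff.1 hΩ 0 h0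
    refine mem_Om1 hϑ (x := fun _ => ((δ / 2 : ℝ) : ℂ)) (hKT _ fun z hz => hball ?_) fun j => ?_
    · rw [mem_ball_zero_iff]
      refine lt_of_le_of_lt ((pi_norm_le_iff_of_nonneg (by positivity)).2 hz) ?_
      rw [Complex.norm_real, Real.norm_of_nonneg (by positivity)]
      linarith
    · rw [Pi.zero_apply, norm_zero, Complex.norm_real, Real.norm_of_nonneg (by positivity)]
      positivity
  let pt : ℂ → (Fin g → ℂ) := fun ζ => Pi.single j₀ ζ
  have hptn : ∀ ζ j, ‖pt ζ j‖ = if j = j₀ then ‖ζ‖ else 0 := by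
    intro ζ j
    by_cases hj : j = j₀
    · subst hj; simp [pt]
    · simp [pt, hj]
  have hpt_le : ∀ ζ ξ : ℂ, ‖ζ‖ ≤ ‖ξ‖ → ∀ j, ‖pt ζ j‖ ≤ ‖pt ξ j‖ := by
    intro ζ ξ h j
    rw [hptn, hptn]
    split_ifs
    · exact h
    · exact le_rfl
  let T : Set ℝ := {t | 0 ≤ t ∧ pt t ∈ Om1 ϑ}
  have hT0 : (0 : ℝ) ∈ T := by
    refine ⟨le_rfl, ?_⟩
    have : pt ((0 : ℝ) : ℂ) = 0 := by simp [pt]
    rw [this]
    exact h0mem
  have hTb : BddAbove T := by
    refine ⟨1 + 1 / ϑ (Finsupp.single j₀ 1), ?_⟩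
    rintro t ⟨ht0, ht⟩
    have hne : (Finsupp.single j₀ 1 : Fin g →₀ ℕ) ≠ 0 := by
      rw [Ne, Finsupp.single_eq_zero]
      exact one_ne_zero
    have h1 : ENNReal.ofReal (ϑ (Finsupp.single j₀ 1) * mon (sq (pt t)) (Finsupp.single j₀ 1)) < 1 :=
      lt_of_le_of_lt (ENNReal.le_tsum (f := fun a : {a : Fin g →₀ ℕ // a ≠ 0} =>
        ENNReal.ofReal (ϑ a * mon (sq (pt t)) a)) ⟨_, hne⟩) ht.2
    rw [mon_single, pow_one, sq, hptn, if_pos rfl, Complex.norm_real, Real.norm_of_nonneg ht0,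
      ← ENNReal.ofReal_one, ENNReal.ofReal_lt_ofReal_iff one_pos] at h1
    have h2 : t ^ 2 < 1 / ϑ (Finsupp.single j₀ 1) := by
      rw [lt_div_iff₀ hϑ1, mul_comm]
      exact h1
    nlinarith
  set T' := sSup T with hT'
  have hT'0 : 0 ≤ T' := le_csSup hTb hT0
  -- the closed disc
  have hdisc : ∀ ζ : ℂ, ‖ζ‖ ≤ T' → pt ζ ∈ Ω := by
    intro ζ hζ
    apply hsub
    rcases eq_or_ne ζ 0 with rfl | hζ0
    · refine subset_closure ?_
      have : pt 0 = 0 := by simp [pt]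
      rw [this]
      exact h0mem
    have hζpos : 0 < ‖ζ‖ := norm_pos_iff.2 hζ0
    have hc : Tendsto (fun r : ℝ => pt ((r : ℂ) * ζ)) (𝓝[<] 1) (𝓝 (pt ζ)) := by
      have h1 : Continuous fun r : ℝ => pt ((r : ℂ) * ζ) := by
        refine continuous_pi fun j => ?_
        by_cases hj : j = j₀
        · subst hj
          simp only [pt, Pi.single_eq_same]
          fun_prop
        · simp only [pt, Pi.single_eq_of_ne hj]
          exact continuous_const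
      have h2 := (h1.tendsto 1).mono_left (nhdsWithin_le_nhds (s := Set.Iio 1))
      simpa using h2
    refine mem_closure_of_tendsto hc ?_
    have h2 : ∀ᶠ r in 𝓝[<] (1 : ℝ), 0 < r := nhdsWithin_le_nhds (lt_mem_nhds one_pos)
    filter_upwards [h2, eventually_mem_nhdsWithin] with r hr0 hr1
    have hr1' : r < 1 := hr1
    have h3 : ‖(r : ℂ) * ζ‖ < T' := by
      rw [norm_mul, Complex.norm_real, Real.norm_of_nonneg hr0.le]
      calc r * ‖ζ‖ < 1 * ‖ζ‖ := mul_lt_mul_of_pos_right hr1' hζpos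
        _ ≤ T' := by rw [one_mul]; exact hζ
    obtain ⟨t, ht, htlt⟩ := exists_lt_of_lt_csSup ⟨0, hT0⟩ h3
    refine Om1_mono hϑ ht.2 (hpt_le _ _ ?_)
    rw [Complex.norm_real, Real.norm_of_nonneg ht.1]
    exact htlt.le
  -- enlarge
  have hPd : Pd (pt T') ⊆ Ω := by
    intro z hz
    have h1 : z = pt (z j₀) := by
      funext j
      by_cases hj : j = j₀
      · subst hj; simp [pt]
      · have h2 := hz j
        rw [hptn, if_neg hj] at h2
        have h3 : z j = 0 := norm_le_zero_iff.1 h2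
        rw [h3]
        simp [pt, hj]
    rw [h1]
    refine hdisc _ ?_
    have h2 := hz j₀
    rwa [hptn, if_pos rfl, Complex.norm_real, Real.norm_of_nonneg hT'0] at h2
  obtain ⟨R, δ, hR, hδ, henl⟩ := enlarge hΩ hPd
  let x : Fin g → ℂ := fun j => if j = j₀ then ((T' + δ / 2 : ℝ) : ℂ) else ((δ / 2 : ℝ) : ℂ)
  have hxn : ∀ j, ‖x j‖ = if j = j₀ then T' + δ / 2 else δ / 2 := by
    intro j
    by_cases hj : j = j₀
    · simp only [x, if_pos hj, Complex.norm_real]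
      rw [Real.norm_of_nonneg (by positivity)]
    · simp only [x, if_neg hj, Complex.norm_real]
      rw [Real.norm_of_nonneg (by positivity)]
  have hxΩ : Pd x ⊆ Ω := by
    intro z hz
    set z' : Fin g → ℂ := pt (((T' / (T' + δ / 2) : ℝ) : ℂ) * z j₀) with hz'
    have hz0 : ‖z j₀‖ ≤ T' + δ / 2 := by
      have := hz j₀
      rwa [hxn, if_pos rfl] at this
    have hden : 0 < T' + δ / 2 := by positivity
    have h1 : ∀ j, ‖z' j‖ ≤ R * ‖pt T' j‖ := by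
      intro j
      rw [hz', hptn, hptn]
      split_ifs with hj
      · rw [norm_mul, Complex.norm_real, Real.norm_of_nonneg (by positivity), Complex.norm_real,
          Real.norm_of_nonneg hT'0]
        calc T' / (T' + δ / 2) * ‖z j₀‖ ≤ T' / (T' + δ / 2) * (T' + δ / 2) :=
              mul_le_mul_of_nonneg_left hz0 (by positivity)
          _ = T' := div_mul_cancel₀ _ hden.ne'
          _ ≤ R * T' := le_mul_of_one_le_left hT'0 hR.le
      · rw [mul_zero]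
    have h2 : ‖z - z'‖ < δ := by
      refine lt_of_le_of_lt ((pi_norm_le_iff_of_nonneg (by positivity)).2 fun j => ?_)
        (show δ / 2 < δ by linarith)
      rw [Pi.sub_apply]
      by_cases hj : j = j₀
      · subst hj
        have h3 : z' j = ((T' / (T' + δ / 2) : ℝ) : ℂ) * z j := by
          rw [hz']; simp [pt]
        have h4 : z j - z' j = ((δ / 2 / (T' + δ / 2) : ℝ) : ℂ) * z j := by
          rw [h3]
          have h5 : (δ / 2 / (T' + δ / 2) : ℝ) = 1 - T' / (T' + δ / 2) := by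
            field_simp
            ring
          rw [h5]
          push_cast
          ring
        rw [h4, norm_mul, Complex.norm_real, Real.norm_of_nonneg (by positivity)]
        calc δ / 2 / (T' + δ / 2) * ‖z j‖ ≤ δ / 2 / (T' + δ / 2) * (T' + δ / 2) :=
              mul_le_mul_of_nonneg_left hz0 (by positivity)
          _ = δ / 2 := div_mul_cancel₀ _ hden.ne'
      · have h3 : z' j = 0 := by rw [hz']; simp [pt, hj]
        rw [h3, sub_zero]
        have h4 := hz j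
        rwa [hxn, if_neg hj] at h4
    have h3 := henl z' (z - z') h1 h2
    rwa [sub_add_cancel] at h3
  -- the contradiction
  have hnew : T' + δ / 4 ∈ T := by
    refine ⟨by positivity, mem_Om1 hϑ (hKT x hxΩ) fun j => ?_⟩
    rw [hptn, hxn]
    split_ifs
    · rw [Complex.norm_real, Real.norm_of_nonneg (by positivity)]
      linarith
    · positivity
  have := le_csSup hTb hnew
  linarith

/-- The sums of the master certificate on polydiscs in the domain of a complete Pick pair. -/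
theorem sum_le_one {Ω : Set (Fin g → ℂ)} (hΩ : IsOpen Ω) (hconn : IsPreconnected Ω)
    {k ℓ : (Fin g → ℂ) → (Fin g → ℂ) → ℂ} (hk : IsKer Ω k) (hℓ : IsKer Ω ℓ)
    (hkc : ContinuousOn (fun q : (Fin g → ℂ) × (Fin g → ℂ) => k q.1 q.2) (Ω ×ˢ Ω))
    (hcont : ContinuousOn (fun q : (Fin g → ℂ) × (Fin g → ℂ) => ℓ q.1 q.2) (Ω ×ˢ Ω))
    (hhol : ∀ w ∈ Ω, DifferentiableOn ℂ (fun z => ℓ z w) Ω) (hcp : IsCP k ℓ Ω)
    (h0 : (0 : Fin g → ℂ) ∈ Ω) {z₀ : Fin g → ℂ} (hz₀ : z₀ ∈ Ω) (hℓ0 : ℓ z₀ z₀ ≠ 0)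
    {ka : (Fin g →₀ ℕ) → ℝ} {ε : ℝ} (hε : 0 < ε) (hka0 : ka 0 = 1) (hkn : ∀ a, 0 ≤ ka a)
    (hka : ∀ z w : Fin g → ℂ, (∀ j, ‖z j‖ < ε) → (∀ j, ‖w j‖ < ε) →
      HasSum (fun a => (ka a : ℂ) * mon z a * conj (mon w a)) (k z w))
    {ϑ : (Fin g →₀ ℕ) → ℝ} (hm : IsMaster ka ϑ) {x : Fin g → ℂ} (hx : Pd x ⊆ Ω)
    (m : Fin g →₀ ℕ) : ∑ a ∈ Iic m, ϑ a * mon (sq x) a ≤ 1 := by
  classical
  obtain ⟨G, s, ρ, hs, hsρ, hsε, hG00, hGn, hGb, hGx, hGp⟩ :=
    limit_data hΩ hconn hk hℓ hkc hcont hhol hcp h0 hz₀ hℓ0 hε hka0 hka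
  refine greedy (q := fun a => (G a a).re) hka0 hkn hm (by rw [hG00]; rfl) hGn
    (fun b hb => coeff_ineq hs hsρ hGb hkn
      (fun z w hz hw => hka z w (fun j => lt_of_le_of_lt (hz j) hsε)
        fun j => lt_of_le_of_lt (hw j) hsε) hGp hb)
    (sq_nonneg' x) m ?_
  have h1 := hGx x hx (∑ j, m j + 1)
  refine le_trans ?_ h1
  have hdisj : ∀ n ∈ range (∑ j, m j + 1), ∀ n' ∈ range (∑ j, m j + 1), n ≠ n' →
      Disjoint (S (Fin g) n) (S (Fin g) n') := by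
    intro n _ n' _ hne
    rw [Finset.disjoint_left]
    intro a ha ha'
    exact hne ((mem_S.1 ha).symm.trans (mem_S.1 ha'))
  rw [← Finset.sum_biUnion hdisj]
  have hterm : ∀ a : Fin g →₀ ℕ, (G a a).re * mon (sq x) a =
      (mon (fun i => ‖x i‖) a) ^ 2 * (G a a).re := fun a => by rw [mon_sq, mul_comm]
  simp only [hterm]
  refine Finset.sum_le_sum_of_subset_of_nonneg (fun a ha => ?_)
    fun a _ _ => mul_nonneg (_root_.sq_nonneg _) (hGn a)
  rw [mem_Iic] at ha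
  rw [Finset.mem_biUnion]
  refine ⟨∑ j, a j, ?_, mem_S.2 rfl⟩
  rw [mem_range]
  have : ∑ j, a j ≤ ∑ j, m j := Finset.sum_le_sum fun j _ => ha j
  omega

end Pool.Agent.Q93.MC
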