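import Mathlib

/-!
The greedy comparison for master certificates.
-/

set_option autoImplicit false
set_option linter.unusedSectionVars false

open Finset

noncomputable section

namespace Pool.Agent.Q93.MC

variable {σ : Type} [Fintype σ] [DecidableEq σ]

/-- monomials -/
def mon {R : Type*} [CommMonoid R] (t : σ → R) (a : σ →₀ ℕ) : R := ∏ j, t j ^ a j

lemma mon_add {R : Type*} [CommMonoid R] (t : σ → R) (a b : σ →₀ ℕ) :
    mon t (a + b) = mon t a * mon t b := by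
  simp [mon, pow_add, Finset.prod_mul_distrib]

@[simp] lemma mon_zero {R : Type*} [CommMonoid R] (t : σ → R) : mon t 0 = 1 := by simp [mon]

lemma mon_nonneg {t : σ → ℝ} (ht : ∀ j, 0 ≤ t j) (a : σ →₀ ℕ) : 0 ≤ mon t a :=
  Finset.prod_nonneg fun j _ => pow_nonneg (ht j) _

lemma mon_smul {R : Type*} [CommMonoid R] (c : R) (t : σ → R) (a : σ →₀ ℕ) :
    mon (fun j => c * t j) a = c ^ (∑ j, a j) * mon t a := by
  simp [mon, mul_pow, Finset.prod_mul_distrib, Finset.prod_pow_eq_pow_sum]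

/-- `ϑ` is the master certificate of the coefficients `k`. -/
def IsMaster (k ϑ : (σ →₀ ℕ) → ℝ) : Prop :=
  ϑ 0 = 0 ∧ (∀ j, ϑ (Finsupp.single j 1) = k (Finsupp.single j 1)) ∧
    ∀ b : σ →₀ ℕ, 2 ≤ ∑ j, b j →
      ϑ b = max 0 (k b - ∑ p ∈ (HasAntidiagonal.antidiagonal b).filter (fun p => p.1 ≠ 0 ∧ p.2 ≠ 0),
        ϑ p.1 * k p.2)

lemma sum_deg_pos {b : σ →₀ ℕ} (hb : b ≠ 0) : 1 ≤ ∑ j, b j := by
  by_contra h
  apply hb
  ext j
  have h1 : b j ≤ ∑ j, b j := Finset.single_le_sum (f := fun j => b j) (fun _ _ => Nat.zero_le _) (mem_univ j)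
  simp only [Finsupp.coe_zero, Pi.zero_apply]
  omega

lemma deg_one {b : σ →₀ ℕ} (hb : ∑ j, b j = 1) : ∃ j, b = Finsupp.single j 1 := by
  have h1 : b ≠ 0 := by
    rintro rfl
    simp at hb
  obtain ⟨j, hj⟩ : ∃ j, b j ≠ 0 := by
    by_contra h
    push Not at h
    exact h1 (Finsupp.ext h)
  refine ⟨j, Finsupp.ext fun i => ?_⟩
  have h2 : ∑ i, b i = b j + ∑ i ∈ univ.erase j, b i := (Finset.add_sum_erase _ _ (mem_univ j)).symm
  by_cases hij : i = j
  · subst hij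
    rw [Finsupp.single_eq_same]
    omega
  · rw [Finsupp.single_eq_of_ne hij]
    have h3 : b i ≤ ∑ i ∈ univ.erase j, b i :=
      Finset.single_le_sum (f := fun i => b i) (fun _ _ => Nat.zero_le _)
        (mem_erase.2 ⟨hij, mem_univ i⟩)
    omega

/-- the full convolution, split into end terms and middle terms -/
lemma conv_split {k ϑ : (σ →₀ ℕ) → ℝ} {b : σ →₀ ℕ} (hb : b ≠ 0) :
    ∑ p ∈ HasAntidiagonal.antidiagonal b, ϑ p.1 * k p.2 = ϑ b * k 0 + ϑ 0 * k b +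
      ∑ p ∈ (HasAntidiagonal.antidiagonal b).filter (fun p => p.1 ≠ 0 ∧ p.2 ≠ 0), ϑ p.1 * k p.2 := by
  rw [← Finset.sum_filter_add_sum_filter_not (HasAntidiagonal.antidiagonal b) (fun p => p.1 ≠ 0 ∧ p.2 ≠ 0),
    add_comm]
  congr 1
  have h1 : (HasAntidiagonal.antidiagonal b).filter (fun p => ¬ (p.1 ≠ 0 ∧ p.2 ≠ 0)) = {(b, 0), (0, b)} := by
    ext ⟨p, q⟩
    simp only [mem_filter, HasAntidiagonal.mem_antidiagonal, mem_insert, mem_singleton, Prod.mk.injEq]
    constructor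
    · rintro ⟨h1, h2⟩
      by_cases hp : p = 0
      · right
        subst hp
        exact ⟨rfl, by simpa using h1⟩
      · left
        have hq : q = 0 := by
          by_contra hq
          exact h2 ⟨hp, hq⟩
        subst hq
        exact ⟨by simpa using h1, rfl⟩
    · rintro (⟨rfl, rfl⟩ | ⟨rfl, rfl⟩)
      · simp
      · simp
  rw [h1, Finset.sum_pair]
  intro h
  exact hb (congrArg Prod.fst h)

lemma filter_deg_one (b : σ →₀ ℕ) (hb : ∑ j, b j = 1) :
    (HasAntidiagonal.antidiagonal b).filter (fun p => p.1 ≠ 0 ∧ p.2 ≠ 0) = ∅ := by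
  rw [Finset.filter_eq_empty_iff]
  rintro ⟨p, q⟩ hpq ⟨h1, h2⟩
  rw [HasAntidiagonal.mem_antidiagonal] at hpq
  simp only at hpq h1 h2
  have h3 := sum_deg_pos h1
  have h4 := sum_deg_pos h2
  have h5 : ∑ j, b j = ∑ j, p j + ∑ j, q j := by
    rw [← hpq, ← Finset.sum_add_distrib]
    rfl
  omega

/-- properties of the master certificate: nonnegative, certificate inequality, tightness -/
lemma IsMaster.props {k ϑ : (σ →₀ ℕ) → ℝ} (hk0 : k 0 = 1) (hk : ∀ a, 0 ≤ k a) (h : IsMaster k ϑ) :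
    (∀ b, 0 ≤ ϑ b) ∧ (∀ b, b ≠ 0 → k b ≤ ∑ p ∈ HasAntidiagonal.antidiagonal b, ϑ p.1 * k p.2) ∧
      ∀ b, b ≠ 0 → 0 < ϑ b → ∑ p ∈ HasAntidiagonal.antidiagonal b, ϑ p.1 * k p.2 = k b := by
  obtain ⟨h0, h1, h2⟩ := h
  have key : ∀ b : σ →₀ ℕ, b ≠ 0 → 0 ≤ ϑ b ∧ k b ≤ ∑ p ∈ HasAntidiagonal.antidiagonal b, ϑ p.1 * k p.2 ∧
      (0 < ϑ b → ∑ p ∈ HasAntidiagonal.antidiagonal b, ϑ p.1 * k p.2 = k b) := by
    intro b hb
    rw [conv_split hb, h0, hk0, zero_mul, add_zero, mul_one]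
    rcases (sum_deg_pos hb).eq_or_lt with hd | hd
    · rw [filter_deg_one b hd.symm, Finset.sum_empty, add_zero]
      obtain ⟨j, rfl⟩ := deg_one hd.symm
      rw [h1]
      exact ⟨hk _, le_rfl, fun _ => rfl⟩
    · have h3 := h2 b hd
      set S := ∑ p ∈ (HasAntidiagonal.antidiagonal b).filter (fun p => p.1 ≠ 0 ∧ p.2 ≠ 0), ϑ p.1 * k p.2
      rcases le_total 0 (k b - S) with h4 | h4
      · rw [max_eq_right h4] at h3
        rw [h3]
        exact ⟨h4, by linarith, fun _ => by ring⟩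
      · rw [max_eq_left h4] at h3
        rw [h3]
        exact ⟨le_rfl, by linarith, fun h => absurd h (lt_irrefl _)⟩
  refine ⟨fun b => ?_, fun b hb => (key b hb).2.1, fun b hb => (key b hb).2.2⟩
  by_cases hb : b = 0
  · rw [hb, h0]
  · exact (key b hb).1

open MvPowerSeries in
/-- The formal quotient series has nonnegative coefficients. -/
lemma exists_D {k ϑ q : (σ →₀ ℕ) → ℝ} (hk0 : k 0 = 1) (hk : ∀ a, 0 ≤ k a) (h : IsMaster k ϑ)
    (hq0 : q 0 = 0) (hq : ∀ a, 0 ≤ q a)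
    (hc : ∀ b, b ≠ 0 → k b ≤ ∑ p ∈ HasAntidiagonal.antidiagonal b, q p.1 * k p.2) :
    ∃ D : (σ →₀ ℕ) → ℝ, (∀ b, 0 ≤ D b) ∧
      ∀ b, D b = q b - ϑ b + ∑ p ∈ HasAntidiagonal.antidiagonal b, ϑ p.1 * D p.2 := by
  obtain ⟨hθ, hθc, hθt⟩ := h.props hk0 hk
  let A : MvPowerSeries σ ℝ := ϑ
  let B : MvPowerSeries σ ℝ := q
  let K : MvPowerSeries σ ℝ := k
  have hA : ∀ b, coeff b A = ϑ b := fun b => rfl
  have hB : ∀ b, coeff b B = q b := fun b => rfl
  have hK : ∀ b, coeff b K = k b := fun b => rfl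
  have hA0 : constantCoeff (1 - A) ≠ 0 := by
    rw [map_sub, map_one, ← coeff_zero_eq_constantCoeff_apply, hA, h.1]
    norm_num
  let D : MvPowerSeries σ ℝ := 1 - (1 - B) * (1 - A)⁻¹
  have hinv : (1 - A)⁻¹ * (1 - A) = 1 := MvPowerSeries.inv_mul_cancel _ hA0
  have hD1 : (1 - D) * (1 - A) = 1 - B := by
    have : 1 - D = (1 - B) * (1 - A)⁻¹ := by simp only [D]; ring
    rw [this, mul_assoc, hinv, mul_one]
  have hD2 : D = B - A + A * D := by linear_combination -hD1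
  -- the series `ε = 1 - (1 - A) K`, `δ = 1 - (1 - B) K`
  let ε : MvPowerSeries σ ℝ := 1 - (1 - A) * K
  let δ : MvPowerSeries σ ℝ := 1 - (1 - B) * K
  have hD3 : D = δ - ε + ε * D := by
    have h1 : (1 - D) * (1 - ε) = 1 - δ := by
      have h2 : 1 - ε = (1 - A) * K := by simp only [ε]; ring
      have h3 : 1 - δ = (1 - B) * K := by simp only [δ]; ring
      rw [h2, h3, ← mul_assoc, hD1]
    linear_combination -h1
  have hε : ∀ b, b ≠ 0 → coeff b ε = ∑ p ∈ HasAntidiagonal.antidiagonal b, ϑ p.1 * k p.2 - k b := by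
    intro b hb
    have : ε = 1 - K + A * K := by simp only [ε]; ring
    rw [this, map_add, map_sub, coeff_one, if_neg hb, coeff_mul, hK]
    simp only [hA, hK]
    ring
  have hδ : ∀ b, b ≠ 0 → coeff b δ = ∑ p ∈ HasAntidiagonal.antidiagonal b, q p.1 * k p.2 - k b := by
    intro b hb
    have : δ = 1 - K + B * K := by simp only [δ]; ring
    rw [this, map_add, map_sub, coeff_one, if_neg hb, coeff_mul, hK]
    simp only [hB, hK]
    ring
  have hε0 : coeff (0 : σ →₀ ℕ) ε = 0 := by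
    have : ε = 1 - K + A * K := by simp only [ε]; ring
    rw [this, map_add, map_sub, coeff_one, if_pos rfl, coeff_mul, hK, hk0]
    simp [hA, h.1]
  have hD0 : coeff (0 : σ →₀ ℕ) D = 0 := by
    rw [hD2, map_add, map_sub, coeff_mul, hA, hB, hq0, h.1]
    simp [hA, h.1]
  have hrec2 : ∀ b, coeff b D = q b - ϑ b + ∑ p ∈ HasAntidiagonal.antidiagonal b, ϑ p.1 * coeff p.2 D := by
    intro b
    conv_lhs => rw [hD2]
    rw [map_add, map_sub, coeff_mul]
    rfl
  have hrec3 : ∀ b, coeff b D = coeff b δ - coeff b ε +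
      ∑ p ∈ HasAntidiagonal.antidiagonal b, coeff p.1 ε * coeff p.2 D := by
    intro b
    conv_lhs => rw [hD3]
    rw [map_add, map_sub, coeff_mul]
  have hnn : ∀ n : ℕ, ∀ b : σ →₀ ℕ, ∑ j, b j = n → 0 ≤ coeff b D := by
    intro n
    induction n using Nat.strong_induction_on with
    | _ n ih =>
      intro b hbn
      by_cases hb : b = 0
      · rw [hb, hD0]
      -- all the terms of the sums are nonnegative
      have hlt : ∀ p ∈ HasAntidiagonal.antidiagonal b, p.1 ≠ 0 → 0 ≤ coeff p.2 D := by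
        rintro ⟨p, r⟩ hp hp1
        rw [HasAntidiagonal.mem_antidiagonal] at hp
        simp only at hp hp1 ⊢
        have h3 := sum_deg_pos hp1
        have h5 : ∑ j, b j = ∑ j, p j + ∑ j, r j := by
          rw [← hp, ← Finset.sum_add_distrib]; rfl
        exact ih _ (by omega) r rfl
      by_cases hθb : ϑ b = 0
      · rw [hrec2, hθb]
        have : 0 ≤ ∑ p ∈ HasAntidiagonal.antidiagonal b, ϑ p.1 * coeff p.2 D := by
          refine Finset.sum_nonneg fun p hp => ?_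
          by_cases hp1 : p.1 = 0
          · rw [hp1, h.1, zero_mul]
          · exact mul_nonneg (hθ _) (hlt p hp hp1)
        linarith [hq b]
      · have hpos : 0 < ϑ b := lt_of_le_of_ne (hθ b) (Ne.symm hθb)
        rw [hrec3, hε b hb, hθt b hb hpos, hδ b hb]
        have : 0 ≤ ∑ p ∈ HasAntidiagonal.antidiagonal b, coeff p.1 ε * coeff p.2 D := by
          refine Finset.sum_nonneg fun p hp => ?_
          by_cases hp1 : p.1 = 0
          · rw [hp1, hε0, zero_mul]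
          · refine mul_nonneg ?_ (hlt p hp hp1)
            rw [hε _ hp1]
            linarith [hθc _ hp1]
        linarith [hc b hb]
  exact ⟨fun b => coeff b D, fun b => hnn _ b rfl, hrec2⟩

lemma conv_le {A D : (σ →₀ ℕ) → ℝ} (hA : ∀ a, 0 ≤ A a) (hD : ∀ a, 0 ≤ D a) {t : σ → ℝ}
    (ht : ∀ j, 0 ≤ t j) (m : σ →₀ ℕ) :
    ∑ b ∈ Iic m, (∑ p ∈ HasAntidiagonal.antidiagonal b, A p.1 * D p.2) * mon t b ≤
      (∑ a ∈ Iic m, A a * mon t a) * ∑ a ∈ Iic m, D a * mon t a := by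
  rw [Finset.sum_mul_sum]
  have h1 : ∀ b ∈ Iic m, (∑ p ∈ HasAntidiagonal.antidiagonal b, A p.1 * D p.2) * mon t b =
      ∑ p ∈ HasAntidiagonal.antidiagonal b, (A p.1 * mon t p.1) * (D p.2 * mon t p.2) := by
    intro b _
    rw [Finset.sum_mul]
    refine Finset.sum_congr rfl fun p hp => ?_
    rw [HasAntidiagonal.mem_antidiagonal] at hp
    rw [← hp, mon_add]
    ring
  rw [Finset.sum_congr rfl h1, ← Finset.sum_product', Finset.sum_sigma']
  let e : (Σ _ : σ →₀ ℕ, (σ →₀ ℕ) × (σ →₀ ℕ)) → (σ →₀ ℕ) × (σ →₀ ℕ) := fun x => x.2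
  have hinj : Set.InjOn e ((Iic m).sigma fun b => HasAntidiagonal.antidiagonal b) := by
    rintro ⟨b, p⟩ hb ⟨b', p'⟩ hb' (h : p = p')
    simp only [coe_sigma, Set.mem_sigma_iff, mem_coe, HasAntidiagonal.mem_antidiagonal] at hb hb'
    subst h
    have : b = b' := hb.2.symm.trans hb'.2
    subst this
    rfl
  rw [← Finset.sum_image (g := e) (f := fun p => (A p.1 * mon t p.1) * (D p.2 * mon t p.2)) hinj]
  refine Finset.sum_le_sum_of_subset_of_nonneg ?_ fun p _ _ => ?_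
  · intro p hp
    rw [mem_image] at hp
    obtain ⟨⟨b, p'⟩, hb, rfl⟩ := hp
    simp only [mem_sigma, mem_Iic, HasAntidiagonal.mem_antidiagonal] at hb
    rw [mem_product, mem_Iic, mem_Iic]
    refine ⟨le_trans ?_ hb.1, le_trans ?_ hb.1⟩
    · rw [← hb.2]; exact le_self_add
    · rw [← hb.2]; exact le_add_self
  · exact mul_nonneg (mul_nonneg (hA _) (mon_nonneg ht _)) (mul_nonneg (hD _) (mon_nonneg ht _))

/-- The greedy comparison: if a certificate `q` has sum at most one, so has the master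
certificate. -/
theorem greedy {k ϑ q : (σ →₀ ℕ) → ℝ} (hk0 : k 0 = 1) (hk : ∀ a, 0 ≤ k a) (h : IsMaster k ϑ)
    (hq0 : q 0 = 0) (hq : ∀ a, 0 ≤ q a)
    (hc : ∀ b, b ≠ 0 → k b ≤ ∑ p ∈ HasAntidiagonal.antidiagonal b, q p.1 * k p.2)
    {t : σ → ℝ} (ht : ∀ j, 0 ≤ t j) (m : σ →₀ ℕ) (hsum : ∑ a ∈ Iic m, q a * mon t a ≤ 1) :
    ∑ a ∈ Iic m, ϑ a * mon t a ≤ 1 := by
  obtain ⟨hθ, -, -⟩ := h.props hk0 hk
  obtain ⟨D, hD, hrec⟩ := exists_D hk0 hk h hq0 hq hc
  -- evaluation on a ray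
  let fA : ℝ → ℝ := fun s => ∑ a ∈ Iic m, ϑ a * mon (fun j => s * t j) a
  let fB : ℝ → ℝ := fun s => ∑ a ∈ Iic m, q a * mon (fun j => s * t j) a
  have hst : ∀ s : ℝ, 0 ≤ s → ∀ j, 0 ≤ s * t j := fun s hs j => mul_nonneg hs (ht j)
  have key : ∀ s : ℝ, 0 ≤ s → fA s < 1 → fA s ≤ fB s := by
    intro s hs hlt
    have h1 : ∑ b ∈ Iic m, D b * mon (fun j => s * t j) b =
        fB s - fA s + ∑ b ∈ Iic m, (∑ p ∈ HasAntidiagonal.antidiagonal b, ϑ p.1 * D p.2) *
          mon (fun j => s * t j) b := by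
      simp only [fA, fB]
      rw [← Finset.sum_sub_distrib, ← Finset.sum_add_distrib]
      refine Finset.sum_congr rfl fun b _ => ?_
      rw [hrec b]; ring
    have h2 := conv_le hθ hD (hst s hs) m
    have h3 : 0 ≤ ∑ b ∈ Iic m, D b * mon (fun j => s * t j) b :=
      Finset.sum_nonneg fun b _ => mul_nonneg (hD b) (mon_nonneg (hst s hs) b)
    set DD := ∑ b ∈ Iic m, D b * mon (fun j => s * t j) b
    have h4 : 0 ≤ DD * (1 - fA s) := mul_nonneg h3 (by linarith)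
    change _ ≤ fA s * DD at h2
    nlinarith
  -- homogeneity
  have hhom : ∀ (c : (σ →₀ ℕ) → ℝ), c 0 = 0 → (∀ a, 0 ≤ c a) → ∀ s r : ℝ, 0 ≤ s → s ≤ 1 → 0 ≤ r →
      ∑ a ∈ Iic m, c a * mon (fun j => s * r * t j) a ≤
        s * ∑ a ∈ Iic m, c a * mon (fun j => r * t j) a := by
    intro c hc0 hc s r hs hs1 hr
    rw [Finset.mul_sum]
    refine Finset.sum_le_sum fun a _ => ?_
    by_cases ha : a = 0
    · rw [ha, hc0]; simp
    · have h1 : (fun j => s * r * t j) = fun j => s * (r * t j) := by funext j; ring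
      rw [h1, mon_smul]
      have h2 : s ^ (∑ j, a j) ≤ s := by
        calc s ^ (∑ j, a j) ≤ s ^ 1 := pow_le_pow_of_le_one hs hs1 (sum_deg_pos ha)
          _ = s := pow_one s
      have h3 : 0 ≤ c a * mon (fun j => r * t j) a := mul_nonneg (hc a) (mon_nonneg (hst r hr) a)
      nlinarith
  have hcontA : Continuous fA := by
    simp only [fA, mon]
    fun_prop
  have hcontB : Continuous fB := by
    simp only [fB, mon]
    fun_prop
  have hA1 : fA 1 = ∑ a ∈ Iic m, ϑ a * mon t a := by simp [fA]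
  have hB1 : fB 1 = ∑ a ∈ Iic m, q a * mon t a := by simp [fB]
  by_contra hcon
  push Not at hcon
  rw [← hA1] at hcon
  rw [← hB1] at hsum
  have hA0 : fA 0 ≤ 0 := by
    have := hhom ϑ h.1 hθ 0 0 le_rfl zero_le_one le_rfl
    simpa [fA] using this
  obtain ⟨s₀, hs₀, hs₀1⟩ : ∃ s ∈ Set.Icc (0 : ℝ) 1, fA s = 1 :=
    intermediate_value_Icc zero_le_one hcontA.continuousOn ⟨by linarith, hcon.le⟩
  have hs₀pos : 0 < s₀ := by
    rcases hs₀.1.eq_or_lt with h0 | h0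
    · rw [← h0] at hs₀1; linarith
    · exact h0
  have hs₀lt : s₀ < 1 := by
    rcases hs₀.2.eq_or_lt with h0 | h0
    · rw [h0] at hs₀1; linarith
    · exact h0
  -- `fB s₀ ≥ 1`
  have hB : 1 ≤ fB s₀ := by
    have h1 : ∀ r ∈ Set.Ico (0 : ℝ) 1, fA (r * s₀) ≤ fB (r * s₀) := by
      intro r hr
      refine key _ (mul_nonneg hr.1 hs₀pos.le) ?_
      have h2 := hhom ϑ h.1 hθ r s₀ hr.1 hr.2.le hs₀pos.le
      change fA (r * s₀) ≤ r * fA s₀ at h2
      rw [hs₀1] at h2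
      linarith [hr.2]
    have h2 : Filter.Tendsto (fun r => fB (r * s₀) - fA (r * s₀)) (nhdsWithin 1 (Set.Iio 1))
        (nhds (fB s₀ - fA s₀)) := by
      have : Continuous fun r : ℝ => fB (r * s₀) - fA (r * s₀) := by fun_prop
      have h3 := this.tendsto 1
      rw [one_mul] at h3
      exact h3.mono_left nhdsWithin_le_nhds
    have h3 : 0 ≤ fB s₀ - fA s₀ := by
      refine ge_of_tendsto h2 ?_
      filter_upwards [Ico_mem_nhdsLT (show (0 : ℝ) < 1 by norm_num)] with r hr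
      linarith [h1 r hr]
    linarith
  have h5 := hhom q hq0 hq s₀ 1 hs₀pos.le hs₀lt.le zero_le_one
  rw [mul_one] at h5
  change fB s₀ ≤ s₀ * fB 1 at h5
  have hB1nn : fB 1 ≤ 1 := hsum
  nlinarith

end Pool.Agent.Q93.MC
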