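import Pool.Agent.Q93.MC.Extract

/-!
The limit of the certificates at points tending to the origin.
-/

set_option autoImplicit false
set_option linter.unusedSectionVars false

open Finset Filter Topology Metric

open scoped ComplexConjugate ComplexOrder

noncomputable section

namespace Pool.Agent.Q93.MC

variable {g : ℕ}

lemma freq_ne {Ω : Set (Fin g → ℂ)} (hΩ : IsOpen Ω) (hconn : IsPreconnected Ω)
    {ℓ : (Fin g → ℂ) → (Fin g → ℂ) → ℂ} (hℓ : IsKer Ω ℓ)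
    (hhol : ∀ w ∈ Ω, DifferentiableOn ℂ (fun z => ℓ z w) Ω) {z₀ : Fin g → ℂ} (hz₀ : z₀ ∈ Ω)
    (hℓ0 : ℓ z₀ z₀ ≠ 0) {z : Fin g → ℂ} (hz : z ∈ Ω) : ∃ᶠ w in 𝓝 z, w ∈ Ω ∧ ℓ w w ≠ 0 := by
  intro hcon
  have h1 : (fun w => ℓ w z₀) =ᶠ[𝓝 z] 0 := by
    filter_upwards [hcon, hΩ.mem_nhds hz] with w hw hwΩ
    by_contra h0
    refine hw ⟨hwΩ, fun hww => h0 ?_⟩
    have h1 := hℓ.norm_sq_le hwΩ hz₀
    rw [hww, Complex.zero_re, zero_mul] at h1
    exact norm_eq_zero.1 (pow_eq_zero_iff two_ne_zero |>.1 (le_antisymm h1 (by positivity)))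
  have h2 := (analyticOnNhd_of_diff hΩ
    (hhol z₀ hz₀)).eqOn_zero_of_preconnected_of_eventuallyEq_zero hconn hz h1
  exact hℓ0 (h2 hz₀)

/-- closed polydisc -/
def Pd (x : Fin g → ℂ) : Set (Fin g → ℂ) := {z | ∀ j, ‖z j‖ ≤ ‖x j‖}

lemma isCompact_Pd (x : Fin g → ℂ) : IsCompact (Pd x) := by
  have h1 : Pd x = Set.pi Set.univ fun j => closedBall (0 : ℂ) ‖x j‖ := by
    ext z
    simp [Pd]
  rw [h1]
  exact isCompact_univ_pi fun j => isCompact_closedBall _ _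

/-- A closed polydisc in an open set can be enlarged and moved. -/
lemma enlarge {Ω : Set (Fin g → ℂ)} (hΩ : IsOpen Ω) {x : Fin g → ℂ} (hx : Pd x ⊆ Ω) :
    ∃ R δ : ℝ, 1 < R ∧ 0 < δ ∧ ∀ z c : Fin g → ℂ, (∀ j, ‖z j‖ ≤ R * ‖x j‖) → ‖c‖ < δ → c + z ∈ Ω := by
  obtain ⟨δ, hδ, hsub⟩ := (isCompact_Pd x).exists_thickening_subset_open hΩ hx
  set η := δ / (2 * (‖x‖ + 1)) with hη
  have hηpos : 0 < η := by positivity
  refine ⟨1 + η, δ / 2, by linarith, by positivity, fun z c hz hc => hsub ?_⟩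
  rw [mem_thickening_iff]
  set z' : Fin g → ℂ := fun j => (((1 + η)⁻¹ : ℝ) : ℂ) * z j with hz'
  have h1 : z' ∈ Pd x := by
    intro j
    rw [hz', norm_mul, Complex.norm_real, Real.norm_of_nonneg (by positivity)]
    calc (1 + η)⁻¹ * ‖z j‖ ≤ (1 + η)⁻¹ * ((1 + η) * ‖x j‖) :=
          mul_le_mul_of_nonneg_left (hz j) (by positivity)
      _ = ‖x j‖ := by
          rw [← mul_assoc, inv_mul_cancel₀ (by positivity), one_mul]
  refine ⟨z', h1, ?_⟩
  have h2 : ‖z - z'‖ < δ / 2 := by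
    have h3 : ‖z - z'‖ ≤ η * ‖x‖ := by
      refine (pi_norm_le_iff_of_nonneg (by positivity)).2 fun j => ?_
      have h4 : (z - z') j = (((η * (1 + η)⁻¹ : ℝ)) : ℂ) * z j := by
        rw [Pi.sub_apply, hz']
        have : (η * (1 + η)⁻¹ : ℝ) = 1 - (1 + η)⁻¹ := by field_simp; ring
        rw [this]
        push_cast
        ring
      rw [h4, norm_mul, Complex.norm_real, Real.norm_of_nonneg (by positivity)]
      calc η * (1 + η)⁻¹ * ‖z j‖ ≤ η * (1 + η)⁻¹ * ((1 + η) * ‖x j‖) :=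
            mul_le_mul_of_nonneg_left (hz j) (by positivity)
        _ = η * ‖x j‖ := by field_simp
        _ ≤ η * ‖x‖ := mul_le_mul_of_nonneg_left (norm_le_pi_norm x j) hηpos.le
    refine lt_of_le_of_lt h3 ?_
    rw [hη, div_mul_eq_mul_div, div_lt_div_iff₀ (by positivity) (by positivity)]
    nlinarith [norm_nonneg x]
  rw [dist_eq_norm]
  calc ‖c + z - z'‖ = ‖c + (z - z')‖ := by rw [add_sub_assoc]
    _ ≤ ‖c‖ + ‖z - z'‖ := norm_add_le _ _
    _ < δ := by linarith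

/-- The limit of the certificates. -/
theorem limit_data {Ω : Set (Fin g → ℂ)} (hΩ : IsOpen Ω) (hconn : IsPreconnected Ω)
    {k ℓ : (Fin g → ℂ) → (Fin g → ℂ) → ℂ} (hk : IsKer Ω k) (hℓ : IsKer Ω ℓ)
    (hkc : ContinuousOn (fun q : (Fin g → ℂ) × (Fin g → ℂ) => k q.1 q.2) (Ω ×ˢ Ω))
    (hcont : ContinuousOn (fun q : (Fin g → ℂ) × (Fin g → ℂ) => ℓ q.1 q.2) (Ω ×ˢ Ω))
    (hhol : ∀ w ∈ Ω, DifferentiableOn ℂ (fun z => ℓ z w) Ω) (hcp : IsCP k ℓ Ω)
    (h0 : (0 : Fin g → ℂ) ∈ Ω) {z₀ : Fin g → ℂ} (hz₀ : z₀ ∈ Ω) (hℓ0 : ℓ z₀ z₀ ≠ 0)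
    {ka : (Fin g →₀ ℕ) → ℝ} {ε : ℝ} (hε : 0 < ε) (hka0 : ka 0 = 1)
    (hka : ∀ z w : Fin g → ℂ, (∀ j, ‖z j‖ < ε) → (∀ j, ‖w j‖ < ε) →
      HasSum (fun a => (ka a : ℂ) * mon z a * conj (mon w a)) (k z w)) :
    ∃ (G : (Fin g →₀ ℕ) → (Fin g →₀ ℕ) → ℂ) (s ρ : ℝ), 0 < s ∧ s < ρ ∧ s < ε ∧ G 0 0 = 0 ∧
      (∀ a, 0 ≤ (G a a).re) ∧
      (∀ a b : Fin g →₀ ℕ, ρ ^ (∑ j, a j + ∑ j, b j) * ‖G a b‖ ≤ 1) ∧
      (∀ x : Fin g → ℂ, Pd x ⊆ Ω → ∀ M,
          ∑ n ∈ range M, ∑ a ∈ S (Fin g) n, (mon (fun i => ‖x i‖) a) ^ 2 * (G a a).re ≤ 1) ∧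
      IsKer {z | ∀ j, ‖z j‖ ≤ s} fun z w => PG G z w * k z w - k z w + 1 := by
  obtain ⟨c, hc0, hc⟩ := exists_seq_forall_of_frequently
    (freq_ne hΩ hconn hℓ hhol hz₀ hℓ0 h0)
  choose G hG00 hGn hGcs hGx hGp using fun N =>
    scalar_data hΩ hconn hk hℓ hkc hcont hhol hcp (hc N).1 (hc N).2
  set U : Ultrafilter ℕ := hyperfilter ℕ with hU
  have hUle : (U : Filter ℕ) ≤ atTop := Nat.hyperfilter_le_atTop
  have hcU : Tendsto c U (𝓝 0) := hc0.mono_left hUle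
  have hcn : ∀ δ : ℝ, 0 < δ → ∀ᶠ N in (U : Filter ℕ), ‖c N‖ < δ := by
    intro δ hδ
    have := hcU.norm
    rw [norm_zero] at this
    exact this.eventually_lt_const hδ
  -- a polydisc around the origin
  obtain ⟨δ, hδ, hball⟩ := Metric.isOpen_iff.1 hΩ 0 h0
  set ρ := δ / 4 with hρ
  have hρpos : 0 < ρ := by positivity
  have hin : ∀ N, ‖c N‖ < δ / 4 → ∀ z : Fin g → ℂ, (∀ j, ‖z j‖ ≤ 2 * ρ) → c N + z ∈ Ω := by
    intro N hN z hz
    apply hball
    rw [mem_ball_zero_iff]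
    have h1 : ‖z‖ ≤ 2 * ρ := (pi_norm_le_iff_of_nonneg (by positivity)).2 hz
    calc ‖c N + z‖ ≤ ‖c N‖ + ‖z‖ := norm_add_le _ _
      _ < δ := by rw [hρ] at h1; linarith
  have hbd : ∀ N, ‖c N‖ < δ / 4 → ∀ a b : Fin g →₀ ℕ,
      ρ ^ (∑ j, a j + ∑ j, b j) * ‖G N a b‖ ≤ 1 := by
    intro N hN a b
    have h1 : ∀ a : Fin g →₀ ℕ, (ρ ^ (∑ j, a j)) ^ 2 * (G N a a).re ≤ 1 := by
      intro a
      have h3 := hGx N (fun _ => (ρ : ℂ)) 2 (by norm_num) (by
        intro z hz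
        refine hin N hN z fun j => ?_
        have := hz j
        rwa [Complex.norm_real, Real.norm_of_nonneg hρpos.le] at this) (∑ j, a j + 1)
      have h4 : (mon (fun _ : Fin g => ‖(ρ : ℂ)‖) a) ^ 2 * (G N a a).re ≤ 1 := by
        refine le_trans ?_ h3
        have hnn : ∀ a, 0 ≤ (mon (fun _ : Fin g => ‖(ρ : ℂ)‖) a) ^ 2 * (G N a a).re :=
          fun a => mul_nonneg (sq_nonneg _) (hGn N a)
        refine le_trans ?_ (Finset.single_le_sum (f := fun n => ∑ a ∈ S (Fin g) n,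
          (mon (fun _ : Fin g => ‖(ρ : ℂ)‖) a) ^ 2 * (G N a a).re)
          (fun n _ => Finset.sum_nonneg fun a _ => hnn a)
          (mem_range.2 (Nat.lt_succ_self (∑ j, a j))))
        exact Finset.single_le_sum (f := fun a => (mon (fun _ : Fin g => ‖(ρ : ℂ)‖) a) ^ 2 *
          (G N a a).re) (fun a _ => hnn a) (mem_S.2 rfl)
      rwa [mon_const, Complex.norm_real, Real.norm_of_nonneg hρpos.le] at h4
    have h2 := hGcs N a b
    have h3 : (ρ ^ (∑ j, a j + ∑ j, b j) * ‖G N a b‖) ^ 2 ≤ 1 := by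
      calc (ρ ^ (∑ j, a j + ∑ j, b j) * ‖G N a b‖) ^ 2
          = (ρ ^ (∑ j, a j)) ^ 2 * (ρ ^ (∑ j, b j)) ^ 2 * ‖G N a b‖ ^ 2 := by
            rw [pow_add]; ring
        _ ≤ (ρ ^ (∑ j, a j)) ^ 2 * (ρ ^ (∑ j, b j)) ^ 2 * ((G N a a).re * (G N b b).re) :=
            mul_le_mul_of_nonneg_left h2 (by positivity)
        _ = ((ρ ^ (∑ j, a j)) ^ 2 * (G N a a).re) * ((ρ ^ (∑ j, b j)) ^ 2 * (G N b b).re) := by ring
        _ ≤ 1 * 1 := mul_le_mul (h1 a) (h1 b) (mul_nonneg (sq_nonneg _) (hGn N b)) zero_le_one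
        _ = 1 := one_mul 1
    exact (sq_le_one_iff₀ (by positivity)).1 h3
  have hbdU : ∀ᶠ N in (U : Filter ℕ), ∀ a b : Fin g →₀ ℕ,
      ρ ^ (∑ j, a j + ∑ j, b j) * ‖G N a b‖ ≤ 1 := by
    filter_upwards [hcn (δ / 4) (by positivity)] with N hN
    exact hbd N hN
  -- the limits of the coefficients
  have hlim : ∀ a b : Fin g →₀ ℕ, ∃ L : ℂ, Tendsto (fun N => G N a b) U (𝓝 L) := by
    intro a b
    have h1 : ∀ᶠ N in (U : Filter ℕ), G N a b ∈
        closedBall (0 : ℂ) (1 / ρ ^ (∑ j, a j + ∑ j, b j)) := by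
      filter_upwards [hbdU] with N hN
      rw [mem_closedBall_zero_iff, le_div_iff₀ (pow_pos hρpos _), mul_comm]
      exact hN a b
    obtain ⟨L, -, hL⟩ := (isCompact_closedBall (0 : ℂ)
      (1 / ρ ^ (∑ j, a j + ∑ j, b j))).ultrafilter_le_nhds (U.map fun N => G N a b) (by
        rw [le_principal_iff]; exact h1)
    exact ⟨L, hL⟩
  choose L hL using hlim
  have hLb : ∀ a b : Fin g →₀ ℕ, ρ ^ (∑ j, a j + ∑ j, b j) * ‖L a b‖ ≤ 1 := by
    intro a b
    refine le_of_tendsto ((hL a b).norm.const_mul _) ?_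
    filter_upwards [hbdU] with N hN
    exact hN a b
  have hLre : ∀ a b, Tendsto (fun N => (G N a b).re) U (𝓝 (L a b).re) := fun a b =>
    (Complex.continuous_re.tendsto _).comp (hL a b)
  set s := min (ρ / 2) (ε / 2) with hs
  have hspos : 0 < s := lt_min (by positivity) (by positivity)
  have hsρ : s < ρ := lt_of_le_of_lt (min_le_left _ _) (by linarith)
  have hsε : s < ε := lt_of_le_of_lt (min_le_right _ _) (by linarith)
  have hsδ : s < δ := by rw [hρ] at hsρ; linarith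
  refine ⟨L, s, ρ, hspos, hsρ, hsε, ?_, fun a => ?_, hLb, ?_, ?_⟩
  · refine tendsto_nhds_unique (hL 0 0) ?_
    simp only [hG00]
    exact tendsto_const_nhds
  · exact ge_of_tendsto' (hLre a a) fun N => hGn N a
  · intro x hx M
    obtain ⟨R, δ', hR, hδ', henl⟩ := enlarge hΩ hx
    have h1 : Tendsto (fun N => ∑ n ∈ range M, ∑ a ∈ S (Fin g) n,
        (mon (fun i => ‖x i‖) a) ^ 2 * (G N a a).re) U
        (𝓝 (∑ n ∈ range M, ∑ a ∈ S (Fin g) n, (mon (fun i => ‖x i‖) a) ^ 2 * (L a a).re)) :=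
      tendsto_finsetSum _ fun n _ => tendsto_finsetSum _ fun a _ => (hLre a a).const_mul _
    refine le_of_tendsto h1 ?_
    filter_upwards [hcn δ' hδ'] with N hN
    exact hGx N x R hR (fun z hz => henl z (c N) hz hN) M
  · -- positivity
    intro n z hz
    have hzΩ : ∀ i, z i ∈ Ω := by
      intro i
      apply hball
      rw [mem_ball_zero_iff]
      exact lt_of_le_of_lt ((pi_norm_le_iff_of_nonneg hspos.le).2 (hz i)) hsδ
    have hk2 : ∀ u v : Fin g → ℂ, u ∈ Ω → v ∈ Ω → ∀ f₁ f₂ : ℕ → (Fin g → ℂ),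
        Tendsto f₁ U (𝓝 u) → Tendsto f₂ U (𝓝 v) →
        Tendsto (fun N => k (f₁ N) (f₂ N)) U (𝓝 (k u v)) := by
      intro u v hu hv f₁ f₂ h₁ h₂
      have h1 : ContinuousAt (fun q : (Fin g → ℂ) × (Fin g → ℂ) => k q.1 q.2) (u, v) :=
        hkc.continuousAt ((hΩ.prod hΩ).mem_nhds ⟨hu, hv⟩)
      exact h1.tendsto.comp (h₁.prodMk_nhds h₂)
    have hadd : ∀ i, Tendsto (fun N => c N + z i) U (𝓝 (z i)) := by
      intro i
      simpa using hcU.add_const (z i)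
    have hk0 : ∀ i, k (z i) 0 = 1 ∧ k 0 (z i) = 1 := by
      intro i
      have hzi : ∀ j, ‖z i j‖ < ε := fun j => lt_of_le_of_lt (hz i j) hsε
      have h00 : ∀ j, ‖(0 : Fin g → ℂ) j‖ < ε := fun j => by simpa using hε
      have hm : ∀ a : Fin g →₀ ℕ, a ≠ 0 → mon (0 : Fin g → ℂ) a = 0 := by
        intro a ha
        obtain ⟨j, hj⟩ : ∃ j, a j ≠ 0 := by
          by_contra h
          push Not at h
          exact ha (Finsupp.ext h)
        exact Finset.prod_eq_zero (mem_univ j) (by rw [Pi.zero_apply]; exact zero_pow hj)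
      constructor
      · refine (hka (z i) 0 hzi h00).unique ?_
        have h1 := hasSum_single (f := fun a : Fin g →₀ ℕ =>
          (ka a : ℂ) * mon (z i) a * conj (mon (0 : Fin g → ℂ) a)) 0 (by
            intro a ha
            rw [hm a ha, map_zero, mul_zero])
        simpa [hka0] using h1
      · refine (hka 0 (z i) h00 hzi).unique ?_
        have h1 := hasSum_single (f := fun a : Fin g →₀ ℕ =>
          (ka a : ℂ) * mon (0 : Fin g → ℂ) a * conj (mon (z i) a)) 0 (by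
            intro a ha
            rw [hm a ha, mul_zero, zero_mul])
        simpa [hka0] using h1
    have hk00 : k 0 0 = 1 := by
      have h00 : ∀ j, ‖(0 : Fin g → ℂ) j‖ < ε := fun j => by simpa using hε
      have hm : ∀ a : Fin g →₀ ℕ, a ≠ 0 → mon (0 : Fin g → ℂ) a = 0 := by
        intro a ha
        obtain ⟨j, hj⟩ : ∃ j, a j ≠ 0 := by
          by_contra h
          push Not at h
          exact ha (Finsupp.ext h)
        exact Finset.prod_eq_zero (mem_univ j) (by rw [Pi.zero_apply]; exact zero_pow hj)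
      refine (hka 0 0 h00 h00).unique ?_
      have h1 := hasSum_single (f := fun a : Fin g →₀ ℕ =>
        (ka a : ℂ) * mon (0 : Fin g → ℂ) a * conj (mon (0 : Fin g → ℂ) a)) 0 (by
          intro a ha
          rw [hm a ha, mul_zero, zero_mul])
      simpa [hka0] using h1
    refine psd_of_tendsto (l := (U : Filter ℕ)) (M := fun N => Matrix.of fun i j =>
      PG (G N) (z i) (z j) * k (c N + z i) (c N + z j) -
          (k (c N + z i) (c N + z j) - k (c N + z i) (c N) * k (c N) (c N + z j) / k (c N) (c N)))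
      ?_ ?_
    · filter_upwards [hcn (δ / 4) (by positivity)] with N hN
      exact hGp N s ρ 2 hspos.le hsρ (by norm_num) (hin N hN) n z hz
    · intro i j
      have hPG : Tendsto (fun N => PG (G N) (z i) (z j)) U (𝓝 (PG L (z i) (z j))) := by
        refine tendsto_tsum_of_dominated_convergence
          (bound := fun q : (Fin g →₀ ℕ) × (Fin g →₀ ℕ) =>
            mon (fun _ : Fin g => s / ρ) q.1 * mon (fun _ : Fin g => s / ρ) q.2)
          (summable_pair hspos.le hsρ hLb).2 ?_ ?_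
        · intro q
          exact ((hL q.1 q.2).mul_const _).mul_const _
        · filter_upwards [hbdU] with N hN q
          exact PG_norm hspos.le hsρ hN (hz i) (hz j) q
      have h1 := hk2 _ _ (hzΩ i) (hzΩ j) _ _ (hadd i) (hadd j)
      have h2 := hk2 _ _ (hzΩ i) h0 _ _ (hadd i) hcU
      have h3 := hk2 _ _ h0 (hzΩ j) _ _ hcU (hadd j)
      have h4 := hk2 _ _ h0 h0 _ _ hcU hcU
      rw [(hk0 i).1] at h2
      rw [(hk0 j).2] at h3
      rw [hk00] at h4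
      have h5 := (h2.mul h3).div h4 one_ne_zero
      have h6 := (hPG.mul h1).sub (h1.sub h5)
      have e : PG L (z i) (z j) * k (z i) (z j) - k (z i) (z j) + 1 =
          PG L (z i) (z j) * k (z i) (z j) - (k (z i) (z j) - 1 * 1 / 1) := by ring
      simp only [Matrix.of_apply]
      rw [e]
      exact h6

end Pool.Agent.Q93.MC
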