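import Pool.Agent.Q93.MC.Feat

/-!
The power series of a certificate at a point.
-/

set_option autoImplicit false
set_option linter.unusedSectionVars false

open Finset Filter Topology Metric

open scoped ComplexConjugate ComplexOrder

noncomputable section

namespace Pool.Agent.Q93.MC

variable {g : ℕ}

/-- kernels on a subset -/
def IsKer {V : Type*} (Ω : Set V) (f : V → V → ℂ) : Prop :=
  ∀ (n : ℕ) (z : Fin n → V), (∀ i, z i ∈ Ω) → (Matrix.of fun i j => f (z i) (z j)).PosSemidef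

lemma IsKer.herm {V : Type*} {Ω : Set V} {f : V → V → ℂ} (hf : IsKer Ω f) {z w : V} (hz : z ∈ Ω)
    (hw : w ∈ Ω) : f w z = conj (f z w) := by
  have h := hf 2 ![z, w] (by intro i; fin_cases i <;> simp [hz, hw])
  have := h.1.apply 1 0
  simpa using this.symm

lemma IsKer.diag {V : Type*} {Ω : Set V} {f : V → V → ℂ} (hf : IsKer Ω f) {z : V} (hz : z ∈ Ω) :
    0 ≤ (f z z).re ∧ f z z = ((f z z).re : ℂ) := by
  have h := (hf 1 ![z] (by intro i; fin_cases i; simpa using hz)).diag_nonneg (i := 0)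
  simp only [Matrix.of_apply, Matrix.cons_val_fin_one] at h
  rw [Complex.nonneg_iff] at h
  exact ⟨h.1, Complex.ext (by simp) (by simpa using h.2.symm)⟩

lemma IsKer.norm_sq_le {V : Type*} {Ω : Set V} {f : V → V → ℂ} (hf : IsKer Ω f) {z w : V}
    (hz : z ∈ Ω) (hw : w ∈ Ω) : ‖f z w‖ ^ 2 ≤ (f z z).re * (f w w).re := by
  have h := hf 2 ![z, w] (by intro i; fin_cases i <;> simp [hz, hw])
  have hdet := h.det_nonneg
  rw [Matrix.det_fin_two] at hdet
  simp only [Matrix.of_apply, Matrix.cons_val_zero, Matrix.cons_val_one] at hdet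
  have hc : f w z = conj (f z w) := hf.herm hz hw
  rw [hc, Complex.mul_conj, Complex.normSq_eq_norm_sq] at hdet
  have h2 := (Complex.nonneg_iff.1 hdet).1
  rw [Complex.sub_re, Complex.mul_re, Complex.ofReal_re] at h2
  have hi0 : (f z z).im = 0 := by
    have := (hf.diag hz).2
    rw [this]; simp
  rw [hi0, zero_mul, sub_zero] at h2
  linarith

/-- the matrix on the subtype -/
lemma IsKer.matrix {V : Type*} {Ω : Set V} {f : V → V → ℂ} (hf : IsKer Ω f) :
    (Matrix.of fun x y : Ω => f x y).PosSemidef := by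
  classical
  have hherm : (Matrix.of fun x y : Ω => f x y).IsHermitian := by
    ext x y
    rw [Matrix.conjTranspose_apply, Matrix.of_apply, Matrix.of_apply]
    rw [hf.herm x.2 y.2]
    simp
  refine ⟨hherm, fun c => ?_⟩
  obtain ⟨n, e⟩ : ∃ n, Nonempty (c.support ≃ Fin n) := ⟨_, ⟨Fintype.equivFin _⟩⟩
  obtain ⟨e⟩ := e
  have h := hf n (fun i => ((e.symm i : c.support) : Ω)) (fun i => ((e.symm i : c.support) : Ω).2)
  have h2 := h.dotProduct_mulVec_nonneg (fun i => c (e.symm i : c.support))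
  refine le_of_le_of_eq h2 ?_
  simp only [dotProduct, Matrix.mulVec, Pi.star_apply, Matrix.of_apply, Finsupp.sum]
  have h3 : ∀ f : Ω → ℂ, ∑ i ∈ c.support, f i = ∑ i : Fin n, f (e.symm i : c.support) := by
    intro f
    rw [← Finset.sum_coe_sort c.support f]
    exact (Equiv.sum_comp e.symm fun x : c.support => f x).symm
  simp only [h3, Finset.mul_sum, mul_assoc]

/-- `analyticity` -/
lemma analyticOnNhd_of_diff {f : (Fin g → ℂ) → ℂ} {U : Set (Fin g → ℂ)} (hU : IsOpen U)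
    (hf : DifferentiableOn ℂ f U) : AnalyticOnNhd ℂ f U := by
  intro c hc
  obtain ⟨ε, hε, hsub⟩ := Metric.isOpen_iff.1 hU c hc
  refine analyticAt_of_differentiable g c (ε / 2) (by positivity) f fun z hz => ?_
  have hzU : z ∈ U := by
    apply hsub
    rw [mem_ball, dist_pi_lt_iff hε]
    intro i
    have := hz i
    rw [mem_closedBall] at this
    linarith
  exact (hf z hzU).differentiableAt (hU.mem_nhds hzU)

/-- The data of a point `c` of the set where `ℓ(z,z) ≠ 0`. -/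
structure Data (Ω : Set (Fin g → ℂ)) (ℓ : (Fin g → ℂ) → (Fin g → ℂ) → ℂ) (c : Fin g → ℂ)
    (p : (Fin g → ℂ) → (Fin g → ℂ) → ℂ) : Prop where
  isOpen : IsOpen Ω
  conn : IsPreconnected Ω
  ker : IsKer Ω ℓ
  cont : ContinuousOn (fun q : (Fin g → ℂ) × (Fin g → ℂ) => ℓ q.1 q.2) (Ω ×ˢ Ω)
  hol : ∀ w ∈ Ω, DifferentiableOn ℂ (fun z => ℓ z w) Ω
  mem : c ∈ Ω
  ne : ℓ c c ≠ 0
  pker : IsKer {z | z ∈ Ω ∧ ℓ z z ≠ 0} p
  pone : ∀ z ∈ Ω, ℓ z z ≠ 0 → (p z z).re ≤ 1
  pc : p c c = 0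
  dom : ∃ C : ℝ, 0 ≤ C ∧ IsKer {z | z ∈ Ω ∧ ℓ z z ≠ 0}
    (fun z w => (C : ℂ) * ℓ z w - ℓ z c * conj (ℓ w c) * p z w)

namespace Data

variable {Ω : Set (Fin g → ℂ)} {ℓ : (Fin g → ℂ) → (Fin g → ℂ) → ℂ} {c : Fin g → ℂ}
    {p : (Fin g → ℂ) → (Fin g → ℂ) → ℂ}

lemma ne_of_ne (h : Data Ω ℓ c p) {z : Fin g → ℂ} (hz : z ∈ Ω) (hzc : ℓ z c ≠ 0) :
    ℓ z z ≠ 0 := by
  intro h0
  have h1 := h.ker.norm_sq_le hz h.mem
  rw [h0, Complex.zero_re, zero_mul] at h1
  exact hzc (norm_eq_zero.1 (pow_eq_zero_iff two_ne_zero |>.1 (le_antisymm h1 (by positivity))))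

lemma freq (h : Data Ω ℓ c p) {z : Fin g → ℂ} (hz : z ∈ Ω) :
    ∃ᶠ w in 𝓝 z, w ∈ Ω ∧ ℓ w w ≠ 0 := by
  intro hcon
  have h1 : (fun w => ℓ w c) =ᶠ[𝓝 z] 0 := by
    filter_upwards [hcon, h.isOpen.mem_nhds hz] with w hw hwΩ
    by_contra h0
    exact hw ⟨hwΩ, h.ne_of_ne hwΩ h0⟩
  have h2 := (analyticOnNhd_of_diff h.isOpen
    (h.hol c h.mem)).eqOn_zero_of_preconnected_of_eventuallyEq_zero h.conn hz h1
  exact h.ne (h2 h.mem)

/-- The feature map of `ℓ` on `Ω` is continuous. -/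
lemma cont_feat (h : Data Ω ℓ c p) {H : Type} [NormedAddCommGroup H] [InnerProductSpace ℂ H]
    {ψ : Ω → H} (hψ : ∀ x y : Ω, inner ℂ (ψ x) (ψ y) = ℓ x y) : Continuous ψ := by
  rw [continuous_iff_continuousAt]
  intro x
  have hc : Continuous fun y : Ω => (ℓ y y, ℓ y x, ℓ x y) := by
    have h1 : ∀ f₁ f₂ : Ω → Ω, Continuous f₁ → Continuous f₂ →
        Continuous fun y : Ω => ℓ (f₁ y) (f₂ y) := by
      intro f₁ f₂ hf₁ hf₂
      have := h.cont.comp_continuous (f := fun y : Ω => ((f₁ y : Fin g → ℂ), (f₂ y : Fin g → ℂ)))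
        (by fun_prop) fun y => ⟨(f₁ y).2, (f₂ y).2⟩
      exact this
    exact (h1 id id continuous_id continuous_id).prodMk
      ((h1 id (fun _ => x) continuous_id continuous_const).prodMk
        (h1 (fun _ => x) id continuous_const continuous_id))
  rw [ContinuousAt, tendsto_iff_norm_sub_tendsto_zero]
  have hsq : ∀ y, ‖ψ y - ψ x‖ ^ 2 = (ℓ y y - ℓ y x - ℓ x y + ℓ x x).re := by
    intro y
    rw [← @inner_self_eq_norm_sq ℂ]
    change (inner ℂ (ψ y - ψ x) (ψ y - ψ x)).re = _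
    rw [inner_sub_left, inner_sub_right, inner_sub_right, hψ, hψ, hψ, hψ]
    congr 1
    ring
  have hlim : Tendsto (fun y : Ω => ‖ψ y - ψ x‖ ^ 2) (𝓝 x) (𝓝 0) := by
    simp only [hsq]
    have h2 : Continuous fun y : Ω => (ℓ y y - ℓ y x - ℓ x y + ℓ x x).re := by
      have h3 := hc.fst
      have h4 := hc.snd.fst
      have h5 := hc.snd.snd
      exact Complex.continuous_re.comp (((h3.sub h4).sub h5).add continuous_const)
    have h6 := h2.tendsto x
    simpa using h6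
  have h3 := (Real.continuous_sqrt.tendsto 0).comp hlim
  rw [Real.sqrt_zero] at h3
  refine h3.congr fun y => ?_
  simp only [Function.comp]
  rw [Real.sqrt_sq (norm_nonneg _)]

end Data

end Pool.Agent.Q93.MC
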