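import Pool.Agent.Q93.MC.Torus

/-!
Parseval type inequalities for bounded Hilbert space valued power series.
-/

set_option autoImplicit false
set_option linter.unusedSectionVars false

open Finset Filter Topology Metric

open scoped ComplexConjugate

noncomputable section

namespace Pool.Agent.Q93.MC

variable {H : Type*} [NormedAddCommGroup H] [InnerProductSpace ℂ H] [CompleteSpace H]

lemma modEq_eventually (m n : ℕ) : ∀ᶠ N : ℕ in atTop, (m ≡ n [MOD N] ↔ m = n) := by
  filter_upwards [eventually_gt_atTop (max m n)] with N hN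
  constructor
  · intro h
    exact Nat.ModEq.eq_of_lt_of_lt h (by omega) (by omega)
  · rintro rfl
    exact Nat.ModEq.refl _

lemma summable_norm_coeff {a : ℕ → H} {F : ℂ → H} {R : ℝ}
    (hF : ∀ ζ ∈ ball (0 : ℂ) R, HasSum (fun n => ζ ^ n • a n) (F ζ)) {r : ℝ} (hr0 : 0 ≤ r)
    (hr : r < R) : Summable fun n => r ^ n * ‖a n‖ := by
  obtain ⟨s, hs1, hs2⟩ := exists_between hr
  have hs0 : 0 < s := lt_of_le_of_lt hr0 hs1
  have h1 : Summable fun n => ((s : ℂ)) ^ n • a n :=
    (hF s (by rw [mem_ball_zero_iff, Complex.norm_real, Real.norm_of_nonneg hs0.le]; exact hs2)).summable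
  obtain ⟨C, hC⟩ := h1.tendsto_atTop_zero.norm.bddAbove_range
  have hgeo : Summable fun n : ℕ => C * (r / s) ^ n :=
    (summable_geometric_of_lt_one (by positivity) ((div_lt_one hs0).2 hs1)).mul_left C
  refine Summable.of_nonneg_of_le (fun n => by positivity) (fun n => ?_) hgeo
  have h2 : ‖((s : ℂ)) ^ n • a n‖ ≤ C := hC ⟨n, rfl⟩
  rw [norm_smul, norm_pow, Complex.norm_real, Real.norm_of_nonneg hs0.le] at h2
  have h3 : r ^ n * ‖a n‖ = (r / s) ^ n * (s ^ n * ‖a n‖) := by
    rw [div_pow]; field_simp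
  rw [h3, mul_comm C]
  exact mul_le_mul_of_nonneg_left h2 (by positivity)

/-- Parseval's inequality for a bounded power series with values in a Hilbert space. -/
theorem parseval {a : ℕ → H} {F : ℂ → H} {R : ℝ}
    (hF : ∀ ζ ∈ ball (0 : ℂ) R, HasSum (fun n => ζ ^ n • a n) (F ζ))
    (hb : ∀ ζ ∈ ball (0 : ℂ) R, ‖F ζ‖ ≤ 1) {r : ℝ} (hr0 : 0 ≤ r) (hr : r < R) (M : ℕ) :
    ∑ m ∈ range M, (r ^ m * ‖a m‖) ^ 2 ≤ 1 := by
  have hsum := summable_norm_coeff hF hr0 hr
  -- the averages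
  let u : ℕ → ℕ → H := fun N m => ∑' n, if m ≡ n [MOD N] then (r : ℂ) ^ n • a n else 0
  have hnorm : ∀ n : ℕ, ‖(r : ℂ) ^ n • a n‖ = r ^ n * ‖a n‖ := fun n => by
    rw [norm_smul, norm_pow, Complex.norm_real, Real.norm_of_nonneg hr0]
  have hlim : ∀ m, Tendsto (fun N => u N m) atTop (𝓝 ((r : ℂ) ^ m • a m)) := by
    intro m
    have h1 : ((r : ℂ) ^ m • a m) = ∑' n, if m = n then (r : ℂ) ^ n • a n else 0 := by
      rw [tsum_eq_single m]
      · simp
      · intro n hn
        rw [if_neg (Ne.symm hn)]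
    rw [h1]
    refine tendsto_tsum_of_dominated_convergence (bound := fun n => r ^ n * ‖a n‖) hsum ?_ ?_
    · intro n
      refine tendsto_const_nhds.congr' ?_
      filter_upwards [modEq_eventually m n] with N hN
      by_cases h : m = n
      · rw [if_pos h, if_pos (hN.2 h)]
      · rw [if_neg h, if_neg fun h' => h (hN.1 h')]
    · filter_upwards with N n
      split_ifs
      · rw [hnorm]
      · rw [norm_zero]; positivity
  have hle : ∀ᶠ N : ℕ in atTop, ∑ m ∈ range M, ‖u N m‖ ^ 2 ≤ 1 := by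
    filter_upwards [eventually_ge_atTop (M + 1)] with N hN
    have hN0 : N ≠ 0 := by omega
    have hNpos : (0 : ℝ) < N := by exact_mod_cast Nat.pos_of_ne_zero hN0
    have hball : ∀ j : Fin N, (r : ℂ) * rt N j ∈ ball (0 : ℂ) R := by
      intro j
      rw [mem_ball_zero_iff, norm_mul, rt_norm, mul_one, Complex.norm_real,
        Real.norm_of_nonneg hr0]
      exact hr
    have hbes := bessel (H := H) hNpos (fun (m : ℕ) (j : Fin N) => rt N j ^ m) (range M) (by
      intro m hm m' hm'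
      rw [mem_range] at hm hm'
      simp only [map_pow]
      rw [orth_one hN0]
      by_cases h : m = m'
      · rw [if_pos h, if_pos (by rw [h])]; simp
      · rw [if_neg h, if_neg fun h' => h (Nat.ModEq.eq_of_lt_of_lt h' (by omega) (by omega))])
      (fun j => F ((r : ℂ) * rt N j))
    have hcomp : ∀ m, ∑ j : Fin N, (conj (rt N j ^ m) : ℂ) • F ((r : ℂ) * rt N j) =
        (N : ℂ) • u N m := by
      intro m
      have h1 : HasSum (fun n => ∑ j : Fin N,
          (conj (rt N j ^ m) : ℂ) • (((r : ℂ) * rt N j) ^ n • a n))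
          (∑ j : Fin N, (conj (rt N j ^ m) : ℂ) • F ((r : ℂ) * rt N j)) :=
        hasSum_sum fun j _ => (hF _ (hball j)).const_smul _
      have h2 : (fun n => ∑ j : Fin N,
          (conj (rt N j ^ m) : ℂ) • (((r : ℂ) * rt N j) ^ n • a n)) =
          fun n => (N : ℂ) • (if m ≡ n [MOD N] then (r : ℂ) ^ n • a n else 0) := by
        funext n
        have h3 : ∀ j : Fin N, (conj (rt N j ^ m) : ℂ) • (((r : ℂ) * rt N j) ^ n • a n) =
            (conj (rt N j) ^ m * rt N j ^ n) • ((r : ℂ) ^ n • a n) := by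
          intro j
          rw [smul_smul, smul_smul, map_pow, mul_pow]
          congr 1
          ring
        simp only [h3]
        rw [← Finset.sum_smul, orth_one hN0]
        split_ifs
        · rfl
        · simp
      rw [h2] at h1
      have h4 : Summable fun n => if m ≡ n [MOD N] then (r : ℂ) ^ n • a n else 0 := by
        refine Summable.of_norm_bounded hsum fun n => ?_
        split_ifs
        · rw [hnorm]
        · rw [norm_zero]; positivity
      rw [← h1.tsum_eq, h4.tsum_const_smul]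
    simp only [hcomp] at hbes
    have h5 : ∑ j : Fin N, ‖F ((r : ℂ) * rt N j)‖ ^ 2 ≤ N := by
      calc ∑ j : Fin N, ‖F ((r : ℂ) * rt N j)‖ ^ 2 ≤ ∑ _j : Fin N, (1 : ℝ) := by
            refine Finset.sum_le_sum fun j _ => ?_
            have := hb _ (hball j)
            have h0 := norm_nonneg (F ((r : ℂ) * rt N j))
            nlinarith
        _ = N := by simp
    have h6 : ∀ m, ‖(N : ℂ) • u N m‖ ^ 2 = N ^ 2 * ‖u N m‖ ^ 2 := by
      intro m
      rw [norm_smul, mul_pow, Complex.norm_natCast]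
    simp only [h6] at hbes
    rw [← Finset.mul_sum] at hbes
    have h7 : (N : ℝ) ^ 2 * ∑ m ∈ range M, ‖u N m‖ ^ 2 ≤ N ^ 2 * 1 := by
      calc (N : ℝ) ^ 2 * ∑ m ∈ range M, ‖u N m‖ ^ 2 ≤ N * ∑ j : Fin N, ‖F ((r : ℂ) * rt N j)‖ ^ 2 := hbes
        _ ≤ N * N := mul_le_mul_of_nonneg_left h5 hNpos.le
        _ = N ^ 2 * 1 := by ring
    exact le_of_mul_le_mul_left h7 (by positivity)
  have hlim2 : Tendsto (fun N => ∑ m ∈ range M, ‖u N m‖ ^ 2) atTop
      (𝓝 (∑ m ∈ range M, (r ^ m * ‖a m‖) ^ 2)) := by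
    refine tendsto_finset_sum _ fun m _ => ?_
    have := ((hlim m).norm.pow 2)
    rwa [hnorm] at this
  exact le_of_tendsto hlim2 hle

variable {σ : Type} [Fintype σ] [DecidableEq σ]

/-- antiholomorphic homogeneous polynomial with vector coefficients -/
def hp (h : (σ →₀ ℕ) → H) (n : ℕ) (z : σ → ℂ) : H := ∑ a ∈ S σ n, (conj (mon z a) : ℂ) • h a

lemma hp_smul (h : (σ →₀ ℕ) → H) (n : ℕ) (c : ℂ) (z : σ → ℂ) :
    hp h n (fun i => c * z i) = (conj c : ℂ) ^ n • hp h n z := by
  rw [hp, hp, Finset.smul_sum]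
  refine Finset.sum_congr rfl fun a ha => ?_
  rw [mon_smul, mem_S.1 ha, map_mul, map_pow, smul_smul]

/-- Averaging over the torus: coefficients. -/
theorem hp_coeff {h : (σ →₀ ℕ) → H} {n N : ℕ} (hN : n < N) (x : σ → ℂ) :
    ∑ a ∈ S σ n, (mon (fun i => ‖x i‖) a * ‖h a‖) ^ 2 * (Fintype.card (σ → Fin N) : ℝ) ≤
      ∑ τ : σ → Fin N, ‖hp h n (fun i => tp N τ i * x i)‖ ^ 2 := by
  have hN0 : N ≠ 0 := by omega
  have hcard : (0 : ℝ) < Fintype.card (σ → Fin N) := by
    have : Nonempty (σ → Fin N) := ⟨fun _ => ⟨0, by omega⟩⟩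
    exact_mod_cast Fintype.card_pos
  have hχ : ∀ a ∈ S σ n, ∀ b ∈ S σ n, ∑ τ : σ → Fin N,
      conj (conj (mon (tp N τ) a)) * conj (mon (tp N τ) b) =
        if a = b then ((Fintype.card (σ → Fin N) : ℝ) : ℂ) else 0 := by
    intro a ha b hb
    have h1 := orth (σ := σ) hN0 b a
    have h2 : ∀ τ : σ → Fin N, conj (conj (mon (tp N τ) a)) * conj (mon (tp N τ) b) =
        conj (mon (tp N τ) b) * mon (tp N τ) a := fun τ => by
      rw [Complex.conj_conj, mul_comm]
    simp only [h2]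
    rw [h1]
    by_cases hab : a = b
    · subst hab
      rw [if_pos fun i => Nat.ModEq.refl _, if_pos rfl]
      norm_cast
    · rw [if_neg hab, if_neg]
      intro h3
      apply hab
      exact (eq_of_modEq (fun i => lt_of_le_of_lt (le_of_mem_S hb i) hN)
        (fun i => lt_of_le_of_lt (le_of_mem_S ha i) hN) h3).symm
  have hbes := bessel (H := H) hcard (fun (a : σ →₀ ℕ) (τ : σ → Fin N) => conj (mon (tp N τ) a))
    (S σ n) hχ (fun τ => hp h n (fun i => tp N τ i * x i))
  have hu : ∀ a ∈ S σ n, ∑ τ : σ → Fin N, ((conj (conj (mon (tp N τ) a)) : ℂ) •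
      hp h n (fun i => tp N τ i * x i) : H) =
      ((Fintype.card (σ → Fin N) : ℝ) : ℂ) • ((conj (mon x a) : ℂ) • h a) := by
    intro a ha
    simp only [hp, Finset.smul_sum]
    rw [Finset.sum_comm]
    have h1 : ∀ b ∈ S σ n, ∑ τ : σ → Fin N, ((conj (conj (mon (tp N τ) a)) : ℂ) •
        ((conj (mon (fun i => tp N τ i * x i) b) : ℂ) • h b) : H) =
        if a = b then (((Fintype.card (σ → Fin N) : ℝ) : ℂ) • ((conj (mon x b) : ℂ) • h b)) else 0 := by
      intro b hb
      have h2 : ∀ τ : σ → Fin N, ((conj (conj (mon (tp N τ) a)) : ℂ) •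
          ((conj (mon (fun i => tp N τ i * x i) b) : ℂ) • h b) : H) =
          (conj (conj (mon (tp N τ) a)) * conj (mon (tp N τ) b)) •
            ((conj (mon x b) : ℂ) • h b) := by
        intro τ
        rw [mon_mul, map_mul, smul_smul, smul_smul]
        congr 1
        ring
      simp only [h2]
      rw [← Finset.sum_smul, hχ a ha b hb]
      split_ifs
      · rfl
      · rw [zero_smul]
    rw [Finset.sum_congr rfl h1, Finset.sum_ite_eq, if_pos ha]
  rw [Finset.sum_congr rfl (fun a ha => by rw [hu a ha])] at hbes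
  have h3 : ∀ a : σ →₀ ℕ, ‖(((Fintype.card (σ → Fin N) : ℝ) : ℂ) • ((conj (mon x a) : ℂ) • h a) : H)‖ ^ 2 =
      (Fintype.card (σ → Fin N) : ℝ) *
        ((mon (fun i => ‖x i‖) a * ‖h a‖) ^ 2 * (Fintype.card (σ → Fin N) : ℝ)) := by
    intro a
    rw [norm_smul, norm_smul, Complex.norm_real, Real.norm_of_nonneg hcard.le, RCLike.norm_conj,
      mon_norm]
    ring
  simp only [h3] at hbes
  rw [← Finset.mul_sum] at hbes
  exact le_of_mul_le_mul_left hbes hcard

/-- The square sum of the coefficients of a bounded series. -/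
theorem coeff_bound {h : (σ →₀ ℕ) → H} {x : σ → ℂ} {M : ℕ}
    (hx : ∀ t : σ → ℂ, (∀ i, ‖t i‖ = 1) → ∑ n ∈ range M, ‖hp h n (fun i => t i * x i)‖ ^ 2 ≤ 1) :
    ∑ n ∈ range M, ∑ a ∈ S σ n, (mon (fun i => ‖x i‖) a * ‖h a‖) ^ 2 ≤ 1 := by
  set N := M + 1 with hN
  have hcard : (0 : ℝ) < Fintype.card (σ → Fin N) := by
    have : Nonempty (σ → Fin N) := ⟨fun _ => ⟨0, by omega⟩⟩
    exact_mod_cast Fintype.card_pos
  refine le_of_mul_le_mul_right ?_ hcard
  rw [Finset.sum_mul, one_mul]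
  calc ∑ n ∈ range M, (∑ a ∈ S σ n, (mon (fun i => ‖x i‖) a * ‖h a‖) ^ 2) *
        (Fintype.card (σ → Fin N) : ℝ)
      ≤ ∑ n ∈ range M, ∑ τ : σ → Fin N, ‖hp h n (fun i => tp N τ i * x i)‖ ^ 2 := by
        refine Finset.sum_le_sum fun n hn => ?_
        rw [Finset.sum_mul]
        exact hp_coeff (by rw [mem_range] at hn; omega) x
    _ = ∑ τ : σ → Fin N, ∑ n ∈ range M, ‖hp h n (fun i => tp N τ i * x i)‖ ^ 2 :=
        Finset.sum_comm
    _ ≤ ∑ _τ : σ → Fin N, (1 : ℝ) :=
        Finset.sum_le_sum fun τ _ => hx (tp N τ) fun i => rt_norm N (τ i)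
    _ = Fintype.card (σ → Fin N) := by simp

end Pool.Agent.Q93.MC
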