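import Pool.Agent.Q93.MC.Cp

/-!
The certificate near a point: positivity up to the zero set.
-/

set_option autoImplicit false
set_option linter.unusedSectionVars false

open Finset Filter Topology Metric

open scoped ComplexConjugate ComplexOrder

noncomputable section

namespace Pool.Agent.Q93.MC

variable {g : ℕ} {H : Type*} [NormedAddCommGroup H] [InnerProductSpace ℂ H] [CompleteSpace H]

/-- The coefficients `hh` define a bounded function near `c`. -/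
structure Ser (Ω : Set (Fin g → ℂ)) (c : Fin g → ℂ) (hh : (Fin g →₀ ℕ) → H) : Prop where
  zero : hh 0 = 0
  sum : ∀ (z : Fin g → ℂ) (R : ℝ), 0 < R → Good Ω c z R → ∀ ζ ∈ ball (0 : ℂ) R,
    HasSum (fun n => hp hh n (ζ • z)) (Psi hh (ζ • z)) ∧ ‖Psi hh (ζ • z)‖ ≤ 1

variable {Ω : Set (Fin g → ℂ)} {c : Fin g → ℂ} {hh : (Fin g →₀ ℕ) → H}

lemma Ser.sum' (h : Ser Ω c hh) {z : Fin g → ℂ} {R : ℝ} (hR : 0 < R) (hG : Good Ω c z R) :
    ∀ ζ ∈ ball (0 : ℂ) R, HasSum (fun n => ζ ^ n • hp hh n z) (Psi hh ((conj ζ : ℂ) • z)) := by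
  intro ζ hζ
  have h1 := (h.sum z R hR hG (conj ζ) (by
    rw [mem_ball_zero_iff] at hζ ⊢
    rwa [RCLike.norm_conj])).1
  convert h1 using 2 with n
  rw [hp_smul', Complex.conj_conj]

lemma Ser.pars (h : Ser Ω c hh) {z : Fin g → ℂ} {R r : ℝ} (hR : 0 < R) (hG : Good Ω c z R)
    (hr0 : 0 ≤ r) (hr : r < R) (M : ℕ) : ∑ m ∈ range M, (r ^ m * ‖hp hh m z‖) ^ 2 ≤ 1 := by
  refine parseval (h.sum' hR hG) (fun ζ hζ => ?_) hr0 hr M
  refine (h.sum z R hR hG (conj ζ) ?_).2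
  rw [mem_ball_zero_iff] at hζ ⊢
  rwa [RCLike.norm_conj]

lemma Ser.tendsto (h : Ser Ω c hh) {z : Fin g → ℂ} {R : ℝ} (hR : 1 < R) (hG : Good Ω c z R) :
    Tendsto (fun ζ : ℂ => Psi hh (ζ • z)) (𝓝 1) (𝓝 (Psi hh z)) := by
  obtain ⟨r, hr1, hr2⟩ := exists_between hR
  have hsum := summable_norm_coeff (h.sum' (by linarith) hG) (by linarith : (0 : ℝ) ≤ r) hr2
  have h1 : Psi hh z = ∑' n, hp hh n z := rfl
  rw [h1]
  have h2 : ∀ ζ : ℂ, Psi hh (ζ • z) = ∑' n, (conj ζ : ℂ) ^ n • hp hh n z := by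
    intro ζ
    rw [Psi]
    congr 1
    funext n
    rw [hp_smul']
  simp only [h2]
  refine tendsto_tsum_of_dominated_convergence (bound := fun n => r ^ n * ‖hp hh n z‖) hsum ?_ ?_
  · intro n
    have h3 : Continuous fun ζ : ℂ => (conj ζ : ℂ) ^ n • hp hh n z := by fun_prop
    have h4 := h3.tendsto 1
    simpa using h4
  · have h5 : ∀ᶠ ζ in 𝓝 (1 : ℂ), ‖ζ‖ < r :=
      (continuous_norm.tendsto (1 : ℂ)).eventually_lt_const (by simpa using hr1)
    filter_upwards [h5] with ζ hζ n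
    rw [norm_smul, norm_pow, RCLike.norm_conj]
    exact mul_le_mul_of_nonneg_right (pow_le_pow_left₀ (norm_nonneg _) hζ.le n) (norm_nonneg _)

lemma Good.smul {z : Fin g → ℂ} {R : ℝ} (hG : Good Ω c z R) {ζ : ℂ} (hζ : ‖ζ‖ < R) :
    ζ • z ∈ Vc Ω c := by
  rcases eq_or_ne ζ 0 with rfl | h0
  · refine ⟨2, by norm_num, fun ξ _ => ?_⟩
    rw [zero_smul, smul_zero, add_zero]
    have := hG 0 (mem_ball_self (by rw [norm_zero] at hζ; exact hζ))
    simpa using this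
  have hn : 0 < ‖ζ‖ := norm_pos_iff.2 h0
  refine ⟨R / ‖ζ‖, (one_lt_div hn).2 hζ, fun ξ hξ => ?_⟩
  rw [smul_smul]
  apply hG
  rw [mem_ball_zero_iff] at hξ ⊢
  rw [norm_mul]
  rwa [lt_div_iff₀ hn] at hξ

/-- Bessel's inequality for the coefficients. -/
lemma Ser.coeff (h : Ser Ω c hh) {x : Fin g → ℂ} {R : ℝ} (hR : 1 < R)
    (hx : ∀ z : Fin g → ℂ, (∀ j, ‖z j‖ ≤ R * ‖x j‖) → c + z ∈ Ω) (M : ℕ) :
    ∑ n ∈ range M, ∑ a ∈ S (Fin g) n, (mon (fun i => ‖x i‖) a * ‖hh a‖) ^ 2 ≤ 1 := by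
  refine coeff_bound fun t ht => ?_
  have hG : Good Ω c (fun i => t i * x i) R := by
    intro ζ hζ
    refine hx _ fun j => ?_
    rw [mem_ball_zero_iff] at hζ
    rw [Pi.smul_apply, smul_eq_mul, norm_mul, norm_mul, ht j, one_mul]
    exact mul_le_mul_of_nonneg_right hζ.le (norm_nonneg _)
  have h1 := h.pars (by linarith) hG zero_le_one hR M
  simpa using h1

/-- Limits of positive semidefinite matrices. -/
lemma psd_of_tendsto {ι : Type*} {l : Filter ι} [l.NeBot] {n : ℕ}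
    {M : ι → Matrix (Fin n) (Fin n) ℂ} {L : Matrix (Fin n) (Fin n) ℂ}
    (hM : ∀ᶠ i in l, (M i).PosSemidef) (hlim : ∀ a b, Tendsto (fun i => M i a b) l (𝓝 (L a b))) :
    L.PosSemidef := by
  have hherm : L.IsHermitian := by
    ext a b
    rw [Matrix.conjTranspose_apply]
    refine tendsto_nhds_unique ?_ (hlim a b)
    have h1 : Tendsto (fun i => star (M i b a)) l (𝓝 (star (L b a))) :=
      (continuous_star.tendsto _).comp (hlim b a)
    refine h1.congr' ?_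
    filter_upwards [hM] with i hi
    exact hi.1.apply a b
  refine Matrix.PosSemidef.of_dotProduct_mulVec_nonneg hherm fun x => ?_
  have h2 : Tendsto (fun i => star x ⬝ᵥ (Matrix.mulVec (M i) x)) l
      (𝓝 (star x ⬝ᵥ (Matrix.mulVec L x))) := by
    simp only [dotProduct, Matrix.mulVec]
    exact tendsto_finsetSum _ fun a _ => tendsto_const_nhds.mul
      (tendsto_finsetSum _ fun b _ => (hlim a b).mul tendsto_const_nhds)
  refine ge_of_tendsto h2 ?_
  filter_upwards [hM] with i hi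
  exact hi.dotProduct_mulVec_nonneg x

/-- Positivity of the certificate at all points near `c`. -/
theorem psd_Vc {k ℓ p : (Fin g → ℂ) → (Fin g → ℂ) → ℂ}
    (hkc : ContinuousOn (fun q : (Fin g → ℂ) × (Fin g → ℂ) => k q.1 q.2) (Ω ×ˢ Ω))
    (hd : Data Ω ℓ c p) (hs : Ser Ω c hh)
    (hin : ∀ z ∈ Vc Ω c, ∀ w ∈ Vc Ω c, ℓ (c + z) c ≠ 0 → ℓ (c + w) c ≠ 0 →
        inner ℂ (Psi hh z) (Psi hh w) = p (c + z) (c + w))
    (hker : IsKer {z | z ∈ Ω ∧ ℓ z z ≠ 0}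
      fun z w => p z w * k z w - (k z w - k z c * k c w / k c c)) :
    IsKer (Vc Ω c) fun z w => inner ℂ (Psi hh z) (Psi hh w) * k (c + z) (c + w) -
      (k (c + z) (c + w) - k (c + z) c * k c (c + w) / k c c) := by
  intro n z hz
  choose R hR hG using hz
  set K : (Fin g → ℂ) → (Fin g → ℂ) → ℂ := fun z w =>
    inner ℂ (Psi hh z) (Psi hh w) * k (c + z) (c + w) -
      (k (c + z) (c + w) - k (c + z) c * k c (c + w) / k c c) with hK
  -- the matrices at nearby points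
  have hev : ∀ᶠ ζ in 𝓝[≠] (1 : ℂ), (Matrix.of fun i j => K (ζ • z i) (ζ • z j)).PosSemidef := by
    have h1 : ∀ i, ∀ᶠ ζ in 𝓝[≠] (1 : ℂ), ζ • z i ∈ Vc Ω c ∧ ℓ (c + ζ • z i) c ≠ 0 ∧
        c + ζ • z i ∈ Ω := by
      intro i
      have h2 : ∀ᶠ ζ in 𝓝[≠] (1 : ℂ), ‖ζ‖ < R i :=
        ((continuous_norm.tendsto (1 : ℂ)).eventually_lt_const (by simpa using hR i)).filter_mono
          nhdsWithin_le_nhds
      have h3 : DifferentiableOn ℂ (fun ζ : ℂ => ℓ (c + ζ • z i) c) (ball 0 (R i)) :=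
        (hd.hol c hd.mem).comp (by fun_prop) (line_cont (hG i))
      have h4 := isolated h3 (by linarith [hR i]) (by simpa using hd.ne)
        (ζ := 1) (by simpa using hR i)
      filter_upwards [h2, h4] with ζ h5 h6
      exact ⟨(hG i).smul h5, h6, hG i ζ (by rwa [mem_ball_zero_iff])⟩
    filter_upwards [Filter.eventually_all.2 h1] with ζ hζ
    have h2 := hker n (fun i => c + ζ • z i) fun i =>
      ⟨(hζ i).2.2, hd.ne_of_ne (hζ i).2.2 (hζ i).2.1⟩
    convert h2 using 2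
    ext i j
    simp only [hK]
    rw [hin _ (hζ i).1 _ (hζ j).1 (hζ i).2.1 (hζ j).2.1]
  -- the limit of the entries
  have hlim : ∀ i j, Tendsto (fun ζ : ℂ => K (ζ • z i) (ζ • z j)) (𝓝[≠] 1) (𝓝 (K (z i) (z j))) := by
    intro i j
    have hmem : ∀ i, c + z i ∈ Ω := by
      intro i
      have := hG i 1 (by simpa using hR i)
      rwa [one_smul] at this
    have hk2 : ∀ u v : Fin g → ℂ, u ∈ Ω → v ∈ Ω → ∀ f₁ f₂ : ℂ → (Fin g → ℂ),
        Tendsto f₁ (𝓝 1) (𝓝 u) → Tendsto f₂ (𝓝 1) (𝓝 v) →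
        Tendsto (fun ζ => k (f₁ ζ) (f₂ ζ)) (𝓝 1) (𝓝 (k u v)) := by
      intro u v hu hv f₁ f₂ h₁ h₂
      have h1 : ContinuousAt (fun q : (Fin g → ℂ) × (Fin g → ℂ) => k q.1 q.2) (u, v) :=
        hkc.continuousAt ((hd.isOpen.prod hd.isOpen).mem_nhds ⟨hu, hv⟩)
      exact h1.tendsto.comp (h₁.prodMk_nhds h₂)
    have hl : ∀ i, Tendsto (fun ζ : ℂ => c + ζ • z i) (𝓝 1) (𝓝 (c + z i)) := by
      intro i
      have h1 : Continuous fun ζ : ℂ => c + ζ • z i := by fun_prop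
      simpa using h1.tendsto 1
    refine Tendsto.mono_left ?_ nhdsWithin_le_nhds
    refine Tendsto.sub (Tendsto.mul ?_ ?_) (Tendsto.sub ?_ (Tendsto.div_const (Tendsto.mul ?_ ?_) _))
    · exact (hs.tendsto (hR i) (hG i)).inner (hs.tendsto (hR j) (hG j))
    · exact hk2 _ _ (hmem i) (hmem j) _ _ (hl i) (hl j)
    · exact hk2 _ _ (hmem i) (hmem j) _ _ (hl i) (hl j)
    · exact hk2 _ _ (hmem i) hd.mem _ _ (hl i) tendsto_const_nhds
    · exact hk2 _ _ hd.mem (hmem j) _ _ tendsto_const_nhds (hl j)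
  exact psd_of_tendsto hev hlim

end Pool.Agent.Q93.MC
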