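import Pool.Agent.Q93.MC.Psd

/-!
Absolutely convergent expansions and the scalar form of a certificate at a point.
-/

set_option autoImplicit false
set_option linter.unusedSectionVars false

open Finset Filter Topology Metric

open scoped ComplexConjugate ComplexOrder

noncomputable section

namespace Pool.Agent.Q93.MC

variable {g : ℕ}

/-- The multivariate geometric series converges. -/
lemma summable_mon {t : Fin g → ℝ} (ht0 : ∀ j, 0 ≤ t j) (ht1 : ∀ j, t j < 1) :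
    Summable fun a : Fin g →₀ ℕ => mon t a := by
  have h1 : Summable fun a : Fin g → ℕ => ∏ j, t j ^ a j := by
    refine summable_of_sum_le (c := ∏ j, (1 - t j)⁻¹)
      (fun a => Finset.prod_nonneg fun j _ => pow_nonneg (ht0 j) _) fun F => ?_
    let M : ℕ := (F.sup fun a => ∑ j, a j) + 1
    have h2 : F ⊆ Fintype.piFinset fun _ : Fin g => range M := by
      intro a ha
      rw [Fintype.mem_piFinset]
      intro j
      rw [mem_range]
      have h3 : a j ≤ ∑ j, a j := Finset.single_le_sum (f := a) (fun _ _ => Nat.zero_le _) (mem_univ j)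
      have h4 : ∑ j, a j ≤ F.sup fun a => ∑ j, a j := Finset.le_sup (f := fun a : Fin g → ℕ => ∑ j, a j) ha
      omega
    calc ∑ a ∈ F, ∏ j, t j ^ a j ≤ ∑ a ∈ Fintype.piFinset fun _ : Fin g => range M, ∏ j, t j ^ a j :=
          Finset.sum_le_sum_of_subset_of_nonneg h2
            fun a _ _ => Finset.prod_nonneg fun j _ => pow_nonneg (ht0 j) _
      _ = ∏ j, ∑ i ∈ range M, t j ^ i := by
          rw [Finset.prod_univ_sum]
      _ ≤ ∏ j, (1 - t j)⁻¹ := by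
          refine Finset.prod_le_prod (fun j _ => Finset.sum_nonneg fun i _ => pow_nonneg (ht0 j) _)
            fun j _ => ?_
          rw [← tsum_geometric_of_lt_one (ht0 j) (ht1 j)]
          exact (summable_geometric_of_lt_one (ht0 j) (ht1 j)).sum_le_tsum _
            fun i _ => pow_nonneg (ht0 j) _
  have h5 := (Finsupp.equivFunOnFinite (α := Fin g) (M := ℕ)).summable_iff.2 h1
  exact h5

lemma mon_mono {t u : Fin g → ℝ} (ht : ∀ j, 0 ≤ t j) (htu : ∀ j, t j ≤ u j) (a : Fin g →₀ ℕ) :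
    mon t a ≤ mon u a :=
  Finset.prod_le_prod (fun j _ => pow_nonneg (ht j) _)
    fun j _ => pow_le_pow_left₀ (ht j) (htu j) _

lemma mon_const {R : Type*} [CommMonoid R] (r : R) (a : Fin g →₀ ℕ) :
    mon (fun _ => r) a = r ^ ∑ j, a j := by
  simp [mon, Finset.prod_pow_eq_pow_sum]

variable {H : Type*} [NormedAddCommGroup H] [InnerProductSpace ℂ H] [CompleteSpace H]

/-- Bounded coefficients give absolutely summable series on smaller polydiscs. -/
lemma summable_vec {hh : (Fin g →₀ ℕ) → H} {ρ s : ℝ} (hs0 : 0 ≤ s) (hsρ : s < ρ)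
    (hb : ∀ a : Fin g →₀ ℕ, ρ ^ (∑ j, a j) * ‖hh a‖ ≤ 1) {z : Fin g → ℂ} (hz : ∀ j, ‖z j‖ ≤ s) :
    (∀ a, ‖(conj (mon z a) : ℂ) • hh a‖ ≤ mon (fun _ => s / ρ) a) ∧
    Summable fun a : Fin g →₀ ℕ => ‖(conj (mon z a) : ℂ) • hh a‖ := by
  have hρ : 0 < ρ := lt_of_le_of_lt hs0 hsρ
  have h1 : ∀ a, ‖(conj (mon z a) : ℂ) • hh a‖ ≤ mon (fun _ => s / ρ) a := by
    intro a
    rw [norm_smul, RCLike.norm_conj, mon_norm, mon_const, div_pow]
    have h2 := mon_mono (t := fun j => ‖z j‖) (u := fun _ => s) (fun j => norm_nonneg _) hz a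
    rw [mon_const] at h2
    have h3 : ‖hh a‖ ≤ 1 / ρ ^ (∑ j, a j) := by
      rw [le_div_iff₀ (pow_pos hρ _), mul_comm]
      exact hb a
    calc mon (fun j => ‖z j‖) a * ‖hh a‖ ≤ s ^ (∑ j, a j) * (1 / ρ ^ (∑ j, a j)) :=
          mul_le_mul h2 h3 (norm_nonneg _) (pow_nonneg hs0 _)
      _ = s ^ (∑ j, a j) / ρ ^ (∑ j, a j) := by ring
  refine ⟨h1, Summable.of_nonneg_of_le (fun a => norm_nonneg _) h1
    (summable_mon (fun _ => by positivity) fun _ => (div_lt_one hρ).2 hsρ)⟩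

lemma tsum_fiber {hh : (Fin g →₀ ℕ) → H} {z : Fin g → ℂ}
    (hsum : Summable fun a : Fin g →₀ ℕ => (conj (mon z a) : ℂ) • hh a) :
    Psi hh z = ∑' a, (conj (mon z a) : ℂ) • hh a := by
  have h1 := (hsum.hasSum).tsum_fiberwise (fun a : Fin g →₀ ℕ => ∑ j, a j)
  rw [← h1.tsum_eq, Psi]
  congr 1
  funext n
  rw [hp]
  have h2 : (fun a : Fin g →₀ ℕ => ∑ j, a j) ⁻¹' {n} = (S (Fin g) n : Set (Fin g →₀ ℕ)) := by
    ext a
    rw [Set.mem_preimage, Set.mem_singleton_iff, Finset.mem_coe, mem_S]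
  rw [h2]
  exact (Finset.tsum_subtype' (S (Fin g) n) fun a => (conj (mon z a) : ℂ) • hh a).symm

/-- The sum of a double power series. -/
def PG (G : (Fin g →₀ ℕ) → (Fin g →₀ ℕ) → ℂ) (z w : Fin g → ℂ) : ℂ :=
  ∑' q : (Fin g →₀ ℕ) × (Fin g →₀ ℕ), G q.1 q.2 * mon z q.1 * conj (mon w q.2)

lemma inner_Psi {hh : (Fin g →₀ ℕ) → H} {z w : Fin g → ℂ}
    (hz : Summable fun a : Fin g →₀ ℕ => ‖(conj (mon z a) : ℂ) • hh a‖)
    (hw : Summable fun a : Fin g →₀ ℕ => ‖(conj (mon w a) : ℂ) • hh a‖) :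
    inner ℂ (Psi hh z) (Psi hh w) = PG (fun a b => inner ℂ (hh a) (hh b)) z w := by
  have e1 : ∀ a b, inner ℂ (hh a) (hh b) * mon z a * conj (mon w b) =
      inner ℂ ((conj (mon z a) : ℂ) • hh a) ((conj (mon w b) : ℂ) • hh b) := by
    intro a b
    rw [inner_smul_left, inner_smul_right, Complex.conj_conj]
    ring
  have hs : Summable fun q : (Fin g →₀ ℕ) × (Fin g →₀ ℕ) =>
      inner ℂ ((conj (mon z q.1) : ℂ) • hh q.1) ((conj (mon w q.2) : ℂ) • hh q.2) := by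
    refine Summable.of_norm_bounded (hz.mul_of_nonneg hw (fun _ => norm_nonneg _)
      fun _ => norm_nonneg _) fun q => ?_
    exact norm_inner_le_norm _ _
  rw [PG]
  simp only [e1]
  rw [hs.tsum_prod, tsum_fiber hz.of_norm, tsum_fiber hw.of_norm]
  set y := ∑' a, (conj (mon w a) : ℂ) • hh a with hy
  have h3 : ∀ a, ∑' b, inner ℂ ((conj (mon z a) : ℂ) • hh a) ((conj (mon w b) : ℂ) • hh b) =
      inner ℂ ((conj (mon z a) : ℂ) • hh a) y := by
    intro a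
    have h4 := (innerSL ℂ ((conj (mon z a) : ℂ) • hh a)).hasSum hw.of_norm.hasSum
    exact h4.tsum_eq
  simp only [h3]
  have h5 : HasSum (fun a => inner ℂ ((conj (mon z a) : ℂ) • hh a) y)
      (inner ℂ (∑' a, (conj (mon z a) : ℂ) • hh a) y) := by
    have h6 := (innerSL ℂ y).hasSum hz.of_norm.hasSum
    have h7 := h6.map (starRingEnd ℂ).toAddMonoidHom Complex.continuous_conj
    convert h7 using 1
    · funext a
      exact (inner_conj_symm _ _).symm
    · exact (inner_conj_symm _ _).symm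
  exact h5.tsum_eq.symm

/-- The scalar form of a certificate at `c`. -/
theorem scalar_data {Ω : Set (Fin g → ℂ)} (hΩ : IsOpen Ω) (hconn : IsPreconnected Ω)
    {k ℓ : (Fin g → ℂ) → (Fin g → ℂ) → ℂ} (hk : IsKer Ω k) (hℓ : IsKer Ω ℓ)
    (hkc : ContinuousOn (fun q : (Fin g → ℂ) × (Fin g → ℂ) => k q.1 q.2) (Ω ×ˢ Ω))
    (hcont : ContinuousOn (fun q : (Fin g → ℂ) × (Fin g → ℂ) => ℓ q.1 q.2) (Ω ×ˢ Ω))
    (hhol : ∀ w ∈ Ω, DifferentiableOn ℂ (fun z => ℓ z w) Ω) (hcp : IsCP k ℓ Ω)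
    {c : Fin g → ℂ} (hc : c ∈ Ω) (hℓc : ℓ c c ≠ 0) :
    ∃ G : (Fin g →₀ ℕ) → (Fin g →₀ ℕ) → ℂ, G 0 0 = 0 ∧
      (∀ a, 0 ≤ (G a a).re) ∧ (∀ a b, ‖G a b‖ ^ 2 ≤ (G a a).re * (G b b).re) ∧
      (∀ (x : Fin g → ℂ) (R : ℝ), 1 < R →
        (∀ z : Fin g → ℂ, (∀ j, ‖z j‖ ≤ R * ‖x j‖) → c + z ∈ Ω) → ∀ M,
          ∑ n ∈ range M, ∑ a ∈ S (Fin g) n, (mon (fun i => ‖x i‖) a) ^ 2 * (G a a).re ≤ 1) ∧
      (∀ s ρ R : ℝ, 0 ≤ s → s < ρ → 1 < R → (∀ z : Fin g → ℂ, (∀ j, ‖z j‖ ≤ R * ρ) → c + z ∈ Ω) →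
        IsKer {z | ∀ j, ‖z j‖ ≤ s} fun z w => PG G z w * k (c + z) (c + w) -
          (k (c + z) (c + w) - k (c + z) c * k c (c + w) / k c c)) := by
  obtain ⟨p, hd, hker⟩ := exists_data hΩ hconn hk hℓ hcont hhol hcp hc hℓc
  obtain ⟨H, i1, i2, i3, hh, h0, h1, h2⟩ := hd.series
  have hs : Ser Ω c hh := ⟨h0, h1⟩
  have hpsd := psd_Vc hkc hd hs h2 hker
  have hnorm : ∀ a, (inner ℂ (hh a) (hh a)).re = ‖hh a‖ ^ 2 := fun a => by
    rw [← @inner_self_eq_norm_sq ℂ]; rfl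
  refine ⟨fun a b => inner ℂ (hh a) (hh b), ?_, fun a => ?_, fun a b => ?_, ?_, ?_⟩
  · beta_reduce
    rw [h0, inner_zero_left]
  · rw [hnorm]; positivity
  · rw [hnorm, hnorm, ← mul_pow]
    exact pow_le_pow_left₀ (norm_nonneg _) (norm_inner_le_norm _ _) 2
  · intro x R hR hx M
    have h3 := hs.coeff hR hx M
    simp only [hnorm]
    simpa only [mul_pow] using h3
  · intro s ρ R hs0 hsρ hR hx
    have hρ : 0 < ρ := lt_of_le_of_lt hs0 hsρ
    have hb : ∀ a : Fin g →₀ ℕ, ρ ^ (∑ j, a j) * ‖hh a‖ ≤ 1 := by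
      intro a
      have h3 := hs.coeff (x := fun _ => (ρ : ℂ)) hR (by
        intro z hz
        refine hx z fun j => ?_
        have := hz j
        rwa [Complex.norm_real, Real.norm_of_nonneg hρ.le] at this) (∑ j, a j + 1)
      have h4 : (mon (fun _ : Fin g => ‖(ρ : ℂ)‖) a * ‖hh a‖) ^ 2 ≤ 1 := by
        refine le_trans ?_ h3
        refine le_trans ?_ (Finset.single_le_sum (f := fun n => ∑ a ∈ S (Fin g) n,
          (mon (fun _ : Fin g => ‖(ρ : ℂ)‖) a * ‖hh a‖) ^ 2)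
          (fun n _ => Finset.sum_nonneg fun a _ => by positivity)
          (mem_range.2 (Nat.lt_succ_self (∑ j, a j))))
        exact Finset.single_le_sum (f := fun a => (mon (fun _ : Fin g => ‖(ρ : ℂ)‖) a * ‖hh a‖) ^ 2)
          (fun a _ => by positivity) (mem_S.2 rfl)
      rw [mon_const, Complex.norm_real, Real.norm_of_nonneg hρ.le] at h4
      exact (sq_le_one_iff₀ (by positivity)).1 h4
    have hV : ∀ z : Fin g → ℂ, (∀ j, ‖z j‖ ≤ s) → z ∈ Vc Ω c := by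
      intro z hz
      refine ⟨R, hR, fun ζ hζ => hx _ fun j => ?_⟩
      rw [mem_ball_zero_iff] at hζ
      rw [Pi.smul_apply, smul_eq_mul, norm_mul]
      exact mul_le_mul hζ.le ((hz j).trans hsρ.le) (norm_nonneg _) (by linarith)
    intro n z hz
    have h5 := hpsd n z fun i => hV _ (hz i)
    convert h5 using 2
    ext i j
    beta_reduce
    rw [inner_Psi (summable_vec hs0 hsρ hb (hz i)).2 (summable_vec hs0 hsρ hb (hz j)).2]

end Pool.Agent.Q93.MC
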