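import Pool.Agent.Q93.MC.Local

/-!
The power series of a certificate at a point: the local theorem.
-/

set_option autoImplicit false
set_option linter.unusedSectionVars false

open Finset Filter Topology Metric

open scoped ComplexConjugate ComplexOrder

noncomputable section

namespace Pool.Agent.Q93.MC

variable {g : ℕ}

lemma iteratedDeriv_clm {B B' : Type*} [NormedAddCommGroup B] [NormedSpace ℂ B]
    [NormedAddCommGroup B'] [NormedSpace ℂ B'] (L : B →L[ℂ] B') {f : ℂ → B} {x : ℂ} {n : ℕ}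
    (hf : ContDiffAt ℂ n f x) : iteratedDeriv n (fun ζ => L (f ζ)) x = L (iteratedDeriv n f x) := by
  have h := L.iteratedFDeriv_comp_left (f := f) (x := x) (n := n) (i := n) hf le_rfl
  simp only [iteratedDeriv_eq_iteratedFDeriv]
  change iteratedFDeriv ℂ n (L ∘ f) x _ = _
  rw [h]
  rfl

/-- The line through `c` in direction `z` stays in `Ω` for parameters of modulus less than `R`. -/
def Good (Ω : Set (Fin g → ℂ)) (c z : Fin g → ℂ) (R : ℝ) : Prop :=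
  ∀ ζ ∈ ball (0 : ℂ) R, c + ζ • z ∈ Ω

lemma exists_good {Ω : Set (Fin g → ℂ)} (hΩ : IsOpen Ω) {c : Fin g → ℂ} (hc : c ∈ Ω)
    (z : Fin g → ℂ) : ∃ R : ℝ, 0 < R ∧ Good Ω c z R := by
  have h1 : Continuous fun ζ : ℂ => c + ζ • z := by fun_prop
  have h2 : (fun ζ : ℂ => c + ζ • z) ⁻¹' Ω ∈ 𝓝 (0 : ℂ) := by
    refine h1.continuousAt.preimage_mem_nhds (hΩ.mem_nhds ?_)
    simpa using hc
  obtain ⟨R, hR, hsub⟩ := Metric.mem_nhds_iff.1 h2
  exact ⟨R, hR, fun ζ hζ => hsub hζ⟩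

/-- the domain of convergence -/
def Vc (Ω : Set (Fin g → ℂ)) (c : Fin g → ℂ) : Set (Fin g → ℂ) :=
  {z | ∃ R : ℝ, 1 < R ∧ Good Ω c z R}

variable {H : Type*} [NormedAddCommGroup H] [InnerProductSpace ℂ H] [CompleteSpace H]

/-- the sum of the series -/
def Psi (h : (Fin g →₀ ℕ) → H) (z : Fin g → ℂ) : H := ∑' n, hp h n z

section Quot

variable {K B : Type*} [NormedAddCommGroup K] [NormedSpace ℂ K] [NormedAddCommGroup B]
  [NormedSpace ℂ B] [CompleteSpace B]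

lemma line_cont {Ω : Set (Fin g → ℂ)} {c z : Fin g → ℂ} {R : ℝ} (hG : Good Ω c z R) :
    Set.MapsTo (fun ζ : ℂ => c + ζ • z) (ball 0 R) Ω := fun ζ hζ => hG ζ hζ

/-- The power series of the quotient. -/
theorem quot_series {Ω : Set (Fin g → ℂ)} (hΩ : IsOpen Ω) {c : Fin g → ℂ} (hc : c ∈ Ω)
    {L : (Fin g → ℂ) → ℂ} (hL : DifferentiableOn ℂ L Ω) (hLc : L c ≠ 0)
    {E : (Fin g → ℂ) → K →L[ℂ] ℂ} (hE : ContinuousOn E Ω) {T : Set K}
    (hT : DenseRange (Submodule.span ℂ T).subtype)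
    (hw : ∀ y ∈ T, DifferentiableOn ℂ (fun z => E z y) Ω) (A : (K →L[ℂ] ℂ) →L[ℂ] B)
    (hb : ∀ z ∈ Ω, L z ≠ 0 → ‖(L z)⁻¹ • A (E z)‖ ≤ 1) :
    ∃ β : (Fin g →₀ ℕ) → B, β 0 = (L c)⁻¹ • A (E c) ∧
      ∀ (z : Fin g → ℂ) (R : ℝ), 0 < R → Good Ω c z R → ∃ Ψ : ℂ → B,
        (∀ ζ ∈ ball (0 : ℂ) R, ‖Ψ ζ‖ ≤ 1) ∧
        (∀ ζ ∈ ball (0 : ℂ) R, L (c + ζ • z) ≠ 0 →
          Ψ ζ = (L (c + ζ • z))⁻¹ • A (E (c + ζ • z))) ∧
        ∀ ζ ∈ ball (0 : ℂ) R, HasSum (fun n => ζ ^ n • ∑ a ∈ S (Fin g) n, mon z a • β a) (Ψ ζ) := by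
  -- slices
  have hslice : ∀ (z : Fin g → ℂ) (R : ℝ), Good Ω c z R →
      DifferentiableOn ℂ (fun ζ : ℂ => E (c + ζ • z)) (ball 0 R) := by
    intro z R hG
    refine strong_of_weak (hE.comp (by fun_prop) (line_cont hG)) hT fun y hy => ?_
    exact (hw y hy).comp (by fun_prop) (line_cont hG)
  have hLslice : ∀ (z : Fin g → ℂ) (R : ℝ), Good Ω c z R →
      DifferentiableOn ℂ (fun ζ : ℂ => L (c + ζ • z)) (ball 0 R) := by
    intro z R hG
    exact hL.comp (by fun_prop) (line_cont hG)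
  -- Taylor polynomials of `E`
  have hEcd : ∀ (z : Fin g → ℂ) (n : ℕ), ContDiffAt ℂ n (fun ζ : ℂ => E (c + ζ • z)) 0 := by
    intro z n
    obtain ⟨R, hR, hG⟩ := exists_good hΩ hc z
    have h1 : ContDiffOn ℂ n (fun ζ : ℂ => E (c + ζ • z)) (ball 0 R) :=
      (hslice z R hG).contDiffOn isOpen_ball
    exact h1.contDiffAt (isOpen_ball.mem_nhds (mem_ball_self hR))
  have hEHP : ∀ n : ℕ, HP n fun z : Fin g → ℂ => iteratedDeriv n (fun ζ : ℂ => E (c + ζ • z)) 0 := by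
    intro n
    refine HP_of_dense hT fun y hy => ?_
    have h1 := HP_line hΩ (contDiffOn_of_diff hΩ (hw y hy)) hc n
    convert h1 using 2 with z
    exact (iteratedDeriv_clm (ContinuousLinearMap.apply ℂ ℂ y) (hEcd z n)).symm
  have hBHP : ∀ n : ℕ, HP n fun z : Fin g → ℂ =>
      iteratedDeriv n (fun ζ : ℂ => A (E (c + ζ • z))) 0 := by
    intro n
    have h1 := (hEHP n).comp A
    convert h1 using 2 with z
    exact iteratedDeriv_clm A (hEcd z n)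
  -- the inverse of `L`
  have hopen : IsOpen {z | z ∈ Ω ∧ L z ≠ 0} :=
    hL.continuousOn.isOpen_inter_preimage hΩ isOpen_compl_singleton
  have hinv : DifferentiableOn ℂ (fun z => (L z)⁻¹) {z | z ∈ Ω ∧ L z ≠ 0} := by
    refine DifferentiableOn.inv (hL.mono fun z hz => hz.1) fun z hz => hz.2
  have hIHP : ∀ n : ℕ, HP n fun z : Fin g → ℂ =>
      iteratedDeriv n (fun ζ : ℂ => (L (c + ζ • z))⁻¹) 0 := fun n =>
    HP_line hopen (contDiffOn_of_diff hopen hinv) ⟨hc, hLc⟩ n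
  have hIcd : ∀ (z : Fin g → ℂ) (n : ℕ), ContDiffAt ℂ n (fun ζ : ℂ => (L (c + ζ • z))⁻¹) 0 := by
    intro z n
    obtain ⟨R, hR, hG⟩ := exists_good hopen (c := c) ⟨hc, hLc⟩ z
    have h1 : DifferentiableOn ℂ (fun ζ : ℂ => (L (c + ζ • z))⁻¹) (ball 0 R) :=
      hinv.comp (by fun_prop) (line_cont hG)
    have h2 : ContDiffOn ℂ n (fun ζ : ℂ => (L (c + ζ • z))⁻¹) (ball 0 R) :=
      h1.contDiffOn isOpen_ball
    exact h2.contDiffAt (isOpen_ball.mem_nhds (mem_ball_self hR))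
  have hQHP : ∀ n : ℕ, HP n fun z : Fin g → ℂ =>
      iteratedDeriv n (fun ζ : ℂ => (L (c + ζ • z))⁻¹ • A (E (c + ζ • z))) 0 := by
    intro n
    have h1 : HP n fun z : Fin g → ℂ => ∑ i ∈ range (n + 1), (n.choose i : ℂ) •
        (iteratedDeriv i (fun ζ : ℂ => (L (c + ζ • z))⁻¹) 0 •
          iteratedDeriv (n - i) (fun ζ : ℂ => A (E (c + ζ • z))) 0) := by
      refine HP.sum _ fun i hi => ?_
      have h2 := ((hIHP i).smul (hBHP (n - i))).const_smul (n.choose i : ℂ)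
      rw [mem_range] at hi
      rwa [show i + (n - i) = n by omega] at h2
    convert h1 using 2 with z
    have h3 := iteratedDerivWithin_smul (n := n) (Set.mem_univ (0 : ℂ)) uniqueDiffOn_univ
      (f := fun ζ : ℂ => (L (c + ζ • z))⁻¹) (g := fun ζ : ℂ => A (E (c + ζ • z)))
      (hIcd z n).contDiffWithinAt (A.contDiff.contDiffAt.comp 0 (hEcd z n)).contDiffWithinAt
    simp only [iteratedDerivWithin_univ] at h3
    refine h3.trans (Finset.sum_congr rfl fun i _ => ?_)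
    rw [Nat.cast_smul_eq_nsmul]
  choose b hbn using hQHP
  refine ⟨fun a => ((∑ j, a j).factorial : ℂ)⁻¹ • b (∑ j, a j) a, ?_, fun z R hR hG => ?_⟩
  · have h1 := hbn 0 0
    have h2 : (S (Fin g) 0 : Finset (Fin g →₀ ℕ)) = {0} := by
      ext a
      rw [mem_S, mem_singleton]
      constructor
      · intro h
        ext j
        have := Finset.sum_eq_zero_iff.1 h j (mem_univ j)
        simpa using this
      · rintro rfl
        simp
    rw [h2, Finset.sum_singleton] at h1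
    simp only [iteratedDeriv_zero, smul_zero, add_zero, mon_zero, one_smul] at h1
    simp [h1]
  obtain ⟨Ψ, h1, h2, h3⟩ := extend (B := B) (φ := fun ζ : ℂ => L (c + ζ • z)) hR (hLslice z R hG)
    (by simpa using hLc) (Φ := fun ζ => (L (c + ζ • z))⁻¹ • A (E (c + ζ • z)))
    (by
      refine DifferentiableOn.smul ?_ ?_
      · refine DifferentiableOn.inv ((hLslice z R hG).mono fun ζ hζ => hζ.1) fun ζ hζ => hζ.2
      · exact A.differentiable.comp_differentiableOn ((hslice z R hG).mono fun ζ hζ => hζ.1))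
    (M := 1) (fun ζ hζ hζ0 => hb _ (hG ζ hζ) hζ0)
  refine ⟨Ψ, h2, h3, fun ζ hζ => ?_⟩
  have h4 := Complex.hasSum_taylorSeries_on_ball h1 hζ
  have h5 : ∀ n, iteratedDeriv n Ψ 0 = ∑ a ∈ S (Fin g) n, mon z a • b n a := by
    intro n
    rw [← hbn n z]
    refine Filter.EventuallyEq.iteratedDeriv_eq n ?_
    have h6 : ∀ᶠ ζ in 𝓝 (0 : ℂ), L (c + ζ • z) ≠ 0 := by
      have h7 : ContinuousAt (fun ζ : ℂ => L (c + ζ • z)) 0 :=
        ((hLslice z R hG).differentiableAt (isOpen_ball.mem_nhds (mem_ball_self hR))).continuousAt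
      exact h7.eventually_ne (by simpa using hLc)
    filter_upwards [h6, isOpen_ball.mem_nhds (mem_ball_self hR)] with ζ h8 h9
    exact h3 ζ h9 h8
  convert h4 using 2 with n
  rw [h5, sub_zero, smul_comm ((n.factorial : ℂ)⁻¹) (ζ ^ n)]
  congr 1
  rw [Finset.smul_sum]
  refine Finset.sum_congr rfl fun a ha => ?_
  beta_reduce
  rw [mem_S.1 ha, smul_comm (mon z a)]

end Quot

lemma hp_smul' (h : (Fin g →₀ ℕ) → H) (n : ℕ) (c : ℂ) (z : Fin g → ℂ) :
    hp h n (c • z) = (conj c : ℂ) ^ n • hp h n z := hp_smul h n c z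

lemma psd_sum {X : Type*} {M : Matrix X X ℂ} (h : M.PosSemidef) (F : Finset X) (v : X → ℂ) :
    0 ≤ ∑ i ∈ F, ∑ j ∈ F, conj (v i) * M i j * v j := by
  classical
  let x : X →₀ ℂ := Finsupp.onFinset F (fun i => if i ∈ F then v i else 0) (by
    intro a ha
    by_contra h0
    simp [h0] at ha)
  have hx : ∀ i ∈ F, x i = v i := fun i hi => by simp [x, hi]
  have hs : x.support ⊆ F := Finsupp.support_onFinset_subset
  have h1 := h.2 x
  rw [Finsupp.sum_of_support_subset x hs _ (by simp)] at h1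
  refine le_of_le_of_eq h1 (Finset.sum_congr rfl fun i hi => ?_)
  rw [Finsupp.sum_of_support_subset x hs _ (by simp)]
  refine Finset.sum_congr rfl fun j hj => ?_
  rw [hx i hi, hx j hj]
  rfl

/-- The local theorem: a certificate at a point is given by a power series. -/
theorem Data.series {Ω : Set (Fin g → ℂ)} {ℓ : (Fin g → ℂ) → (Fin g → ℂ) → ℂ} {c : Fin g → ℂ}
    {p : (Fin g → ℂ) → (Fin g → ℂ) → ℂ} (h : Data Ω ℓ c p) :
    ∃ (H : Type) (_ : NormedAddCommGroup H) (_ : InnerProductSpace ℂ H) (_ : CompleteSpace H)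
      (hh : (Fin g →₀ ℕ) → H), hh 0 = 0 ∧
      (∀ (z : Fin g → ℂ) (R : ℝ), 0 < R → Good Ω c z R → ∀ ζ ∈ ball (0 : ℂ) R,
        HasSum (fun n => hp hh n (ζ • z)) (Psi hh (ζ • z)) ∧ ‖Psi hh (ζ • z)‖ ≤ 1) ∧
      (∀ z ∈ Vc Ω c, ∀ w ∈ Vc Ω c, ℓ (c + z) c ≠ 0 → ℓ (c + w) c ≠ 0 →
        inner ℂ (Psi hh z) (Psi hh w) = p (c + z) (c + w)) := by
  classical
  obtain ⟨Hl, i1, i2, i3, ψ, hψ, hψd⟩ := feature (Matrix.of fun x y : Ω => ℓ x y) h.ker.matrix
  let N : Set (Fin g → ℂ) := {z | z ∈ Ω ∧ ℓ z z ≠ 0}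
  obtain ⟨Hp, j1, j2, j3, φ, hφ, hφd⟩ := feature (Matrix.of fun x y : N => p x y) h.pker.matrix
  simp only [Matrix.of_apply] at hψ hφ
  have hψc : Continuous ψ := h.cont_feat hψ
  -- the inclusion
  let ι : N → Ω := fun x => ⟨x.1, x.2.1⟩
  have hNd : (Submodule.span ℂ (Set.range fun x : N => ψ (ι x))).topologicalClosure = ⊤ := by
    rw [eq_top_iff, ← hψd]
    refine Submodule.topologicalClosure_minimal _ (Submodule.span_le.2 ?_)
      (Submodule.isClosed_topologicalClosure _)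
    rintro _ ⟨x, rfl⟩
    have h1 : x ∈ closure (Set.range ι) := by
      rw [mem_closure_iff_frequently]
      have h2 := h.freq x.2
      intro hcon
      apply h2
      have h3 : Tendsto (fun y : Ω => (y : Fin g → ℂ)) (𝓝 x) (𝓝 x.1) := continuous_subtype_val.continuousAt
      rw [nhds_subtype_eq_comap, Filter.eventually_comap] at hcon
      filter_upwards [hcon] with w hw hw2
      exact hw ⟨w, hw2.1⟩ rfl ⟨⟨w, hw2⟩, rfl⟩
    have h4 : ψ x ∈ closure (ψ '' Set.range ι) := image_closure_subset_closure_image hψc ⟨x, h1, rfl⟩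
    rw [← Set.range_comp] at h4
    exact closure_mono Submodule.subset_span h4
  obtain ⟨C, hC, hdom⟩ := h.dom
  -- the operator
  obtain ⟨A, hA⟩ := exists_op (fun x : N => ψ (ι x)) (fun x : N => (conj (ℓ x c) : ℂ) • φ x) hNd
    (C := Real.sqrt C) (by
      intro F v
      have h1 := hdom.matrix
      rw [← Real.sqrt_sq (norm_nonneg (∑ i ∈ F, v i • ψ (ι i))), ← Real.sqrt_mul hC,
        ← Real.sqrt_sq (norm_nonneg (∑ i ∈ F, v i • _))]
      apply Real.sqrt_le_sqrt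
      have h2 := norm_sq_comb (fun x : N => ψ (ι x)) F v
      have h3 := norm_sq_comb (fun x : N => (conj (ℓ x c) : ℂ) • φ x) F v
      have h4 := psd_sum h1 F v
      have h5 : (0 : ℂ) ≤ ((C * ‖∑ i ∈ F, v i • ψ (ι i)‖ ^ 2 -
          ‖∑ i ∈ F, v i • ((conj (ℓ i c) : ℂ) • φ i)‖ ^ 2 : ℝ) : ℂ) := by
        rw [Complex.ofReal_sub, Complex.ofReal_mul, h2, h3, Finset.mul_sum, ← Finset.sum_sub_distrib]
        refine le_of_le_of_eq h4 (Finset.sum_congr rfl fun i _ => ?_)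
        rw [Finset.mul_sum, ← Finset.sum_sub_distrib]
        refine Finset.sum_congr rfl fun j _ => ?_
        rw [hψ, inner_smul_left, inner_smul_right, hφ, Matrix.of_apply, Complex.conj_conj]
        ring
      have h6 := Complex.zero_le_real.1 h5
      linarith)
  -- global functions
  let ψ' : (Fin g → ℂ) → Hl := fun z => if hz : z ∈ Ω then ψ ⟨z, hz⟩ else 0
  let φ' : (Fin g → ℂ) → Hp := fun z => if hz : z ∈ N then φ ⟨z, hz⟩ else 0
  have hψ' : ∀ z (hz : z ∈ Ω), ψ' z = ψ ⟨z, hz⟩ := fun z hz => dif_pos hz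
  have hφ' : ∀ z (hz : z ∈ N), φ' z = φ ⟨z, hz⟩ := fun z hz => dif_pos hz
  let E : (Fin g → ℂ) → Hl →L[ℂ] ℂ := fun z => innerSL ℂ (ψ' z)
  have hEc : ContinuousOn E Ω := by
    have h1 : ContinuousOn ψ' Ω := by
      rw [continuousOn_iff_continuous_restrict]
      refine hψc.congr fun x => ?_
      rw [Set.restrict_apply, hψ' x.1 x.2]
    exact (innerSL ℂ).continuous.comp_continuousOn h1
  let T : Set Hl := Set.range ψ
  have hT : DenseRange (Submodule.span ℂ T).subtype := denseRange_of_closure hψd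
  have hw : ∀ y ∈ T, DifferentiableOn ℂ (fun z => E z y) Ω := by
    rintro _ ⟨w, rfl⟩
    refine (h.hol w.1 w.2).congr fun z hz => ?_
    change inner ℂ (ψ' z) (ψ w) = _
    rw [hψ' z hz, hψ]
  let Ad : (Hl →L[ℂ] ℂ) →L[ℂ] (Hp →L[ℂ] ℂ) :=
    (ContinuousLinearMap.compL ℂ Hp Hl ℂ).flip (ContinuousLinearMap.adjoint A)
  have hAd : ∀ z ∈ N, Ad (E z) = ℓ z c • innerSL ℂ (φ' z) := by
    intro z hz
    ext v
    change inner ℂ (ψ' z) (ContinuousLinearMap.adjoint A v) = _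
    rw [ContinuousLinearMap.adjoint_inner_right, hψ' z hz.1]
    have h1 : A (ψ ⟨z, hz.1⟩) = (conj (ℓ z c) : ℂ) • φ ⟨z, hz⟩ := hA ⟨z, hz⟩
    rw [h1, inner_smul_left, Complex.conj_conj, _root_.smul_apply, hφ' z hz, smul_eq_mul]
    rfl
  have hN : ∀ z ∈ Ω, ℓ z c ≠ 0 → z ∈ N := fun z hz h0 => ⟨hz, h.ne_of_ne hz h0⟩
  have hquot : ∀ z ∈ Ω, ℓ z c ≠ 0 → (ℓ z c)⁻¹ • Ad (E z) = innerSL ℂ (φ' z) := by
    intro z hz h0
    rw [hAd z (hN z hz h0), smul_smul, inv_mul_cancel₀ h0, one_smul]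
  have hφn : ∀ z ∈ N, ‖φ' z‖ ≤ 1 := by
    intro z hz
    have h1 : ‖φ' z‖ ^ 2 = (p z z).re := by
      rw [← @inner_self_eq_norm_sq ℂ, hφ' z hz, hφ]
      rfl
    have h2 := h.pone z hz.1 hz.2
    rw [← h1] at h2
    exact (sq_le_one_iff₀ (norm_nonneg _)).1 h2
  obtain ⟨β, hβ0, hβ⟩ := quot_series h.isOpen h.mem (h.hol c h.mem) h.ne hEc hT hw Ad (by
    intro z hz h0
    rw [hquot z hz h0, innerSL_apply_norm]
    exact hφn z (hN z hz h0))
  let D := (InnerProductSpace.toDual ℂ Hp).symm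
  have hD : ∀ v, D (innerSL ℂ v) = v := fun v =>
    (InnerProductSpace.toDual ℂ Hp).symm_apply_apply v
  have hDn : ∀ f, ‖D f‖ = ‖f‖ := fun f => LinearIsometryEquiv.norm_map _ f
  have hDs : ∀ (a : ℂ) f, D (a • f) = (conj a : ℂ) • D f := fun a f => map_smulₛₗ _ _ _
  have key : ∀ (z : Fin g → ℂ) (R : ℝ), 0 < R → Good Ω c z R → ∃ Ψ : ℂ → Hp →L[ℂ] ℂ,
      (∀ ζ ∈ ball (0 : ℂ) R, ‖Ψ ζ‖ ≤ 1) ∧
      (∀ ζ ∈ ball (0 : ℂ) R, ℓ (c + ζ • z) c ≠ 0 → D (Ψ ζ) = φ' (c + ζ • z)) ∧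
      (∀ ζ ∈ ball (0 : ℂ) R, HasSum (fun n => hp (fun a => D (β a)) n (ζ • z)) (D (Ψ ζ))) := by
    intro z R hR hG
    obtain ⟨Ψ, h1, h2, h3⟩ := hβ z R hR hG
    refine ⟨Ψ, h1, fun ζ hζ h0 => ?_, fun ζ hζ => ?_⟩
    · rw [h2 ζ hζ h0, hquot _ (hG ζ hζ) h0, hD]
    · have h4 := h3 ζ hζ
      have h5 : HasSum (fun n => D (ζ ^ n • ∑ a ∈ S (Fin g) n, mon z a • β a)) (D (Ψ ζ)) :=
        h4.map D.toLinearIsometry.toLinearMap.toAddMonoidHom D.continuous
      convert h5 using 2 with n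
      rw [hp_smul', hDs, map_pow, map_sum, hp]
      congr 1
      exact Finset.sum_congr rfl fun a _ => (hDs _ _).symm
  refine ⟨Hp, j1, j2, j3, fun a => D (β a), ?_, fun z R hR hG ζ hζ => ?_, ?_⟩
  · beta_reduce
    rw [hβ0, hquot c h.mem h.ne, hD]
    have h1 : ‖φ' c‖ ^ 2 = 0 := by
      rw [← @inner_self_eq_norm_sq ℂ, hφ' c ⟨h.mem, h.ne⟩, hφ]
      change (p c c).re = 0
      rw [h.pc]; rfl
    simpa using h1
  · obtain ⟨Ψ, h1, -, h3⟩ := key z R hR hG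
    have h4 := h3 ζ hζ
    have h5 : Psi (fun a => D (β a)) (ζ • z) = D (Ψ ζ) := h4.tsum_eq
    rw [h5]
    exact ⟨h4, by rw [hDn]; exact h1 ζ hζ⟩
  · intro z hz w hw' hz0 hw0
    have key2 : ∀ z ∈ Vc Ω c, ℓ (c + z) c ≠ 0 → Psi (fun a => D (β a)) z = φ' (c + z) ∧
        c + z ∈ N := by
      rintro z ⟨R, hR, hG⟩ h0
      obtain ⟨Ψ, h1, h2, h3⟩ := key z R (by linarith) hG
      have h1R : (1 : ℂ) ∈ ball (0 : ℂ) R := by simpa using hR
      have h4 := h3 1 h1R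
      have h5 := h2 1 h1R (by rwa [one_smul])
      rw [one_smul] at h4 h5
      refine ⟨h4.tsum_eq.trans h5, hN _ ?_ h0⟩
      have := hG 1 h1R
      rwa [one_smul] at this
    obtain ⟨h1, h2⟩ := key2 z hz hz0
    obtain ⟨h3, h4⟩ := key2 w hw' hw0
    rw [h1, h3, hφ' _ h2, hφ' _ h4, hφ]

end Pool.Agent.Q93.MC
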