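import Pool.Agent.Q93.MC.Greedy

/-!
Averages over finite tori.
-/

set_option autoImplicit false
set_option linter.unusedSectionVars false

open Finset

open scoped ComplexConjugate

noncomputable section

namespace Pool.Agent.Q93.MC

variable {σ : Type} [Fintype σ] [DecidableEq σ]

/-- the `N`-th roots of unity -/
def rt (N : ℕ) (j : Fin N) : ℂ := Complex.exp (2 * Real.pi * Complex.I / N) ^ (j : ℕ)

lemma rt_norm (N : ℕ) (j : Fin N) : ‖rt N j‖ = 1 := by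
  have : (2 * Real.pi * Complex.I / N : ℂ) = ((2 * Real.pi / N : ℝ) : ℂ) * Complex.I := by
    push_cast; ring
  rw [rt, norm_pow, this, Complex.norm_exp_ofReal_mul_I, one_pow]

lemma orth_one {N : ℕ} (hN : N ≠ 0) (a b : ℕ) :
    ∑ j : Fin N, conj (rt N j) ^ a * rt N j ^ b = if a ≡ b [MOD N] then (N : ℂ) else 0 := by
  set ω := Complex.exp (2 * Real.pi * Complex.I / N) with hω
  have hprim : IsPrimitiveRoot ω N := Complex.isPrimitiveRoot_exp N hN
  have hnorm : ‖ω‖ = 1 := hprim.norm'_eq_one hN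
  have hconj : conj ω * ω = 1 := by
    rw [mul_comm, Complex.mul_conj, Complex.normSq_eq_norm_sq, hnorm]; simp
  set x : ℂ := conj ω ^ a * ω ^ b with hx
  have hterm : ∀ j : Fin N, conj (rt N j) ^ a * rt N j ^ b = x ^ (j : ℕ) := by
    intro j
    rw [rt, map_pow, hx, mul_pow, ← pow_mul, ← pow_mul, ← pow_mul, ← pow_mul, mul_comm a, mul_comm b]
  simp only [hterm]
  rw [Fin.sum_univ_eq_sum_range (fun j => x ^ j) N]
  have hxN : x ^ N = 1 := by
    rw [hx, mul_pow, ← pow_mul, ← pow_mul, mul_comm a, mul_comm b, pow_mul, pow_mul,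
      ← map_pow, hprim.pow_eq_one]
    simp
  have hω0 : ω ≠ 0 := hprim.ne_zero hN
  have hinv : conj ω = ω⁻¹ := eq_inv_of_mul_eq_one_left hconj
  have hx1 : x = 1 ↔ a ≡ b [MOD N] := by
    rw [Nat.modEq_iff_dvd, ← hprim.zpow_eq_one_iff_dvd, hx, hinv, zpow_sub₀ hω0, zpow_natCast,
      zpow_natCast, inv_pow, div_eq_mul_inv, mul_comm]
  split_ifs with h
  · rw [hx1.2 h]; simp
  · have hne : x ≠ 1 := fun h' => h (hx1.1 h')
    have h2 := mul_neg_geom_sum x N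
    rw [hxN, sub_self] at h2
    exact (mul_eq_zero.1 h2).resolve_left (sub_ne_zero.2 (Ne.symm hne))

/-- points of the finite torus -/
def tp (N : ℕ) (τ : σ → Fin N) : σ → ℂ := fun i => rt N (τ i)

lemma mon_conj (z : σ → ℂ) (a : σ →₀ ℕ) : mon (fun i => conj (z i)) a = conj (mon z a) := by
  simp [mon, map_prod]

lemma mon_norm (z : σ → ℂ) (a : σ →₀ ℕ) : ‖mon z a‖ = mon (fun i => ‖z i‖) a := by
  simp [mon, norm_prod]

lemma mon_mul (z w : σ → ℂ) (a : σ →₀ ℕ) : mon (fun i => z i * w i) a = mon z a * mon w a := by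
  simp [mon, mul_pow, Finset.prod_mul_distrib]

lemma mon_tp_norm (N : ℕ) (τ : σ → Fin N) (a : σ →₀ ℕ) : ‖mon (tp N τ) a‖ = 1 := by
  rw [mon_norm]
  simp [mon, tp, rt_norm]

lemma orth {N : ℕ} (hN : N ≠ 0) (a b : σ →₀ ℕ) :
    ∑ τ : σ → Fin N, conj (mon (tp N τ) a) * mon (tp N τ) b =
      if (∀ i, a i ≡ b i [MOD N]) then (Fintype.card (σ → Fin N) : ℂ) else 0 := by
  have h1 : ∀ τ : σ → Fin N, conj (mon (tp N τ) a) * mon (tp N τ) b =
      ∏ i, (conj (rt N (τ i)) ^ a i * rt N (τ i) ^ b i) := by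
    intro τ
    rw [← mon_conj, mon, mon, ← Finset.prod_mul_distrib]
    rfl
  simp only [h1]
  rw [← Fintype.prod_sum (fun i (j : Fin N) => conj (rt N j) ^ a i * rt N j ^ b i)]
  simp only [orth_one hN]
  split_ifs with h
  · rw [Finset.prod_congr rfl (fun i _ => if_pos (h i))]
    simp
  · push Not at h
    obtain ⟨i, hi⟩ := h
    exact Finset.prod_eq_zero (mem_univ i) (if_neg hi)

/-- multi-indices of degree `n` -/
def S (σ : Type) [Fintype σ] [DecidableEq σ] (n : ℕ) : Finset (σ →₀ ℕ) :=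
  Finset.finsuppAntidiag univ n

lemma mem_S {n : ℕ} {a : σ →₀ ℕ} : a ∈ S σ n ↔ ∑ j, a j = n := by
  simp [S, Finset.mem_finsuppAntidiag]

lemma le_of_mem_S {n : ℕ} {a : σ →₀ ℕ} (ha : a ∈ S σ n) (i : σ) : a i ≤ n := by
  rw [mem_S] at ha
  rw [← ha]
  exact Finset.single_le_sum (f := fun j => a j) (fun _ _ => Nat.zero_le _) (mem_univ i)

lemma eq_of_modEq {N : ℕ} {a b : σ →₀ ℕ} (ha : ∀ i, a i < N) (hb : ∀ i, b i < N)
    (h : ∀ i, a i ≡ b i [MOD N]) : a = b :=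
  Finsupp.ext fun i => Nat.ModEq.eq_of_lt_of_lt (h i) (ha i) (hb i)

section Bessel

variable {H : Type*} [NormedAddCommGroup H] [InnerProductSpace ℂ H] {T A : Type*} [Fintype T]
  [DecidableEq A]

/-- Bessel's inequality for vector valued functions on a finite set and orthogonal functions of
modulus one. -/
lemma bessel {c : ℝ} (hc : 0 < c) (χ : A → T → ℂ) (s : Finset A)
    (hχ : ∀ a ∈ s, ∀ b ∈ s, ∑ τ, conj (χ a τ) * χ b τ = if a = b then (c : ℂ) else 0)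
    (y : T → H) :
    ∑ a ∈ s, ‖∑ τ : T, ((conj (χ a τ) : ℂ) • y τ : H)‖ ^ 2 ≤ c * ∑ τ, ‖y τ‖ ^ 2 := by
  set u : A → H := fun a => ∑ τ : T, (conj (χ a τ) : ℂ) • y τ with hu
  have h0 : 0 ≤ ∑ τ : T, ‖((c : ℂ) • y τ - ∑ a ∈ s, χ a τ • u a : H)‖ ^ 2 :=
    Finset.sum_nonneg fun _ _ => by positivity
  have e1 : ∀ τ, ‖(c : ℂ) • y τ - ∑ a ∈ s, χ a τ • u a‖ ^ 2 =
      c ^ 2 * ‖y τ‖ ^ 2 - 2 * (c * ∑ a ∈ s, (χ a τ * inner ℂ (y τ) (u a)).re) +
        (∑ a ∈ s, ∑ b ∈ s, conj (χ a τ) * χ b τ * inner ℂ (u a) (u b)).re := by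
    intro τ
    rw [@norm_sub_sq ℂ, norm_smul, inner_smul_left, inner_sum]
    have e2 : ‖∑ a ∈ s, χ a τ • u a‖ ^ 2 =
        (∑ a ∈ s, ∑ b ∈ s, conj (χ a τ) * χ b τ * inner ℂ (u a) (u b)).re := by
      rw [← @inner_self_eq_norm_sq ℂ]
      change (inner ℂ (∑ a ∈ s, χ a τ • u a) (∑ a ∈ s, χ a τ • u a)).re = _
      rw [sum_inner]
      congr 1
      refine Finset.sum_congr rfl fun a _ => ?_
      rw [inner_sum]
      refine Finset.sum_congr rfl fun b _ => ?_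
      rw [inner_smul_left, inner_smul_right]; ring
    rw [e2]
    congr 1
    congr 1
    · rw [mul_pow, Complex.norm_real, Real.norm_eq_abs, sq_abs]
    · congr 1
      simp only [inner_smul_right]
      rw [Complex.conj_ofReal]
      change ((c : ℂ) * ∑ a ∈ s, χ a τ * inner ℂ (y τ) (u a)).re = _
      rw [Complex.re_ofReal_mul, Complex.re_sum]
  have e3 : ∑ τ, ∑ a ∈ s, (χ a τ * inner ℂ (y τ) (u a)).re = ∑ a ∈ s, ‖u a‖ ^ 2 := by
    rw [Finset.sum_comm]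
    refine Finset.sum_congr rfl fun a _ => ?_
    rw [← Complex.re_sum, ← @inner_self_eq_norm_sq ℂ]
    conv_rhs => rw [hu]
    simp only [sum_inner, inner_smul_left, Complex.conj_conj]
    rfl
  have e4 : ∑ τ, (∑ a ∈ s, ∑ b ∈ s, conj (χ a τ) * χ b τ * inner ℂ (u a) (u b)).re =
      c * ∑ a ∈ s, ‖u a‖ ^ 2 := by
    rw [← Complex.re_sum, Finset.sum_comm]
    have : ∀ a ∈ s, ∑ τ, ∑ b ∈ s, conj (χ a τ) * χ b τ * inner ℂ (u a) (u b) =
        (c : ℂ) * inner ℂ (u a) (u a) := by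
      intro a ha
      rw [Finset.sum_comm]
      have h1 : ∀ b ∈ s, ∑ τ, conj (χ a τ) * χ b τ * inner ℂ (u a) (u b) =
          if a = b then (c : ℂ) * inner ℂ (u a) (u b) else 0 := by
        intro b hb
        rw [← Finset.sum_mul, hχ a ha b hb]
        split_ifs <;> simp
      rw [Finset.sum_congr rfl h1, Finset.sum_ite_eq, if_pos ha]
    rw [Finset.sum_congr rfl this, ← Finset.mul_sum, Complex.re_ofReal_mul, Complex.re_sum]
    congr 1
    exact Finset.sum_congr rfl fun a _ => @inner_self_eq_norm_sq ℂ _ _ _ _ (u a)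
  simp only [e1] at h0
  rw [Finset.sum_add_distrib, Finset.sum_sub_distrib, e4, ← Finset.mul_sum, ← Finset.mul_sum,
    ← Finset.mul_sum, e3] at h0
  have h1 : 0 ≤ c * (c * ∑ τ, ‖y τ‖ ^ 2 - ∑ a ∈ s, ‖u a‖ ^ 2) := by nlinarith
  have h2 := nonneg_of_mul_nonneg_right h1 hc
  linarith

end Bessel

end Pool.Agent.Q93.MC
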